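import Pool.Agent.Helper741.Her.Kernel

open Filter Topology

namespace Pool.Agent.Helper741.Her

noncomputable section

open Classical in
theorem kernel_approx {Γ : Type} [Group Γ] (Λ : Subgroup Γ) (C : ℝ) (hC : 0 ≤ C) (hR : RWA Γ Λ C)
    (L : Submodule ℂ (Op Γ)) (hLD : L ≤ Dspan Γ)
    (hLR : ∀ g, ∀ T ∈ L, Rg g * T ∈ L)
    (T : Op Γ) (hT : T ∈ L) (ε : ℝ) (hε : 0 < ε) :
    ∃ M ∈ Submodule.span ℂ {x : Op Γ | ∃ A T₁ T₂ : Op Γ, T₁ ∈ L ∧
      (∀ s t, ent T₂ s t = if s⁻¹ * t ∈ Λ then ent T₁ s t else 0) ∧ x = A * T₂}, ‖T - M‖ < ε := by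
  have hC2 : 0 < C + 2 := by linarith
  set δ : ℝ := ε / (C + 2) with hδdef
  have hδ : 0 < δ := div_pos hε hC2
  obtain ⟨Z, hZ⟩ := Dspan_approx T (hLD hT) δ hδ
  set Sg : ℝ := ∑ g ∈ Z.support, ‖Z g‖ with hSg
  have hSg0 : 0 ≤ Sg := Finset.sum_nonneg fun _ _ => norm_nonneg _
  have hε' : 0 < δ / (Sg + 1) := by positivity
  obtain ⟨κ, hSB, hinv, ⟨K, hK⟩, hnear⟩ := hR Z.support (δ / (Sg + 1)) hε'
  have hSBκ : SB κ C := hSB Γ id
  obtain ⟨T', hT', _⟩ := hSBκ T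
  obtain ⟨X, hX, hXn⟩ := hSBκ (T - rho Z)
  -- Claim A
  have hcb : ∀ g ∈ Z.support, ∀ s, ‖1 - κ s (s * g)‖ ≤ δ / (Sg + 1) := by
    intro g hg s
    rw [norm_sub_rev]
    exact hnear g hg s
  have hD : rho Z - (T' - X) =
      ∑ g ∈ Z.support, Z g • (dg (fun s => 1 - κ s (s * g)) * Rg g) := by
    apply ent_ext
    intro s t
    rw [ent_sub, ent_sub, hT', hX, ent_sub, ent_rho, ent_sum]
    have hterm : ∀ g ∈ Z.support, ent (Z g • (dg (fun s => 1 - κ s (s * g)) * Rg g)) s t =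
        Z g * ((1 - κ s (s * g)) * (if s * g = t then 1 else 0)) := by
      intro g hg
      rw [ent_smul, ← mul_one (dg (fun s => 1 - κ s (s * g)) * Rg g), ka_ent_dg (hcb g hg),
        ← Rg_one, ent_Rg, mul_one]
    rw [Finset.sum_congr rfl hterm]
    by_cases hmem : s⁻¹ * t ∈ Z.support
    · rw [Finset.sum_eq_single (s⁻¹ * t)]
      · rw [mul_inv_cancel_left, if_pos rfl]
        ring
      · intro g _ hg
        rw [if_neg, mul_zero, mul_zero]
        intro h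
        apply hg
        rw [← h, inv_mul_cancel_left]
      · intro h; exact absurd hmem h
    · have hz : Z (s⁻¹ * t) = 0 := Finsupp.notMem_support_iff.1 hmem
      rw [hz, Finset.sum_eq_zero]
      · ring
      · intro g hg
        rw [if_neg, mul_zero, mul_zero]
        intro h
        apply hmem
        rw [← h, inv_mul_cancel_left]
        exact hg
  have hDn : ‖rho Z - (T' - X)‖ ≤ δ := by
    rw [hD]
    refine (norm_sum_le _ _).trans ?_
    have h1 : ∀ g ∈ Z.support, ‖Z g • (dg (fun s => 1 - κ s (s * g)) * Rg g)‖ ≤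
        ‖Z g‖ * (δ / (Sg + 1)) := by
      intro g hg
      rw [norm_smul]
      refine mul_le_mul_of_nonneg_left ?_ (norm_nonneg _)
      refine (norm_mul_le _ _).trans ?_
      have h2 := norm_dg_le hε'.le (hcb g hg)
      have h3 := norm_Rg_le g
      calc ‖dg (fun s => 1 - κ s (s * g))‖ * ‖Rg g‖ ≤ (δ / (Sg + 1)) * 1 :=
            mul_le_mul h2 h3 (norm_nonneg _) hε'.le
        _ = δ / (Sg + 1) := mul_one _
    refine (Finset.sum_le_sum h1).trans ?_
    rw [← Finset.sum_mul, ← hSg, mul_div_assoc', div_le_iff₀ (by linarith)]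
    nlinarith
  have hA : ‖T - T'‖ < ε := by
    have e1 : T - T' = (T - rho Z) + (rho Z - (T' - X)) - X := by abel
    have h1 : ‖X‖ ≤ C * δ := hXn.trans (mul_le_mul_of_nonneg_left hZ.le hC)
    have h2 : ‖T - T'‖ ≤ ‖T - rho Z‖ + ‖rho Z - (T' - X)‖ + ‖X‖ := by
      rw [e1]
      exact (norm_sub_le _ _).trans (add_le_add (norm_add_le _ _) le_rfl)
    have h3 : δ * (C + 2) = ε := div_mul_cancel₀ _ hC2.ne'
    nlinarith
  -- Claim B
  refine ⟨T', ?_, hA⟩
  have hκb : ∀ s t, ‖κ s t‖ ≤ C := by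
    intro s t
    obtain ⟨Y, hY, hYn⟩ := hSBκ (Rg (s⁻¹ * t))
    have h1 := hY s t
    rw [ent_Rg, mul_inv_cancel_left, if_pos rfl, mul_one] at h1
    rw [← h1]
    refine (norm_ent_le Y s t).trans (hYn.trans ?_)
    have := mul_le_mul_of_nonneg_left (norm_Rg_le (s⁻¹ * t)) hC
    rwa [mul_one] at this
  set K' : Finset Γ := K.image (fun a => (QuotientGroup.mk a : Γ ⧸ Λ).out) with hK'
  have hmk : ∀ b : Γ, (QuotientGroup.mk ((QuotientGroup.mk b : Γ ⧸ Λ).out) : Γ ⧸ Λ) =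
      QuotientGroup.mk b := fun b => QuotientGroup.out_eq' _
  have hex : ∀ s t, κ s t ≠ 0 → ∃ a ∈ K', a⁻¹ * (s⁻¹ * t) ∈ Λ := by
    intro s t hst
    obtain ⟨a0, ha0, h0⟩ := hK s t hst
    refine ⟨(QuotientGroup.mk a0 : Γ ⧸ Λ).out, Finset.mem_image_of_mem _ ha0, ?_⟩
    rw [← QuotientGroup.eq, hmk, QuotientGroup.eq]
    exact h0
  have huniq : ∀ x : Γ, ∀ a ∈ K', ∀ a' ∈ K', a⁻¹ * x ∈ Λ → a'⁻¹ * x ∈ Λ → a = a' := by
    intro x a ha a' ha' h1 h2
    rw [← QuotientGroup.eq] at h1 h2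
    obtain ⟨b, _, rfl⟩ := Finset.mem_image.1 ha
    obtain ⟨b', _, rfl⟩ := Finset.mem_image.1 ha'
    rw [hmk] at h1 h2
    rw [h1, ← h2]
  have hT2ex : ∀ a : Γ, ∃ T2 : Op Γ, ∀ s t, ent T2 s t =
      if s⁻¹ * t ∈ Λ then ent (Rg a⁻¹ * T) s t else 0 := by
    intro a
    obtain ⟨T2, hT2, _⟩ := SB_match (QuotientGroup.mk : Γ → Γ ⧸ Λ) (QuotientGroup.mk : Γ → Γ ⧸ Λ)
      (Rg a⁻¹ * T)
    refine ⟨T2, fun s t => ?_⟩
    rw [hT2]
    beta_reduce
    by_cases h : s⁻¹ * t ∈ Λ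
    · rw [if_pos h, if_pos (QuotientGroup.eq.2 h), one_mul]
    · rw [if_neg h, if_neg (fun h' => h (QuotientGroup.eq.1 h')), zero_mul]
  choose T2 hT2 using hT2ex
  have hT'eq : T' = ∑ a ∈ K', (dg (fun s => κ s (s * a)) * Rg a) * T2 a := by
    apply ent_ext
    intro s t
    rw [hT', ent_sum]
    have hterm : ∀ a, ent ((dg (fun s => κ s (s * a)) * Rg a) * T2 a) s t =
        if a⁻¹ * (s⁻¹ * t) ∈ Λ then κ s t * ent T s t else 0 := by
      intro a
      rw [ka_ent_dg (fun i => hκb i (i * a)), hT2]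
      have e1 : (s * a)⁻¹ * t = a⁻¹ * (s⁻¹ * t) := by group
      rw [e1]
      by_cases h : a⁻¹ * (s⁻¹ * t) ∈ Λ
      · rw [if_pos h, if_pos h, ent_Rg_mul, mul_inv_cancel_right]
        have e2 := hinv s (s * a) _ h
        have e3 : s * a * (a⁻¹ * (s⁻¹ * t)) = t := by group
        rw [e3] at e2
        rw [e2]
      · rw [if_neg h, if_neg h, mul_zero]
    rw [Finset.sum_congr rfl (fun a _ => hterm a)]
    by_cases h0 : κ s t = 0
    · rw [h0, zero_mul]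
      symm
      apply Finset.sum_eq_zero
      intro a _
      split_ifs <;> rfl
    · obtain ⟨a, ha, hal⟩ := hex s t h0
      rw [Finset.sum_eq_single a]
      · rw [if_pos hal]
      · intro b hb hba
        rw [if_neg]
        intro h
        exact hba (huniq _ b hb a ha h hal)
      · intro h; exact absurd ha h
  rw [hT'eq]
  apply Submodule.sum_mem
  intro a _
  apply Submodule.subset_span
  exact ⟨dg (fun s => κ s (s * a)) * Rg a, Rg a⁻¹ * T, T2 a, hLR _ _ hT, hT2 a, rfl⟩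

theorem h170_bern (n : ℕ) (hn : 1 ≤ n) (x : ℝ) (hx : 0 ≤ x) (hx1 : x ≤ 1) :
    x * (1 - x) ^ n ≤ 1 / n := by
  have hn0 : (0:ℝ) < n := by exact_mod_cast hn
  have h1 : 1 + (n : ℝ) * x ≤ (1 + x) ^ n := one_add_mul_le_pow (by linarith) n
  have h2 : (1 - x) ^ n * (1 + x) ^ n ≤ 1 := by
    rw [← mul_pow]
    refine pow_le_one₀ (mul_nonneg (by linarith) (by linarith)) ?_
    nlinarith
  have h3 : 0 ≤ (1 - x) ^ n := pow_nonneg (by linarith) n
  rw [le_div_iff₀ hn0]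
  have h4 : (1 - x) ^ n * (1 + (n : ℝ) * x) ≤ (1 - x) ^ n * (1 + x) ^ n := mul_le_mul_of_nonneg_left h1 h3
  nlinarith

theorem AU {𝔸 : Type} [CStarAlgebra 𝔸] (D L : Submodule ℂ 𝔸) (hLc : IsClosed (L : Set 𝔸))
    (hLD : L ≤ D) (hDs : ∀ d ∈ D, star d ∈ D) (hDL : ∀ d ∈ D, ∀ l ∈ L, d * l ∈ L)
    (T : 𝔸) (hT : T ∈ D)
    (h : T ∈ closure (Submodule.span ℂ {x : 𝔸 | ∃ a l, l ∈ L ∧ x = a * l} : Set 𝔸)) : T ∈ L := by
  letI := CStarAlgebra.spectralOrder 𝔸
  haveI := CStarAlgebra.spectralOrderedRing 𝔸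
  -- the predicate
  have hQ : ∀ w ∈ Submodule.span ℂ {x : 𝔸 | ∃ a l, l ∈ L ∧ x = a * l},
      ∃ h0 : 𝔸, h0 ∈ L ∧ 0 ≤ h0 ∧ ∃ K : ℝ, 0 ≤ K ∧ ∀ b : 𝔸, star b = b →
        ‖w * b‖ ^ 2 ≤ K * ‖b * h0 * b‖ := by
    intro w hw
    induction hw using Submodule.span_induction with
    | mem x hx =>
      obtain ⟨a, l, hl, rfl⟩ := hx
      refine ⟨star l * l, hDL _ (hDs l (hLD hl)) l hl, star_mul_self_nonneg l, ‖a‖ ^ 2, by positivity, ?_⟩
      intro b hb
      have e1 : b * (star l * l) * b = star (l * b) * (l * b) := by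
        rw [star_mul, hb]; simp only [mul_assoc]
      rw [e1, CStarRing.norm_star_mul_self, mul_assoc]
      have h1 : ‖a * (l * b)‖ ≤ ‖a‖ * ‖l * b‖ := norm_mul_le _ _
      calc ‖a * (l * b)‖ ^ 2 ≤ (‖a‖ * ‖l * b‖) ^ 2 := pow_le_pow_left₀ (norm_nonneg _) h1 2
        _ = ‖a‖ ^ 2 * (‖l * b‖ * ‖l * b‖) := by ring
    | zero =>
      refine ⟨0, L.zero_mem, le_rfl, 0, le_rfl, ?_⟩
      intro b hb
      simp
    | add x y hx hy ihx ihy =>
      obtain ⟨h1, h1L, h1n, K1, hK1, hb1⟩ := ihx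
      obtain ⟨h2, h2L, h2n, K2, hK2, hb2⟩ := ihy
      refine ⟨h1 + h2, L.add_mem h1L h2L, add_nonneg h1n h2n, 2 * (K1 + K2), by positivity, ?_⟩
      intro b hb
      have c1 : 0 ≤ b * h1 * b := by
        have := star_left_conjugate_nonneg h1n b
        rwa [hb] at this
      have c2 : 0 ≤ b * h2 * b := by
        have := star_left_conjugate_nonneg h2n b
        rwa [hb] at this
      have e1 : b * (h1 + h2) * b = b * h1 * b + b * h2 * b := by
        rw [mul_add, add_mul]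
      have n1 : ‖b * h1 * b‖ ≤ ‖b * (h1 + h2) * b‖ := by
        rw [e1]
        exact CStarAlgebra.norm_le_norm_of_nonneg_of_le c1 (le_add_of_nonneg_right c2)
      have n2 : ‖b * h2 * b‖ ≤ ‖b * (h1 + h2) * b‖ := by
        rw [e1]
        exact CStarAlgebra.norm_le_norm_of_nonneg_of_le c2 (le_add_of_nonneg_left c1)
      have m1 : ‖x * b‖ ^ 2 ≤ K1 * ‖b * (h1 + h2) * b‖ :=
        (hb1 b hb).trans (mul_le_mul_of_nonneg_left n1 hK1)
      have m2 : ‖y * b‖ ^ 2 ≤ K2 * ‖b * (h1 + h2) * b‖ :=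
        (hb2 b hb).trans (mul_le_mul_of_nonneg_left n2 hK2)
      have m3 : ‖(x + y) * b‖ ≤ ‖x * b‖ + ‖y * b‖ := by
        rw [add_mul]; exact norm_add_le _ _
      have m4 : ‖(x + y) * b‖ ^ 2 ≤ (‖x * b‖ + ‖y * b‖) ^ 2 := pow_le_pow_left₀ (norm_nonneg _) m3 2
      have m5 : (‖x * b‖ + ‖y * b‖) ^ 2 ≤ 2 * (‖x * b‖ ^ 2 + ‖y * b‖ ^ 2) := by
        nlinarith [sq_nonneg (‖x * b‖ - ‖y * b‖)]
      calc ‖(x + y) * b‖ ^ 2 ≤ 2 * (‖x * b‖ ^ 2 + ‖y * b‖ ^ 2) := m4.trans m5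
        _ ≤ 2 * (K1 * ‖b * (h1 + h2) * b‖ + K2 * ‖b * (h1 + h2) * b‖) := by linarith
        _ = _ := by ring
    | smul c x hx ihx =>
      obtain ⟨h1, h1L, h1n, K1, hK1, hb1⟩ := ihx
      refine ⟨h1, h1L, h1n, ‖c‖ ^ 2 * K1, by positivity, ?_⟩
      intro b hb
      rw [smul_mul_assoc, norm_smul, mul_pow, mul_assoc]
      exact mul_le_mul_of_nonneg_left (hb1 b hb) (by positivity)
  have hcl : T ∈ closure (L : Set 𝔸) := by
    rw [Metric.mem_closure_iff]
    intro ε hε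
    rw [Metric.mem_closure_iff] at h
    obtain ⟨w, hw, hTw⟩ := h (ε / 2) (by linarith)
    rw [dist_eq_norm] at hTw
    obtain ⟨h0, h0L, h0n, K, hK, hb⟩ := hQ w hw
    have h0D : h0 ∈ D := hLD h0L
    have h0sa : IsSelfAdjoint h0 := IsSelfAdjoint.of_nonneg h0n
    set M : ℝ := ‖h0‖ + 1 with hM
    have hM0 : 0 < M := by have := norm_nonneg h0; linarith
    obtain ⟨m, hm⟩ := exists_nat_gt (K * M / (ε / 2) ^ 2)
    have hm0 : 0 < m := by
      have h1 : 0 ≤ K * M / (ε / 2) ^ 2 := by positivity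
      have h2 : (0:ℝ) < m := lt_of_le_of_lt h1 hm
      exact_mod_cast h2
    set f : ℝ → ℝ := fun t => (1 - M⁻¹ * t) ^ m with hf
    set b : 𝔸 := cfc f h0 with hbdef
    have hfc : Continuous f := by rw [hf]; fun_prop
    have hbsa : star b = b := by
      have : IsSelfAdjoint b := cfc_predicate f h0
      exact this
    have hspec : ∀ x ∈ spectrum ℝ h0, 0 ≤ M⁻¹ * x ∧ M⁻¹ * x ≤ 1 := by
      intro x hx
      have h1 : 0 ≤ x := spectrum_nonneg_of_nonneg h0n hx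
      have h2 : ‖x‖ ≤ ‖h0‖ * ‖(1 : 𝔸)‖ := spectrum.norm_le_norm_mul_of_mem hx
      have h3 : ‖(1 : 𝔸)‖ ≤ 1 := by
        rcases subsingleton_or_nontrivial 𝔸 with hs | hs
        · have : (1 : 𝔸) = 0 := Subsingleton.elim _ _
          rw [this, norm_zero]; norm_num
        · rw [norm_one]
      have h4 : x ≤ M := by
        rw [Real.norm_of_nonneg h1] at h2
        have h5 : ‖h0‖ * ‖(1 : 𝔸)‖ ≤ ‖h0‖ * 1 := mul_le_mul_of_nonneg_left h3 (norm_nonneg _)
        linarith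
      refine ⟨by positivity, ?_⟩
      rw [inv_mul_le_iff₀ hM0]
      linarith
    have hb1 : ‖b‖ ≤ 1 := by
      refine norm_cfc_le zero_le_one ?_
      intro x hx
      obtain ⟨h1, h2⟩ := hspec x hx
      have h3 : 0 ≤ 1 - M⁻¹ * x := by linarith
      rw [Real.norm_of_nonneg (pow_nonneg h3 m)]
      exact pow_le_one₀ h3 (by linarith)
    have hbhb : b * h0 * b = cfc (fun t : ℝ => f t * t * f t) h0 := by
      rw [cfc_mul (fun t => f t * t) f h0, cfc_mul f (fun t => t) h0, cfc_id' ℝ h0]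
    have hn1 : ‖b * h0 * b‖ ≤ M / (2 * m) := by
      rw [hbhb]
      refine norm_cfc_le (by positivity) ?_
      intro x hx
      obtain ⟨h1, h2⟩ := hspec x hx
      have h3 : 0 ≤ x := spectrum_nonneg_of_nonneg h0n hx
      have h4 : f x * x * f x = M * ((M⁻¹ * x) * (1 - M⁻¹ * x) ^ (2 * m)) := by
        rw [hf, two_mul, pow_add]
        field_simp
      have h5 := h170_bern (2 * m) (by omega) (M⁻¹ * x) h1 h2
      have h6 : 0 ≤ (M⁻¹ * x) * (1 - M⁻¹ * x) ^ (2 * m) := mul_nonneg h1 (pow_nonneg (by linarith) _)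
      rw [h4, Real.norm_of_nonneg (by positivity)]
      calc M * ((M⁻¹ * x) * (1 - M⁻¹ * x) ^ (2 * m)) ≤ M * (1 / ((2 * m : ℕ) : ℝ)) :=
            mul_le_mul_of_nonneg_left h5 hM0.le
        _ = M / (2 * m) := by push_cast; ring
    have hbpoly : b = (1 - M⁻¹ • h0) ^ m := by
      rw [hbdef, hf, cfc_pow (fun t : ℝ => 1 - M⁻¹ * t) m h0, cfc_sub (fun _ : ℝ => (1 : ℝ)) (fun t : ℝ => M⁻¹ * t) h0,
        cfc_const_mul M⁻¹ (fun t : ℝ => t) h0, cfc_id' ℝ h0, cfc_const_one ℝ h0]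
    have hpow : ∀ n : ℕ, 1 - (1 - M⁻¹ • h0) ^ n ∈ L := by
      intro n
      induction n with
      | zero => simp
      | succ n ih =>
        have e1 : 1 - (1 - M⁻¹ • h0) ^ (n + 1) = (1 - (1 - M⁻¹ • h0) ^ n) + ((M⁻¹ : ℝ) : ℂ) • h0 -
            ((M⁻¹ : ℝ) : ℂ) • (h0 * (1 - (1 - M⁻¹ • h0) ^ n)) := by
          rw [Complex.coe_smul, Complex.coe_smul, pow_succ', sub_mul, one_mul, mul_sub, mul_one, smul_sub,
            smul_mul_assoc]
          abel
        rw [e1]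
        exact L.sub_mem (L.add_mem ih (L.smul_mem _ h0L)) (L.smul_mem _ (hDL h0 h0D _ ih))
    refine ⟨T * (1 - b), ?_, ?_⟩
    · refine hDL T hT _ ?_
      rw [hbpoly]
      exact hpow m
    · rw [dist_eq_norm]
      have e1 : T - T * (1 - b) = (T - w) * b + w * b := by
        rw [mul_sub, mul_one, sub_mul]; abel
      rw [e1]
      have n1 : ‖(T - w) * b‖ ≤ ‖T - w‖ := by
        calc ‖(T - w) * b‖ ≤ ‖T - w‖ * ‖b‖ := norm_mul_le _ _
          _ ≤ ‖T - w‖ * 1 := mul_le_mul_of_nonneg_left hb1 (norm_nonneg _)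
          _ = _ := mul_one _
      have n2 : ‖w * b‖ ≤ ε / 2 := by
        have h1 := hb b hbsa
        have h2 : K * ‖b * h0 * b‖ ≤ K * (M / (2 * m)) := mul_le_mul_of_nonneg_left hn1 hK
        have hmr : (0:ℝ) < m := by exact_mod_cast hm0
        have h3 : K * (M / (2 * m)) ≤ (ε / 2) ^ 2 := by
          rw [div_lt_iff₀ (by positivity)] at hm
          rw [← mul_div_assoc, div_le_iff₀ (by positivity)]
          have : 0 < (m : ℝ) * (ε / 2) ^ 2 := by positivity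
          nlinarith
        have h4 : ‖w * b‖ ^ 2 ≤ (ε / 2) ^ 2 := h1.trans (h2.trans h3)
        exact (pow_le_pow_iff_left₀ (norm_nonneg _) (by linarith) two_ne_zero).1 h4
      calc ‖(T - w) * b + w * b‖ ≤ ‖(T - w) * b‖ + ‖w * b‖ := norm_add_le _ _
        _ < ε := by linarith
  rwa [hLc.closure_eq] at hcl

def gspan {Γ : Type} [Group Γ] (Q : Set (Op Γ)) : Submodule ℂ (Op Γ) :=
  Submodule.span ℂ {x | ∃ g, ∃ q ∈ Q, x = Rg g * q}

def StarProp (Γ : Type) [Group Γ] : Prop :=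
  ∀ L : Submodule ℂ (Op Γ), L ≤ Dspan Γ → (∀ g, ∀ T ∈ L, Rg g * T ∈ L) →
    ∃ Q : Set (Op Γ), Q.Countable ∧ Q ⊆ L ∧ ∀ T ∈ L, T ∈ closure (gspan Q : Set (Op Γ))

open Classical in
theorem star_of_aux1 {Γ : Type} [Group Γ] (Λ : Subgroup Γ) (T T' : Op Γ) (hT : T ∈ Dspan Γ)
    (h : ∀ s t, ent T' s t = if s⁻¹ * t ∈ Λ then ent T s t else 0) :
    T' ∈ closure (Submodule.span ℂ (Set.range (fun g : Λ => Rg (g : Γ))) : Set (Op Γ)) := by
  rw [Metric.mem_closure_iff]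
  intro ε hε
  obtain ⟨Z, hZ⟩ := Dspan_approx T hT ε hε
  obtain ⟨X', hX1, hX2⟩ := SB_match (fun s : Γ => (QuotientGroup.mk s : Γ ⧸ Λ))
    (fun s : Γ => (QuotientGroup.mk s : Γ ⧸ Λ)) (T - rho Z)
  refine ⟨rho (Z.filter (fun g => g ∈ Λ)), ?_, ?_⟩
  · unfold rho
    rw [Finsupp.linearCombination_apply]
    refine Submodule.sum_mem _ ?_
    intro g hg
    refine Submodule.smul_mem _ _ ?_
    rw [Finsupp.support_filter, Finset.mem_filter] at hg
    exact Submodule.subset_span ⟨⟨g, hg.2⟩, rfl⟩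
  · have hEq : T' - X' = rho (Z.filter (fun g => g ∈ Λ)) := by
      apply ent_ext
      intro s t
      rw [ent_sub, h, hX1, ent_sub, ent_rho, ent_rho, Finsupp.filter_apply]
      simp only [QuotientGroup.eq]
      split_ifs <;> ring
    rw [← hEq, dist_eq_norm, sub_sub_cancel]
    linarith

theorem star_of_aux2 {Γ : Type} [Group Γ] (Q : Set (Op Γ)) (g : Γ) (x : Op Γ) (hx : x ∈ gspan Q) :
    Rg g * x ∈ gspan Q := by
  unfold gspan at hx ⊢
  induction hx using Submodule.span_induction with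
  | mem x hx =>
    obtain ⟨g', q, hq, rfl⟩ := hx
    refine Submodule.subset_span ⟨g * g', q, hq, ?_⟩
    rw [Rg_mul, mul_assoc]
  | zero => rw [mul_zero]; exact Submodule.zero_mem _
  | add x y _ _ hx hy => rw [mul_add]; exact Submodule.add_mem _ hx hy
  | smul c x _ hx => rw [mul_smul_comm]; exact Submodule.smul_mem _ _ hx

theorem star_of_aux3 {Γ : Type} [Group Γ] (Q : Set (Op Γ)) (g : Γ) (x : Op Γ)
    (hx : x ∈ (gspan Q).topologicalClosure) : Rg g * x ∈ (gspan Q).topologicalClosure := by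
  have hx' : x ∈ closure (gspan Q : Set (Op Γ)) := hx
  have := map_mem_closure (f := fun y : Op Γ => Rg g * y) (continuous_const.mul continuous_id) hx'
    (t := (gspan Q : Set (Op Γ))) (fun y hy => star_of_aux2 Q g y hy)
  exact this

theorem star_of_aux4 {Γ : Type} [Group Γ] (Q : Set (Op Γ)) (d x : Op Γ) (hd : d ∈ Dspan Γ)
    (hx : x ∈ (gspan Q).topologicalClosure) : d * x ∈ (gspan Q).topologicalClosure := by
  have hd' : d ∈ closure (Submodule.span ℂ (Set.range (Rg : Γ → Op Γ)) : Set (Op Γ)) := hd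
  have h1 : ∀ y ∈ (Submodule.span ℂ (Set.range (Rg : Γ → Op Γ)) : Set (Op Γ)),
      y * x ∈ ((gspan Q).topologicalClosure : Set (Op Γ)) := by
    intro y hy
    have hy' : y ∈ Submodule.span ℂ (Set.range (Rg : Γ → Op Γ)) := hy
    clear hy
    show y * x ∈ (gspan Q).topologicalClosure
    induction hy' using Submodule.span_induction with
    | mem y hy =>
      obtain ⟨g, rfl⟩ := hy
      exact star_of_aux3 Q g x hx
    | zero => rw [zero_mul]; exact Submodule.zero_mem _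
    | add y z hy1 hz1 hy hz => rw [add_mul]; exact Submodule.add_mem _ hy hz
    | smul c y hy1 hy => rw [smul_mul_assoc]; exact Submodule.smul_mem _ _ hy
  have h2 := map_mem_closure (f := fun y : Op Γ => y * x) (continuous_id.mul continuous_const) hd'
    (t := ((gspan Q).topologicalClosure : Set (Op Γ))) h1
  have h3 : IsClosed ((gspan Q).topologicalClosure : Set (Op Γ)) :=
    Submodule.isClosed_topologicalClosure _
  rw [h3.closure_eq] at h2
  exact h2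

open Classical in
theorem star_of {Γ : Type} [Group Γ] (Λ : Subgroup Γ) (hΛ : Countable Λ) (C : ℝ) (hC : 0 ≤ C)
    (hR : RWA Γ Λ C)
    (L : Submodule ℂ (Op Γ)) (hLc : IsClosed (L : Set (Op Γ))) (hLD : L ≤ Dspan Γ)
    (hLR : ∀ g, ∀ T ∈ L, Rg g * T ∈ L)
    (hE : ∀ T ∈ L, ∀ T' : Op Γ,
      (∀ s t, ent T' s t = if s⁻¹ * t ∈ Λ then ent T s t else 0) → T' ∈ L) :
    ∃ Q : Set (Op Γ), Q.Countable ∧ Q ⊆ L ∧ ∀ T ∈ L, T ∈ closure (gspan Q : Set (Op Γ)) := by
  set E : Set (Op Γ) := {T' | ∃ T ∈ L, ∀ s t, ent T' s t = if s⁻¹ * t ∈ Λ then ent T s t else 0}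
    with hEdef
  have hEL : E ⊆ L := by
    rintro T' ⟨T, hT, h⟩
    exact hE T hT T' h
  have hsep0 : TopologicalSpace.IsSeparable
      (Submodule.span ℂ (Set.range (fun g : Λ => Rg (g : Γ))) : Set (Op Γ)) :=
    ((Set.countable_range (fun g : Λ => Rg (g : Γ))).isSeparable).span
  have hsep : TopologicalSpace.IsSeparable E := by
    refine hsep0.closure.mono ?_
    rintro T' ⟨T, hT, h⟩
    exact star_of_aux1 Λ T T' (hLD hT) h
  obtain ⟨Q, hQE, hQc, hQd⟩ := hsep.exists_countable_dense_subset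
  refine ⟨Q, hQc, hQE.trans hEL, ?_⟩
  have hgL : gspan Q ≤ L := by
    unfold gspan
    rw [Submodule.span_le]
    rintro x ⟨g, q, hq, rfl⟩
    exact hLR g q (hEL (hQE hq))
  have hL1L : (gspan Q).topologicalClosure ≤ L := Submodule.topologicalClosure_minimal _ hgL hLc
  have hQg : Q ⊆ (gspan Q : Set (Op Γ)) := by
    intro q hq
    refine Submodule.subset_span ⟨1, q, hq, ?_⟩
    rw [Rg_one, one_mul]
  intro T hT
  have key : T ∈ (gspan Q).topologicalClosure := by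
    refine AU (Dspan Γ) (gspan Q).topologicalClosure (Submodule.isClosed_topologicalClosure _)
      (hL1L.trans hLD) (fun d hd => Dspan_star d hd) (fun d hd l hl => star_of_aux4 Q d l hd hl)
      T (hLD hT) ?_
    rw [Metric.mem_closure_iff]
    intro ε hε
    obtain ⟨M, hM1, hM2⟩ := kernel_approx Λ C hC hR L hLD hLR T hT ε hε
    refine ⟨M, ?_, by rw [dist_eq_norm]; exact hM2⟩
    refine Submodule.span_mono ?_ hM1
    rintro x ⟨A, T₁, T₂, hT₁, hent, rfl⟩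
    refine ⟨A, T₂, ?_, rfl⟩
    have hT₂E : T₂ ∈ E := ⟨T₁, hT₁, hent⟩
    have h2 : T₂ ∈ closure (gspan Q : Set (Op Γ)) := closure_mono hQg (hQd hT₂E)
    exact h2
  exact key

end

end Pool.Agent.Helper741.Her
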