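import Pool.Agent.Helper741.Her.Defs

open Filter Topology

namespace Pool.Agent.Helper741.Her

noncomputable section

theorem isReduced_sub {α : Type} {l l' : List (α × Bool)} (h : FreeGroup.IsReduced l')
    (h' : l <:+: l') : FreeGroup.IsReduced l := by
  obtain ⟨s, t, rfl⟩ := h'
  have h1 : List.IsChain _ (s ++ l) := List.IsChain.left_of_append h
  exact List.IsChain.right_of_append h1

open Classical in
def dl {ι : Type} (t : ι) : L2 ι := lp.single 2 t (1 : ℂ)

def ent {ι κ : Type} (T : L2 ι →L[ℂ] L2 κ) (s : κ) (t : ι) : ℂ := (T (dl t)) s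

-- BASICS

open Classical in
theorem dl_apply {ι : Type} (t s : ι) : (dl t) s = if s = t then 1 else 0 := by
  unfold dl
  rw [lp.single_apply, Pi.single_apply]

theorem norm_dl {ι : Type} (t : ι) : ‖dl t‖ = 1 := by
  classical
  unfold dl
  rw [lp.norm_single (by norm_num), norm_one]

theorem norm_coord_le {ι : Type} (F : L2 ι) (i : ι) : ‖F i‖ ≤ ‖F‖ := by
  exact lp.norm_apply_le_norm (by norm_num) F i

theorem norm_sq_eq {ι : Type} (F : L2 ι) : ‖F‖ ^ 2 = ∑' i, ‖F i‖ ^ 2 := by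
  have h := lp.norm_rpow_eq_tsum (p := 2) (by norm_num) F
  simpa using h

theorem summable_sq {ι : Type} (F : L2 ι) : Summable fun i => ‖F i‖ ^ 2 := by
  have h := (lp.memℓp F).summable (by norm_num)
  simpa using h

theorem hasSum_dl {ι : Type} (F : L2 ι) : HasSum (fun i => F i • dl i) F := by
  classical
  have h := lp.hasSum_single (E := fun _ : ι => ℂ) (p := 2) (by norm_num) F
  convert h using 2 with i
  unfold dl
  rw [← lp.single_smul, smul_eq_mul, mul_one]

theorem ent_ext {ι κ : Type} {T T' : L2 ι →L[ℂ] L2 κ} (h : ∀ s t, ent T s t = ent T' s t) :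
    T = T' := by
  have h1 : ∀ t, T (dl t) = T' (dl t) := fun t => lp.ext (funext fun s => h s t)
  ext1 F
  have h2 := (hasSum_dl F).mapL T
  have h3 := (hasSum_dl F).mapL T'
  refine h2.unique ?_
  convert h3 using 2 with i
  rw [map_smul, map_smul, h1]

theorem ent_add {ι κ : Type} (T T' : L2 ι →L[ℂ] L2 κ) (s : κ) (t : ι) :
    ent (T + T') s t = ent T s t + ent T' s t := by
  unfold ent
  rw [add_apply, lp.coeFn_add, Pi.add_apply]

theorem ent_sub {ι κ : Type} (T T' : L2 ι →L[ℂ] L2 κ) (s : κ) (t : ι) :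
    ent (T - T') s t = ent T s t - ent T' s t := by
  unfold ent
  rw [sub_apply, lp.coeFn_sub, Pi.sub_apply]

theorem ent_smul {ι κ : Type} (c : ℂ) (T : L2 ι →L[ℂ] L2 κ) (s : κ) (t : ι) :
    ent (c • T) s t = c * ent T s t := by
  unfold ent
  rw [smul_apply, lp.coeFn_smul, Pi.smul_apply, smul_eq_mul]

theorem ent_sum {ι κ A : Type} (S : Finset A) (T : A → (L2 ι →L[ℂ] L2 κ)) (s : κ) (t : ι) :
    ent (∑ a ∈ S, T a) s t = ∑ a ∈ S, ent (T a) s t := by
  classical
  induction S using Finset.induction_on with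
  | empty =>
    rw [Finset.sum_empty, Finset.sum_empty]
    unfold ent
    rw [zero_apply, lp.coeFn_zero, Pi.zero_apply]
  | insert a S ha ih =>
    rw [Finset.sum_insert ha, Finset.sum_insert ha, ent_add, ih]

theorem norm_ent_le {ι κ : Type} (T : L2 ι →L[ℂ] L2 κ) (s : κ) (t : ι) : ‖ent T s t‖ ≤ ‖T‖ := by
  unfold ent
  refine (norm_coord_le _ s).trans ((T.le_opNorm _).trans ?_)
  rw [norm_dl, mul_one]

theorem inner_dl {ι : Type} (s : ι) (F : L2 ι) : inner ℂ (dl s) F = F s := by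
  classical
  have h := lp.inner_single_left (𝕜 := ℂ) (G := fun _ : ι => ℂ) s (1 : ℂ) F
  have e : (dl s : L2 ι) = lp.single 2 s (1 : ℂ) := by
    unfold dl
    congr!
  rw [e, h]
  simp

theorem ent_star {ι : Type} (T : Op ι) (s t : ι) : ent (star T) s t = star (ent T t s) := by
  unfold ent
  rw [← inner_dl s, ← inner_dl t, ContinuousLinearMap.star_eq_adjoint,
    ContinuousLinearMap.adjoint_inner_right]
  exact (inner_conj_symm _ _).symm

theorem exists_clm_aux {ι κ : Type} (g : L2 κ → (ι → ℂ)) (C : ℝ) (hC : 0 ≤ C)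
    (hadd : ∀ F G i, g (F + G) i = g F i + g G i) (hsm : ∀ (c : ℂ) F i, g (c • F) i = c * g F i)
    (hs : ∀ F, Summable fun i => ‖g F i‖ ^ 2) (hb : ∀ F, ∑' i, ‖g F i‖ ^ 2 ≤ C ^ 2 * ‖F‖ ^ 2) :
    ∃ V : L2 κ →L[ℂ] L2 ι, (∀ F i, (V F) i = g F i) ∧ ‖V‖ ≤ C := by
  have hmem : ∀ F, Memℓp (g F) 2 := by
    intro F
    refine memℓp_gen ?_
    simpa using hs F
  let L : L2 κ →ₗ[ℂ] L2 ι :=
    { toFun := fun F => ⟨g F, hmem F⟩
      map_add' := by
        intro F G
        apply lp.ext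
        funext i
        exact hadd F G i
      map_smul' := by
        intro c F
        apply lp.ext
        funext i
        exact hsm c F i }
  have hL : ∀ F, ‖L F‖ ≤ C * ‖F‖ := by
    intro F
    have h1 : ‖L F‖ ^ 2 ≤ (C * ‖F‖) ^ 2 := by
      rw [norm_sq_eq, mul_pow]
      exact hb F
    exact le_of_sq_le_sq h1 (by positivity)
  exact ⟨L.mkContinuous C hL, fun F i => rfl, L.mkContinuous_norm_le hC hL⟩

theorem exists_res {ι κ : Type} (f : ι → κ) (hf : Function.Injective f) :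
    ∃ V : L2 κ →L[ℂ] L2 ι, (∀ F i, (V F) i = F (f i)) ∧ ‖V‖ ≤ 1 := by
  refine exists_clm_aux (fun F i => F (f i)) 1 zero_le_one ?_ ?_ ?_ ?_
  · intro F G i
    rfl
  · intro c F i
    rfl
  · intro F
    exact (summable_sq F).comp_injective hf
  · intro F
    rw [one_pow, one_mul, norm_sq_eq]
    exact tsum_comp_le_tsum_of_inj (summable_sq F) (fun _ => by positivity) hf

theorem exists_dg {ι : Type} (c : ι → ℂ) (C : ℝ) (hC : 0 ≤ C) (hc : ∀ i, ‖c i‖ ≤ C) :
    ∃ V : Op ι, (∀ F i, (V F) i = c i * F i) ∧ ‖V‖ ≤ C := by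
  have hle : ∀ (F : L2 ι) i, ‖c i * F i‖ ^ 2 ≤ C ^ 2 * ‖F i‖ ^ 2 := by
    intro F i
    rw [norm_mul, mul_pow]
    have := hc i
    gcongr
  have hs : ∀ F : L2 ι, Summable fun i => ‖c i * F i‖ ^ 2 := by
    intro F
    exact Summable.of_nonneg_of_le (fun _ => by positivity) (hle F) ((summable_sq F).mul_left _)
  refine exists_clm_aux (fun F i => c i * F i) C hC ?_ ?_ hs ?_
  · intro F G i
    change c i * (F i + G i) = _
    ring
  · intro a F i
    change c i * (a * F i) = a * (c i * F i)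
    ring
  · intro F
    rw [norm_sq_eq F, ← tsum_mul_left]
    exact (hs F).tsum_le_tsum (hle F) ((summable_sq F).mul_left _)

theorem exists_ampl {ι κ : Type} (T : L2 ι →L[ℂ] L2 κ) (J : Type) :
    ∃ T' : L2 (ι × J) →L[ℂ] L2 (κ × J), ‖T'‖ ≤ ‖T‖ ∧
      ∀ (F : L2 (ι × J)) (G : L2 ι) (j : J), (∀ i, G i = F (i, j)) → ∀ k, (T' F) (k, j) = (T G) k := by
  classical
  have hinj : ∀ j : J, Function.Injective (fun i : ι => (i, j)) := fun j a b h => by simpa using h
  choose R hR hRn using fun j : J => exists_res (fun i : ι => (i, j)) (hinj j)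
  have hsumF : ∀ (F : L2 (ι × J)) (J0 : Finset J), ∑ j ∈ J0, ‖R j F‖ ^ 2 ≤ ‖F‖ ^ 2 := by
    intro F J0
    have h1 : ∀ j, ‖R j F‖ ^ 2 = ∑' i, ‖F (i, j)‖ ^ 2 := by
      intro j
      rw [norm_sq_eq]
      simp only [hR]
    have hs : Summable fun p : J × ι => ‖F (p.2, p.1)‖ ^ 2 :=
      (Equiv.prodComm J ι).summable_iff.mpr (summable_sq F)
    have h2 : ‖F‖ ^ 2 = ∑' j, ∑' i, ‖F (i, j)‖ ^ 2 := by
      rw [norm_sq_eq, ← (Equiv.prodComm J ι).tsum_eq (fun p : ι × J => ‖F p‖ ^ 2)]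
      exact hs.tsum_prod
    rw [h2, Finset.sum_congr rfl (fun j _ => h1 j)]
    exact Summable.sum_le_tsum J0 (fun j _ => tsum_nonneg fun i => by positivity) hs.prod
  have hfin : ∀ (F : L2 (ι × J)) (S : Finset (κ × J)),
      ∑ p ∈ S, ‖T (R p.2 F) p.1‖ ^ 2 ≤ ‖T‖ ^ 2 * ‖F‖ ^ 2 := by
    intro F S
    have hsub : S ⊆ S.image Prod.fst ×ˢ S.image Prod.snd := by
      intro p hp
      rw [Finset.mem_product]
      exact ⟨Finset.mem_image_of_mem _ hp, Finset.mem_image_of_mem _ hp⟩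
    calc ∑ p ∈ S, ‖T (R p.2 F) p.1‖ ^ 2
        ≤ ∑ p ∈ S.image Prod.fst ×ˢ S.image Prod.snd, ‖T (R p.2 F) p.1‖ ^ 2 :=
          Finset.sum_le_sum_of_subset_of_nonneg hsub fun p _ _ => by positivity
      _ = ∑ j ∈ S.image Prod.snd, ∑ k ∈ S.image Prod.fst, ‖T (R j F) k‖ ^ 2 := by
          rw [Finset.sum_product_right]
      _ ≤ ∑ j ∈ S.image Prod.snd, ‖T‖ ^ 2 * ‖R j F‖ ^ 2 := by
          refine Finset.sum_le_sum fun j _ => ?_
          calc ∑ k ∈ S.image Prod.fst, ‖T (R j F) k‖ ^ 2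
              ≤ ∑' k, ‖T (R j F) k‖ ^ 2 :=
                Summable.sum_le_tsum _ (fun k _ => by positivity) (summable_sq _)
            _ = ‖T (R j F)‖ ^ 2 := (norm_sq_eq _).symm
            _ ≤ (‖T‖ * ‖R j F‖) ^ 2 := by
                have := T.le_opNorm (R j F)
                gcongr
            _ = ‖T‖ ^ 2 * ‖R j F‖ ^ 2 := by ring
      _ = ‖T‖ ^ 2 * ∑ j ∈ S.image Prod.snd, ‖R j F‖ ^ 2 := by rw [Finset.mul_sum]
      _ ≤ ‖T‖ ^ 2 * ‖F‖ ^ 2 := by
          have := hsumF F (S.image Prod.snd)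
          gcongr
  have hmem : ∀ F : L2 (ι × J), Memℓp (fun p : κ × J => T (R p.2 F) p.1) 2 := by
    intro F
    refine memℓp_gen' (C := ‖T‖ ^ 2 * ‖F‖ ^ 2) fun S => ?_
    have := hfin F S
    simpa using this
  let L : L2 (ι × J) →ₗ[ℂ] L2 (κ × J) :=
    { toFun := fun F => ⟨fun p => T (R p.2 F) p.1, hmem F⟩
      map_add' := by
        intro F G
        apply lp.ext
        funext p
        simp <;> rfl
      map_smul' := by
        intro c F
        apply lp.ext
        funext p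
        simp }
  have hL : ∀ F, ‖L F‖ ≤ ‖T‖ * ‖F‖ := by
    intro F
    have h0 : ‖L F‖ ^ 2 ≤ (‖T‖ * ‖F‖) ^ 2 := by
      rw [norm_sq_eq, mul_pow]
      refine Summable.tsum_le_of_sum_le (summable_sq _) fun S => ?_
      exact hfin F S
    exact le_of_sq_le_sq h0 (by positivity)
  refine ⟨L.mkContinuous ‖T‖ hL, L.mkContinuous_norm_le (norm_nonneg _) hL, ?_⟩
  intro F G j hG k
  have hGR : R j F = G := by
    apply lp.ext
    funext i
    rw [hR, hG]
  show T (R j F) k = T G k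
  rw [hGR]

open Classical in
/-- `F ↦ F ∘ f` for injective `f`. -/
def res {ι κ : Type} (f : ι → κ) : L2 κ →L[ℂ] L2 ι :=
  if hf : Function.Injective f then Classical.choose (exists_res f hf) else 0

theorem res_apply {ι κ : Type} {f : ι → κ} (hf : Function.Injective f) (F : L2 κ) (i : ι) :
    (res f F) i = F (f i) := by
  unfold res
  rw [dif_pos hf]
  exact (Classical.choose_spec (exists_res f hf)).1 F i

theorem norm_res_le {ι κ : Type} (f : ι → κ) : ‖(res f : L2 κ →L[ℂ] L2 ι)‖ ≤ 1 := by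
  unfold res
  split_ifs with hf
  · exact (Classical.choose_spec (exists_res f hf)).2
  · simp

open Classical in
/-- diagonal operator with bounded coefficients -/
def dg {ι : Type} (c : ι → ℂ) : Op ι :=
  if h : ∃ C : ℝ, 0 ≤ C ∧ ∀ i, ‖c i‖ ≤ C then
    Classical.choose (exists_dg c (Classical.choose h) (Classical.choose_spec h).1
      (Classical.choose_spec h).2) else 0

theorem dg_apply {ι : Type} {c : ι → ℂ} {C : ℝ} (h : ∀ i, ‖c i‖ ≤ C) (F : L2 ι) (i : ι) :
    (dg c F) i = c i * F i := by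
  have hex : ∃ C : ℝ, 0 ≤ C ∧ ∀ i, ‖c i‖ ≤ C :=
    ⟨max C 0, le_max_right _ _, fun i => (h i).trans (le_max_left _ _)⟩
  unfold dg
  rw [dif_pos hex]
  exact (Classical.choose_spec (exists_dg c (Classical.choose hex) (Classical.choose_spec hex).1
      (Classical.choose_spec hex).2)).1 F i

theorem norm_dg_le {ι : Type} {c : ι → ℂ} {C : ℝ} (hC : 0 ≤ C) (h : ∀ i, ‖c i‖ ≤ C) :
    ‖dg c‖ ≤ C := by
  obtain ⟨V, hV, hn⟩ := exists_dg c C hC h
  have he : dg c = V := by
    ext F i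
    rw [dg_apply h, hV]
  rw [he]
  exact hn

-- GROUPS

/-- right regular representation -/
def Rg {Γ : Type} [Group Γ] (g : Γ) : Op Γ := res (fun s => s * g)

theorem Rg_apply {Γ : Type} [Group Γ] (g : Γ) (F : L2 Γ) (s : Γ) : (Rg g F) s = F (s * g) := 
  res_apply (mul_left_injective g) F s

theorem Rg_mul {Γ : Type} [Group Γ] (g h : Γ) : Rg (g * h) = Rg g * Rg h := by
  ext F s
  rw [Rg_apply, ContinuousLinearMap.mul_apply, Rg_apply, Rg_apply, mul_assoc]

theorem Rg_one {Γ : Type} [Group Γ] : Rg (1 : Γ) = 1 := by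
  ext F s
  rw [Rg_apply, ContinuousLinearMap.one_apply, mul_one]

theorem norm_Rg_le {Γ : Type} [Group Γ] (g : Γ) : ‖Rg g‖ ≤ 1 := norm_res_le _

open Classical in
theorem ent_Rg_aux770 {Γ : Type} [Group Γ] (g s t : Γ) :
    ent (Rg g) s t = if s * g = t then 1 else 0 := by
  unfold ent
  rw [Rg_apply, dl_apply]

theorem Rg_star {Γ : Type} [Group Γ] (g : Γ) : star (Rg g) = Rg g⁻¹ := by
  apply ent_ext
  intro s t
  rw [ent_star, ent_Rg_aux770, ent_Rg_aux770]
  by_cases h : t * g = s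
  · have h' : s * g⁻¹ = t := by rw [← h]; simp
    rw [if_pos h, if_pos h', star_one]
  · have h' : ¬ (s * g⁻¹ = t) := by
      intro h2; apply h; rw [← h2]; simp
    rw [if_neg h, if_neg h', star_zero]

theorem ent_Rg_mul {Γ : Type} [Group Γ] (g : Γ) (T : Op Γ) (s t : Γ) :
    ent (Rg g * T) s t = ent T (s * g) t := by
  unfold ent
  rw [ContinuousLinearMap.mul_apply, Rg_apply]

open Classical in
theorem ent_Rg {Γ : Type} [Group Γ] (g s t : Γ) :
    ent (Rg g) s t = if s * g = t then 1 else 0 := by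
  exact ent_Rg_aux770 g s t

def rho {Γ : Type} [Group Γ] : (Γ →₀ ℂ) →ₗ[ℂ] Op Γ := Finsupp.linearCombination ℂ Rg

theorem ent_rho {Γ : Type} [Group Γ] (Z : Γ →₀ ℂ) (s t : Γ) : ent (rho Z) s t = Z (s⁻¹ * t) := by
  classical
  have h : rho Z = ∑ g ∈ Z.support, Z g • Rg g := by
    unfold rho
    rw [Finsupp.linearCombination_apply, Finsupp.sum]
  rw [h, ent_sum]
  rw [Finset.sum_congr rfl (fun g _ => by rw [ent_smul, ent_Rg])]
  have h2 : ∀ g : Γ, (s * g = t) ↔ (g = s⁻¹ * t) := by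
    intro g
    constructor
    · intro hg; rw [← hg]; simp
    · intro hg; rw [hg]; simp
  by_cases hm : s⁻¹ * t ∈ Z.support
  · rw [Finset.sum_eq_single (s⁻¹ * t)]
    · rw [if_pos ((h2 _).2 rfl), mul_one]
    · intro b _ hb
      rw [if_neg (fun hh => hb ((h2 b).1 hh)), mul_zero]
    · intro hh; exact absurd hm hh
  · rw [Finset.sum_eq_zero]
    · exact (Finsupp.notMem_support_iff.1 hm).symm
    · intro b hb
      rw [if_neg, mul_zero]
      intro hh
      exact hm ((h2 b).1 hh ▸ hb)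

theorem rho_single {Γ : Type} [Group Γ] (g : Γ) (c : ℂ) : rho (Finsupp.single g c) = c • Rg g := by
  simp [rho]

def Dspan (Γ : Type) [Group Γ] : Submodule ℂ (Op Γ) :=
  (Submodule.span ℂ (Set.range Rg)).topologicalClosure

theorem rho_mem {Γ : Type} [Group Γ] (Z : Γ →₀ ℂ) : rho Z ∈ Dspan Γ := by
  apply Submodule.le_topologicalClosure
  unfold rho
  rw [← Finsupp.range_linearCombination]
  exact LinearMap.mem_range_self _ _

theorem Dspan_approx {Γ : Type} [Group Γ] (T : Op Γ) (hT : T ∈ Dspan Γ) (ε : ℝ) (hε : 0 < ε) :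
    ∃ Z : Γ →₀ ℂ, ‖T - rho Z‖ < ε := by
  unfold Dspan at hT
  have h1 : T ∈ closure ((Submodule.span ℂ (Set.range (Rg (Γ := Γ))) : Submodule ℂ (Op Γ)) : Set (Op Γ)) := by
    rw [← Submodule.topologicalClosure_coe]
    exact hT
  obtain ⟨y, hy, hd⟩ := Metric.mem_closure_iff.1 h1 ε hε
  have hy2 : y ∈ Submodule.span ℂ (Set.range (Rg (Γ := Γ))) := hy
  rw [← Finsupp.range_linearCombination] at hy2
  obtain ⟨Z, hZ⟩ := hy2
  refine ⟨Z, ?_⟩
  have : rho Z = y := hZ
  rw [this, ← dist_eq_norm]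
  exact hd

theorem Dspan_star {Γ : Type} [Group Γ] (T : Op Γ) (hT : T ∈ Dspan Γ) : star T ∈ Dspan Γ := by
  have hstar : ∀ x ∈ Submodule.span ℂ (Set.range (Rg (Γ := Γ))),
      star x ∈ Submodule.span ℂ (Set.range (Rg (Γ := Γ))) := by
    intro x hx
    induction hx using Submodule.span_induction with
    | mem x hx =>
      obtain ⟨g, rfl⟩ := hx
      rw [Rg_star]
      exact Submodule.subset_span ⟨_, rfl⟩
    | zero => rw [star_zero]; exact Submodule.zero_mem _
    | add x y _ _ hx hy => rw [star_add]; exact Submodule.add_mem _ hx hy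
    | smul a x _ hx => rw [star_smul]; exact Submodule.smul_mem _ _ hx
  have h1 : T ∈ closure ((Submodule.span ℂ (Set.range (Rg (Γ := Γ))) : Submodule ℂ (Op Γ)) : Set (Op Γ)) := by
    rw [← Submodule.topologicalClosure_coe]
    exact hT
  have h2 : star T ∈ closure ((Submodule.span ℂ (Set.range (Rg (Γ := Γ))) : Submodule ℂ (Op Γ)) : Set (Op Γ)) := by
    apply map_mem_closure continuous_star h1
    intro x hx
    exact hstar x hx
  have h3 : star T ∈ (Submodule.span ℂ (Set.range (Rg (Γ := Γ)))).topologicalClosure := by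
    rw [← SetLike.mem_coe, Submodule.topologicalClosure_coe]
    exact h2
  exact h3

-- SCHUR

def SB {ι : Type} (κ : ι → ι → ℂ) (C : ℝ) : Prop :=
  ∀ T : Op ι, ∃ T' : Op ι, (∀ s t, ent T' s t = κ s t * ent T s t) ∧ ‖T'‖ ≤ C * ‖T‖

theorem exists_isoV {ι J : Type} (c : ι → J → ℂ) (hs : ∀ t, Summable fun j => ‖c t j‖ ^ 2)
    (hc : ∀ t, ∑' j, ‖c t j‖ ^ 2 ≤ 1) :
    ∃ V : L2 ι →L[ℂ] L2 (ι × J), (∀ F t j, (V F) (t, j) = F t * c t j) ∧ ‖V‖ ≤ 1 := by
  have hsum : ∀ F : L2 ι, Summable fun p : ι × J => ‖F p.1 * c p.1 p.2‖ ^ 2 := by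
    intro F
    rw [summable_prod_of_nonneg (fun p => by positivity)]
    constructor
    · intro t
      simp only [norm_mul, mul_pow]
      exact (hs t).mul_left _
    · simp only [norm_mul, mul_pow, tsum_mul_left]
      refine Summable.of_nonneg_of_le (fun t => ?_) (fun t => ?_) (summable_sq F)
      · have : 0 ≤ ∑' j, ‖c t j‖ ^ 2 := tsum_nonneg fun j => by positivity
        positivity
      · have h1 := hc t
        have h2 : 0 ≤ ‖F t‖ ^ 2 := by positivity
        nlinarith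
  have hmem : ∀ F : L2 ι, Memℓp (fun p : ι × J => F p.1 * c p.1 p.2) 2 := by
    intro F
    rw [memℓp_gen_iff (by norm_num)]
    have := hsum F
    simpa using this
  let L : L2 ι →ₗ[ℂ] L2 (ι × J) :=
    { toFun := fun F => ⟨fun p : ι × J => F p.1 * c p.1 p.2, hmem F⟩
      map_add' := fun F G => by
        ext p
        show (F p.1 + G p.1) * c p.1 p.2 = F p.1 * c p.1 p.2 + G p.1 * c p.1 p.2
        ring
      map_smul' := fun r F => by
        ext p
        show (r * F p.1) * c p.1 p.2 = r * (F p.1 * c p.1 p.2)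
        ring }
  have hL : ∀ F p, (L F) p = F p.1 * c p.1 p.2 := fun F p => rfl
  have hnorm : ∀ F, ‖L F‖ ≤ 1 * ‖F‖ := by
    intro F
    rw [one_mul]
    have h1 : ‖L F‖ ^ 2 ≤ ‖F‖ ^ 2 := by
      rw [norm_sq_eq (L F), norm_sq_eq F]
      simp only [hL]
      rw [(hsum F).tsum_prod' (fun t => by
        simp only [norm_mul, mul_pow]
        exact (hs t).mul_left _)]
      refine Summable.tsum_le_tsum (fun t => ?_) (hsum F).prod (summable_sq F)
      simp only [norm_mul, mul_pow, tsum_mul_left]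
      have h1 := hc t
      have h2 : 0 ≤ ‖F t‖ ^ 2 := by positivity
      nlinarith
    exact le_of_sq_le_sq h1 (norm_nonneg F)
  refine ⟨L.mkContinuous 1 hnorm, fun F t j => ?_, L.mkContinuous_norm_le zero_le_one hnorm⟩
  rfl

theorem schur_exists {ι J : Type} (κ : ι → ι → ℂ) (ξ η : ι → L2 J) (hξ : ∀ s, ‖ξ s‖ ≤ 1)
    (hη : ∀ t, ‖η t‖ ≤ 1) (hκ : ∀ s t, κ s t = ∑' j, ξ s j * η t j) : SB κ 1 := by
  intro T
  obtain ⟨A, hA1, hA2⟩ := exists_ampl T J
  obtain ⟨Vη, hη1, hη2⟩ := exists_isoV (fun t j => η t j) (fun t => summable_sq (η t)) (fun t => by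
    rw [← norm_sq_eq]
    have h1 := hη t
    have h2 := norm_nonneg (η t)
    nlinarith)
  obtain ⟨Vξ, hξ1, hξ2⟩ := exists_isoV (fun s j => star (ξ s j)) (fun s => by
    simp only [norm_star]
    exact summable_sq (ξ s)) (fun s => by
    simp only [norm_star]
    rw [← norm_sq_eq]
    have h1 := hξ s
    have h2 := norm_nonneg (ξ s)
    nlinarith)
  refine ⟨(ContinuousLinearMap.adjoint Vξ) ∘L (A ∘L Vη), ?_, ?_⟩
  · intro s t
    classical
    have hdl : dl s = lp.single 2 s (1 : ℂ) := by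
      unfold dl
      congr
    have e1 := ContinuousLinearMap.adjoint_inner_right Vξ (lp.single 2 s (1 : ℂ)) (A (Vη (dl t)))
    rw [lp.inner_single_left, lp.inner_eq_tsum, ← hdl] at e1
    have h1 : ent ((ContinuousLinearMap.adjoint Vξ) ∘L (A ∘L Vη)) s t =
        inner ℂ (1 : ℂ) (((ContinuousLinearMap.adjoint Vξ) (A (Vη (dl t)))) s) := by
      simp [ent, inner]
    rw [h1, e1]
    have hinj : Function.Injective (fun j : J => (s, j)) := fun a b h => (Prod.ext_iff.1 h).2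
    rw [← hinj.tsum_eq]
    · rw [hκ, ← tsum_mul_right]
      refine tsum_congr fun j => ?_
      have h2 : (A (Vη (dl t))) (s, j) = (T ((η t j) • dl t)) s := by
        apply hA2
        intro i
        rw [hη1]
        show η t j * (dl t) i = _
        rw [dl_apply]
        by_cases hit : i = t
        · rw [if_pos hit, hit]
          ring
        · rw [if_neg hit]
          ring
      show inner ℂ ((Vξ (dl s)) (s, j)) ((A (Vη (dl t))) (s, j)) = _
      rw [h2, hξ1, map_smul]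
      show inner ℂ ((dl s) s * star (ξ s j)) (η t j * (T (dl t)) s) = _
      rw [dl_apply, if_pos rfl, one_mul]
      unfold ent
      simp [inner]
      ring
    · intro p hp
      rw [Function.mem_support] at hp
      by_contra hcon
      apply hp
      have hps : p.1 ≠ s := by
        intro h
        apply hcon
        exact ⟨p.2, by rw [← h]⟩
      have h3 : (Vξ (dl s)) p = 0 := by
        have := hξ1 (dl s) p.1 p.2
        rw [dl_apply, if_neg hps, zero_mul] at this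
        exact this
      rw [h3, inner_zero_left]
  · rw [one_mul]
    calc ‖(ContinuousLinearMap.adjoint Vξ) ∘L (A ∘L Vη)‖
        ≤ ‖ContinuousLinearMap.adjoint Vξ‖ * ‖A ∘L Vη‖ := ContinuousLinearMap.opNorm_comp_le _ _
      _ ≤ ‖ContinuousLinearMap.adjoint Vξ‖ * (‖A‖ * ‖Vη‖) := by
          gcongr
          exact ContinuousLinearMap.opNorm_comp_le _ _
      _ = ‖Vξ‖ * (‖A‖ * ‖Vη‖) := by rw [LinearIsometryEquiv.norm_map]
      _ ≤ 1 * (‖T‖ * 1) := by gcongr
      _ = ‖T‖ := by ring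

theorem SB_add {ι : Type} {κ κ' : ι → ι → ℂ} {C C' : ℝ} (h : SB κ C) (h' : SB κ' C') :
    SB (fun s t => κ s t + κ' s t) (C + C') := by
  intro T
  obtain ⟨T1, h1, h1n⟩ := h T
  obtain ⟨T2, h2, h2n⟩ := h' T
  refine ⟨T1 + T2, fun s t => ?_, ?_⟩
  · rw [ent_add, h1, h2]
    ring
  · calc ‖T1 + T2‖ ≤ ‖T1‖ + ‖T2‖ := norm_add_le _ _
      _ ≤ C * ‖T‖ + C' * ‖T‖ := add_le_add h1n h2n
      _ = (C + C') * ‖T‖ := by ring

theorem SB_smul {ι : Type} {κ : ι → ι → ℂ} {C : ℝ} (c : ℂ) (h : SB κ C) :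
    SB (fun s t => c * κ s t) (‖c‖ * C) := by
  intro T
  obtain ⟨T1, h1, h1n⟩ := h T
  refine ⟨c • T1, fun s t => ?_, ?_⟩
  · rw [ent_smul, h1]
    ring
  · calc ‖c • T1‖ = ‖c‖ * ‖T1‖ := norm_smul _ _
      _ ≤ ‖c‖ * (C * ‖T‖) := mul_le_mul_of_nonneg_left h1n (norm_nonneg _)
      _ = ‖c‖ * C * ‖T‖ := by ring

theorem SB_mul {ι : Type} {κ κ' : ι → ι → ℂ} {C C' : ℝ} (hC : 0 ≤ C) (hC' : 0 ≤ C') (h : SB κ C) (h' : SB κ' C') :
    SB (fun s t => κ s t * κ' s t) (C * C') := by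
  intro T
  obtain ⟨T1, h1, h1n⟩ := h' T
  obtain ⟨T2, h2, h2n⟩ := h T1
  refine ⟨T2, fun s t => ?_, ?_⟩
  · rw [h2, h1]
    ring
  · calc ‖T2‖ ≤ C * ‖T1‖ := h2n
      _ ≤ C * (C' * ‖T‖) := mul_le_mul_of_nonneg_left h1n hC
      _ = C * C' * ‖T‖ := by ring

theorem SB_sum {ι A : Type} (S : Finset A) (κ : A → ι → ι → ℂ) (C : A → ℝ) (h : ∀ a ∈ S, SB (κ a) (C a)) :
    SB (fun s t => ∑ a ∈ S, κ a s t) (∑ a ∈ S, C a) := by
  intro T
  have hex : ∀ a : A, ∃ T' : Op ι, a ∈ S → (∀ s t, ent T' s t = κ a s t * ent T s t) ∧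
      ‖T'‖ ≤ C a * ‖T‖ := by
    intro a
    by_cases ha : a ∈ S
    · obtain ⟨T', hT'⟩ := h a ha T
      exact ⟨T', fun _ => hT'⟩
    · exact ⟨0, fun h => absurd h ha⟩
  choose T' hT' using hex
  refine ⟨∑ a ∈ S, T' a, fun s t => ?_, ?_⟩
  · rw [ent_sum, Finset.sum_mul]
    exact Finset.sum_congr rfl fun a ha => (hT' a ha).1 s t
  · calc ‖∑ a ∈ S, T' a‖ ≤ ∑ a ∈ S, ‖T' a‖ := norm_sum_le _ _
      _ ≤ ∑ a ∈ S, C a * ‖T‖ := Finset.sum_le_sum fun a ha => (hT' a ha).2
      _ = (∑ a ∈ S, C a) * ‖T‖ := by rw [Finset.sum_mul]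

open Classical in
theorem SB_match {ι J : Type} (f g : ι → J) : SB (fun s t => if f s = g t then 1 else 0) 1 := by
  refine schur_exists _ (fun s => dl (f s)) (fun t => dl (g t)) (fun s => (norm_dl _).le)
    (fun t => (norm_dl _).le) ?_
  intro s t
  rw [tsum_eq_single (f s)]
  · rw [dl_apply, dl_apply]
    simp
  · intro j hj
    rw [dl_apply, if_neg hj, zero_mul]

open Classical in
theorem SBcount_vec_apply {J : Type} (A : Finset J) (c : ℂ) (v : J) :
    (c • ∑ a ∈ A, dl a : L2 J) v = c * (if v ∈ A then 1 else 0) := by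
  rw [lp.coeFn_smul, Pi.smul_apply, smul_eq_mul, lp.coeFn_sum, Finset.sum_apply]
  congr 1
  simp only [dl_apply]
  rw [Finset.sum_ite_eq]

open Classical in
theorem SBcount_vec_norm {J : Type} (A : Finset J) (c : ℂ) :
    ‖(c • ∑ a ∈ A, dl a : L2 J)‖ ^ 2 = A.card * ‖c‖ ^ 2 := by
  rw [norm_sq_eq, tsum_eq_sum (s := A)]
  · rw [Finset.sum_congr rfl (g := fun _ => ‖c‖ ^ 2), Finset.sum_const, nsmul_eq_mul]
    intro v hv
    rw [SBcount_vec_apply, if_pos hv, mul_one]
  · intro v hv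
    rw [SBcount_vec_apply, if_neg hv]
    simp

open Classical in
/-- counting kernel -/
theorem SB_count {ι J : Type} (N : ℕ) (hN : 0 < N) (f g : ι → ℕ → J) (good : ι → ℕ → Prop)
    (hf : ∀ s j j', j < N → j' < N → f s j = f s j' → j = j')
    (hg : ∀ t k k', k < N → k' < N → good t k → good t k' → g t k = g t k' → k = k') :
    SB (fun s t => ((((Finset.range N).filter
      (fun j => ∃ k, k < N ∧ good t k ∧ f s j = g t k)).card : ℂ) / N)) 1 := by
  have hNr : (0 : ℝ) < N := by exact_mod_cast hN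
  obtain ⟨c, hc⟩ : ∃ c : ℂ, c = (((Real.sqrt N)⁻¹ : ℝ) : ℂ) := ⟨_, rfl⟩
  have hcn : ‖c‖ ^ 2 = (N : ℝ)⁻¹ := by
    rw [hc, Complex.norm_real, Real.norm_eq_abs, sq_abs, inv_pow, Real.sq_sqrt hNr.le]
  have hcc : c * c = (N : ℂ)⁻¹ := by
    rw [hc, ← Complex.ofReal_mul, ← mul_inv, Real.mul_self_sqrt hNr.le]
    push_cast
    rfl
  have hle : ∀ A : Finset J, A.card ≤ N → ‖(c • ∑ a ∈ A, dl a : L2 J)‖ ≤ 1 := by
    intro A hA
    have h1 : ‖(c • ∑ a ∈ A, dl a : L2 J)‖ ^ 2 ≤ 1 := by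
      rw [SBcount_vec_norm, hcn, ← div_eq_mul_inv, div_le_one hNr]
      exact_mod_cast hA
    have h2 := norm_nonneg (c • ∑ a ∈ A, dl a : L2 J)
    nlinarith
  refine schur_exists _ (fun s => c • ∑ a ∈ (Finset.range N).image (f s), dl a)
    (fun t => c • ∑ a ∈ ((Finset.range N).filter (good t)).image (g t), dl a) ?_ ?_ ?_
  · intro s
    apply hle
    exact Finset.card_image_le.trans (by simp)
  · intro t
    apply hle
    refine Finset.card_image_le.trans ((Finset.card_filter_le _ _).trans (by simp))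
  · intro s t
    simp only [SBcount_vec_apply]
    rw [tsum_eq_sum (s := (Finset.range N).image (f s) ∩ ((Finset.range N).filter (good t)).image (g t))]
    · rw [Finset.sum_congr rfl (g := fun _ => (N : ℂ)⁻¹), Finset.sum_const, nsmul_eq_mul,
        ← div_eq_mul_inv]
      · congr 2
        rw [← Finset.card_image_of_injOn (s := (Finset.range N).filter
          (fun j => ∃ k, k < N ∧ good t k ∧ f s j = g t k)) (f := f s)]
        · congr 1
          ext v
          simp only [Finset.mem_image, Finset.mem_filter, Finset.mem_range, Finset.mem_inter]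
          constructor
          · rintro ⟨j, ⟨hj, k, hk, hgk, hjk⟩, rfl⟩
            exact ⟨⟨j, hj, rfl⟩, ⟨k, ⟨hk, hgk⟩, hjk.symm⟩⟩
          · rintro ⟨⟨j, hj, rfl⟩, ⟨k, ⟨hk, hgk⟩, hjk⟩⟩
            exact ⟨j, ⟨hj, k, hk, hgk, hjk.symm⟩, rfl⟩
        · intro j hj j' hj' hjj
          simp only [Finset.coe_filter, Finset.mem_range, Set.mem_setOf_eq] at hj hj'
          exact hf s j j' hj.1 hj'.1 hjj
      · intro v hv
        rw [Finset.mem_inter] at hv
        rw [if_pos hv.1, if_pos hv.2, mul_one, hcc]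
    · intro v hv
      rw [Finset.mem_inter, not_and_or] at hv
      rcases hv with hv | hv
      · rw [if_neg hv]; simp
      · rw [if_neg hv]; simp

end

end Pool.Agent.Helper741.Her
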