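import Mathlib

/-!
# Hereditary Banach algebras and the minimal tensor square: definitions
-/

open Filter Topology

namespace Pool.Agent.Helper741.Her

noncomputable section

/-- The Hilbert space `ℓ²(ι)`. -/
abbrev L2 (ι : Type) : Type := lp (fun _ : ι => ℂ) 2

/-- The C*-algebra `B(ℓ²(ι))`. -/
abbrev Op (ι : Type) : Type := L2 ι →L[ℂ] L2 ι

/-- A left Banach module structure on `X` over the Banach algebra `R`. -/
structure LeftModule (R X : Type*) [NonUnitalNormedRing R] [NormedSpace ℂ R]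
    [NormedAddCommGroup X] [NormedSpace ℂ X] where
  act : R →L[ℂ] X →L[ℂ] X
  mul_act : ∀ (a b : R) (x : X), act (a * b) x = act a (act b x)

/-- Projectivity of the left Banach module `P`: morphisms from `P` lift along every morphism of left
Banach modules that has a bounded linear right inverse. -/
def IsProjective.{u} {R : Type} {P : Type} [NonUnitalNormedRing R] [NormedSpace ℂ R]
    [NormedAddCommGroup P] [NormedSpace ℂ P] (m : LeftModule R P) : Prop :=
  ∀ (X Y : Type u) [NormedAddCommGroup X] [NormedSpace ℂ X] [CompleteSpace X]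
    [NormedAddCommGroup Y] [NormedSpace ℂ Y] [CompleteSpace Y]
    (mX : LeftModule R X) (mY : LeftModule R Y)
    (σ : X →L[ℂ] Y) (_ : ∀ a x, σ (mX.act a x) = mY.act a (σ x))
    (r : Y →L[ℂ] X) (_ : ∀ y, σ (r y) = y)
    (φ : P →L[ℂ] Y) (_ : ∀ a p, φ (m.act a p) = mY.act a (φ p)),
    ∃ ψ : P →L[ℂ] X, (∀ a p, ψ (m.act a p) = mX.act a (ψ p)) ∧ ∀ p, σ (ψ p) = φ p

/-- The left ideal `L` as a left module: the action is multiplication. -/
def idealModule {R : Type} [NonUnitalNormedRing R] [NormedSpace ℂ R] [IsScalarTower ℂ R R]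
    [SMulCommClass ℂ R R] (L : Submodule ℂ R) (hL : ∀ a x : R, x ∈ L → a * x ∈ L) :
    LeftModule R L where
  act := LinearMap.mkContinuous₂
    (LinearMap.mk₂ ℂ (fun (a : R) (x : L) => (⟨a * (x : R), hL a x x.2⟩ : L))
      (fun a b x => Subtype.ext (add_mul a b (x : R)))
      (fun c a x => Subtype.ext (smul_mul_assoc c a (x : R)))
      (fun a x y => Subtype.ext (mul_add a (x : R) (y : R)))
      (fun c a x => Subtype.ext (mul_smul_comm c a (x : R)))) 1
    (fun a x => by
      rw [one_mul]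
      exact norm_mul_le a (x : R))
  mul_act := fun a b x => Subtype.ext (mul_assoc a b (x : R))

/-- The Banach algebra `R` is left hereditary: every closed left ideal is projective. -/
def IsHereditary.{u} (R : Type) [NonUnitalNormedRing R] [NormedSpace ℂ R] [IsScalarTower ℂ R R]
    [SMulCommClass ℂ R R] : Prop :=
  ∀ (L : Submodule ℂ R) (_ : IsClosed (L : Set R)) (hL : ∀ a x : R, x ∈ L → a * x ∈ L),
    IsProjective.{u} (idealModule L hL)

/-- `T = a ⊗ b` on `ℓ²(ι × ι) = ℓ²(ι) ⊗ ℓ²(ι)`. -/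
def IsTensor {ι : Type} (a b : Op ι) (T : Op (ι × ι)) : Prop :=
  ∀ (f g : L2 ι) (F : L2 (ι × ι)), (∀ i k, F (i, k) = f i * g k) →
    ∀ i k, (T F) (i, k) = (a f) i * (b g) k

/-- The minimal tensor product `A ⊗_min A` for `A ⊆ B(ℓ²(ι))`. -/
def minSq {ι : Type} (A : NonUnitalStarSubalgebra ℂ (Op ι)) :
    NonUnitalStarSubalgebra ℂ (Op (ι × ι)) :=
  (NonUnitalStarAlgebra.adjoin ℂ
    {T : Op (ι × ι) | ∃ a ∈ A, ∃ b ∈ A, IsTensor a b T}).topologicalClosure

end

end Pool.Agent.Helper741.Her
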