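import Pool.Agent.Helper741.Her.Words

open Filter Topology

namespace Pool.Agent.Helper741.Her

noncomputable section

variable {G : Type} [Group G]

-- THE EXAMPLE

/-- the alphabet of finite binary words -/
abbrev Sg : Type := List Bool

abbrev Xg : Type := ℕ → Bool

def fX (n : ℕ) (a : Xg) : Sg := (List.range n).map a

/-- words of the example -/
def W0 : Set ((ℕ → ℂ) × (ℕ → FreeGroup Sg)) :=
  {p | ∃ w : FreeGroup Xg, p = (fun _ => 1, fun n => FreeGroup.map (fX n) w)} ∪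
  {p | ∃ (n : ℕ) (g : FreeGroup Sg), p = (Pi.single n 1, fun _ => g)}

theorem wd_mul_eq {c c' c'' : ℕ → ℂ} {γ γ' γ'' : ℕ → G} (hc : ∀ n, c n = 0 ∨ c n = 1)
    (hc' : ∀ n, c' n = 0 ∨ c' n = 1) (hc'' : ∀ n, c'' n = 0 ∨ c'' n = 1)
    (h : ∀ n, c n * c' n = c'' n) (hγ : ∀ n, c'' n ≠ 0 → γ'' n = γ n * γ' n) :
    wd c γ * wd c' γ' = wd c'' γ'' := by
  refine ContinuousLinearMap.ext fun F => lp.ext (funext fun x => ?_)
  obtain ⟨n, s⟩ := x
  have e : (wd c γ * wd c' γ') F = wd c γ (wd c' γ' F) := rfl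
  rw [e, wd_apply c hc, wd_apply c' hc', wd_apply c'' hc'', ← mul_assoc, h]
  rcases eq_or_ne (c'' n) 0 with h0 | h0
  · rw [h0, zero_mul, zero_mul]
  · rw [hγ n h0, mul_assoc s]

theorem wd_star_eq {c : ℕ → ℂ} {γ γ'' : ℕ → G} (hc : ∀ n, c n = 0 ∨ c n = 1)
    (hγ : ∀ n, c n ≠ 0 → γ'' n = (γ n)⁻¹) : star (wd c γ) = wd c γ'' := by
  classical
  refine ent_ext fun x y => ?_
  obtain ⟨n, s⟩ := x
  obtain ⟨m, t⟩ := y
  rw [ent_star]
  unfold ent
  rw [wd_apply c hc, wd_apply c hc, dl_apply, dl_apply]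
  rcases eq_or_ne n m with rfl | hnm
  · rcases hc n with h0 | h0
    · rw [h0, zero_mul, zero_mul, star_zero]
    · rw [h0, one_mul, one_mul, hγ n (by rw [h0]; exact one_ne_zero)]
      by_cases h : t * γ n = s
      · rw [if_pos (by rw [h]), if_pos (by rw [← h, mul_inv_cancel_right]), star_one]
      · rw [if_neg (fun h' => h (Prod.ext_iff.1 h').2), if_neg, star_zero]
        intro h'
        apply h
        have h2 : s * (γ n)⁻¹ = t := (Prod.ext_iff.1 h').2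
        rw [← h2, inv_mul_cancel_right]
  · rw [if_neg (fun h' => hnm (Prod.ext_iff.1 h').1.symm), if_neg (fun h' => hnm (Prod.ext_iff.1 h').1),
      mul_zero, mul_zero, star_zero]

theorem single01 (n m : ℕ) : (Pi.single n 1 : ℕ → ℂ) m = 0 ∨ (Pi.single n 1 : ℕ → ℂ) m = 1 := by
  rcases eq_or_ne m n with rfl | h
  · right; exact Pi.single_eq_same _ _
  · left; exact Pi.single_eq_of_ne h _

theorem single_ne {n m : ℕ} (h : (Pi.single n 1 : ℕ → ℂ) m ≠ 0) : m = n := by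
  by_contra hne
  exact h (Pi.single_eq_of_ne hne _)

theorem W0_wordSet : WordSet W0 := by
  refine ⟨?_, ?_, ?_⟩
  · rintro p (⟨w, rfl⟩ | ⟨n, g, rfl⟩) m
    · exact Or.inr rfl
    · exact single01 n m
  · rintro p (⟨w, rfl⟩ | ⟨n, g, rfl⟩) q (⟨w', rfl⟩ | ⟨m, g', rfl⟩)
    · right
      refine ⟨_, Or.inl ⟨w * w', rfl⟩, ?_⟩
      refine wd_mul_eq (fun _ => Or.inr rfl) (fun _ => Or.inr rfl) (fun _ => Or.inr rfl)
        (fun _ => one_mul _) (fun k _ => ?_)
      exact map_mul (FreeGroup.map (fX k)) w w'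
    · right
      refine ⟨_, Or.inr ⟨m, FreeGroup.map (fX m) w * g', rfl⟩, ?_⟩
      refine wd_mul_eq (fun _ => Or.inr rfl) (single01 m) (single01 m)
        (fun _ => one_mul _) (fun k hk => ?_)
      rw [single_ne hk]
    · right
      refine ⟨_, Or.inr ⟨n, g * FreeGroup.map (fX n) w', rfl⟩, ?_⟩
      refine wd_mul_eq (single01 n) (fun _ => Or.inr rfl) (single01 n)
        (fun _ => mul_one _) (fun k hk => ?_)
      rw [single_ne hk]
    · rcases eq_or_ne n m with rfl | hnm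
      · right
        refine ⟨_, Or.inr ⟨n, g * g', rfl⟩, ?_⟩
        refine wd_mul_eq (single01 n) (single01 n) (single01 n) (fun k => ?_) (fun k hk => rfl)
        show (Pi.single n 1 : ℕ → ℂ) k * (Pi.single n 1 : ℕ → ℂ) k = (Pi.single n 1 : ℕ → ℂ) k
        rcases single01 n k with h | h
        · rw [h, mul_zero]
        · rw [h, mul_one]
      · left
        have h1 : wd (Pi.single n 1 : ℕ → ℂ) (fun _ => g) * wd (Pi.single m 1 : ℕ → ℂ) (fun _ => g') =
            wd (fun _ => 0) (fun _ => g) := by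
          refine wd_mul_eq (single01 n) (single01 m) (fun _ => Or.inl rfl) (fun k => ?_)
            (fun k hk => absurd rfl hk)
          rcases eq_or_ne k n with rfl | h
          · rw [Pi.single_eq_of_ne hnm, mul_zero]
          · rw [Pi.single_eq_of_ne h, zero_mul]
        refine h1.trans ?_
        refine ContinuousLinearMap.ext fun F => lp.ext (funext fun x => ?_)
        obtain ⟨k, s⟩ := x
        rw [wd_apply _ (fun _ => Or.inl rfl), zero_mul, zero_apply, lp.coeFn_zero]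
        rfl
  · rintro p (⟨w, rfl⟩ | ⟨n, g, rfl⟩)
    · refine ⟨_, Or.inl ⟨w⁻¹, rfl⟩, ?_⟩
      exact wd_star_eq (fun _ => Or.inr rfl) (fun k _ => map_inv (FreeGroup.map (fX k)) w)
    · refine ⟨_, Or.inr ⟨n, g⁻¹, rfl⟩, ?_⟩
      exact wd_star_eq (single01 n) (fun k _ => rfl)

theorem W0_FS_top : FS W0 Xg fX (fun _ => 1) atTop := by
  refine ⟨?_, Eventually.of_forall fun _ => rfl, fun w => Or.inl ⟨w, rfl⟩, ?_⟩
  · intro T
    have h1 : ∀ᶠ k in (atTop : Filter ℕ), ∀ a ∈ T, ∀ b ∈ T, fX k a = fX k b → a = b := by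
      rw [Filter.eventually_all_finset]
      intro a _
      rw [Filter.eventually_all_finset]
      intro b _
      by_cases hab : a = b
      · exact Eventually.of_forall fun k _ => hab
      · obtain ⟨j, hj⟩ := Function.ne_iff.1 hab
        filter_upwards [eventually_gt_atTop j] with k hk h
        exfalso
        unfold fX at h
        rw [List.map_inj_left] at h
        exact hj (h j (List.mem_range.2 hk))
    filter_upwards [h1] with k hk a ha b hb hab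
    exact hk a ha b hb hab
  · rintro p (⟨w, rfl⟩ | ⟨n, g, rfl⟩)
    · exact Or.inr ⟨w, Eventually.of_forall fun k => ⟨rfl, rfl⟩⟩
    · left
      filter_upwards [eventually_gt_atTop n] with k hk
      exact Pi.single_eq_of_ne (by omega) _

theorem W0_FS_pure (n : ℕ) : FS W0 Sg (fun _ => id) (Pi.single n 1) (pure n) := by
  refine ⟨?_, ?_, ?_, ?_⟩
  · intro T
    exact Eventually.of_forall fun k => Set.injOn_id _
  · rw [Filter.eventually_pure]
    exact Pi.single_eq_same _ _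
  · intro w
    refine Or.inr ⟨n, w, ?_⟩
    refine Prod.ext rfl (funext fun k => ?_)
    exact FreeGroup.map.id w
  · rintro p (⟨w, rfl⟩ | ⟨m, g, rfl⟩)
    · refine Or.inr ⟨FreeGroup.map (fX n) w, Filter.eventually_pure.2 ⟨rfl, ?_⟩⟩
      exact (FreeGroup.map.id _).symm
    · by_cases h : m = n
      · subst h
        refine Or.inr ⟨g, Filter.eventually_pure.2 ⟨Pi.single_eq_same _ _, ?_⟩⟩
        exact (FreeGroup.map.id _).symm
      · refine Or.inl (Filter.eventually_pure.2 ?_)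
        exact Pi.single_eq_of_ne (fun h' => h h'.symm) _

theorem W0_not_separable : ¬ TopologicalSpace.IsSeparable (AW W0 : Set (Op (ℕ × FreeGroup Sg))) := by
  classical
  rintro ⟨c, hc, hcl⟩
  let u : Xg → Op (ℕ × FreeGroup Sg) := fun a =>
    wd (fun _ => 1) (fun n => FreeGroup.map (fX n) (FreeGroup.of a))
  have hu : ∀ a, u a ∈ (AW W0 : Set (Op (ℕ × FreeGroup Sg))) := by
    intro a
    apply subset_closure
    apply NonUnitalStarAlgebra.subset_adjoin
    exact ⟨(fun _ => 1, fun n => FreeGroup.map (fX n) (FreeGroup.of a)), Or.inl ⟨_, rfl⟩, rfl⟩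
  have hent : ∀ (a b : Xg) (n : ℕ), ent (u b) (n, 1) (n, FreeGroup.of (fX n a)) =
      if fX n b = fX n a then 1 else 0 := by
    intro a b n
    unfold ent
    rw [wd_apply (fun _ => 1) (fun _ => Or.inr rfl), dl_apply]
    simp only [FreeGroup.map.of, one_mul, Prod.mk.injEq, true_and]
    by_cases h : fX n b = fX n a
    · simp [h]
    · rw [if_neg h, if_neg]
      intro h'
      exact h (FreeGroup.of_injective h')
  have hsep : ∀ a b, a ≠ b → 1 ≤ ‖u a - u b‖ := by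
    intro a b hab
    obtain ⟨j, hj⟩ := Function.ne_iff.mp hab
    have hne : fX (j + 1) b ≠ fX (j + 1) a := by
      intro h
      unfold fX at h
      have := List.map_inj_left.mp h j (by simp)
      exact hj this.symm
    have h1 := norm_ent_le (u a - u b) ((j + 1, 1) : ℕ × FreeGroup Sg)
      (j + 1, FreeGroup.of (fX (j + 1) a))
    rw [ent_sub, hent, hent, if_pos rfl, if_neg hne] at h1
    simpa using h1
  have hd : ∀ a, ∃ d ∈ c, dist (u a) d < 1 / 2 := by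
    intro a
    exact Metric.mem_closure_iff.mp (hcl (hu a)) (1 / 2) (by norm_num)
  choose d hdc hdd using hd
  have hinj : Function.Injective (fun a => (⟨d a, hdc a⟩ : c)) := by
    intro a b hab
    have hab' : d a = d b := congrArg Subtype.val hab
    by_contra hne
    have h1 := hsep a b hne
    have h2 : dist (u a) (u b) < 1 := by
      calc dist (u a) (u b) ≤ dist (u a) (d a) + dist (d a) (u b) := dist_triangle _ _ _
        _ < 1 / 2 + 1 / 2 := by
          apply add_lt_add (hdd a)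
          rw [hab', dist_comm]
          exact hdd b
        _ = 1 := by norm_num
    rw [dist_eq_norm] at h2
    linarith
  have hcard : Cardinal.mk Xg = 2 ^ Cardinal.aleph0 := by simp [Xg]
  have : Countable c := hc.to_subtype
  have hX : Countable Xg := hinj.countable
  have h := Cardinal.mk_le_aleph0_iff.mpr hX
  rw [hcard] at h
  exact absurd h (not_le.mpr (Cardinal.cantor _))

theorem her45_one (k : ℕ) : (fun _ : ℕ => (1 : ℂ)) k = 0 ∨ (fun _ : ℕ => (1 : ℂ)) k = 1 := Or.inr rfl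

theorem her45_single (n k : ℕ) : (Pi.single n 1 : ℕ → ℂ) k = 0 ∨ (Pi.single n 1 : ℕ → ℂ) k = 1 := by
  by_cases h : k = n
  · subst h; right; simp
  · left; rw [Pi.single_eq_of_ne h]

open Classical in
theorem her45_h1 (i : ℕ × ℕ) (n : ℕ) :
    (PB i : Op ((ℕ × FreeGroup Sg) × (ℕ × FreeGroup Sg))) *
      wd2 (Pi.single n 1) (fun _ => 1) (fun _ => 1) (fun _ => 1) = if i.1 = n then PB i else 0 := by
  apply ContinuousLinearMap.ext
  intro F
  apply lp.ext
  funext p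
  obtain ⟨⟨n', s⟩, ⟨m', t⟩⟩ := p
  rw [mul_apply_eq_comp, PB_apply,
    wd2_apply _ _ (her45_single n) her45_one]
  by_cases h : i.1 = n
  · rw [if_pos h, PB_apply]
    by_cases h2 : (n', m') = i
    · have h3 : n' = n := by rw [← h, ← h2]
      rw [if_pos h2, h3]
      simp
    · rw [if_neg h2, zero_mul, zero_mul]
  · rw [if_neg h]
    by_cases h2 : (n', m') = i
    · have h3 : n' ≠ n := by
        intro h4
        apply h
        rw [← h4, ← h2]
      rw [Pi.single_eq_of_ne h3]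
      simp
    · rw [if_neg h2, zero_mul]
      simp

open Classical in
theorem her45_h2 (i : ℕ × ℕ) (n : ℕ) :
    (PB i : Op ((ℕ × FreeGroup Sg) × (ℕ × FreeGroup Sg))) *
      wd2 (fun _ => 1) (Pi.single n 1) (fun _ => 1) (fun _ => 1) = if i.2 = n then PB i else 0 := by
  apply ContinuousLinearMap.ext
  intro F
  apply lp.ext
  funext p
  obtain ⟨⟨n', s⟩, ⟨m', t⟩⟩ := p
  rw [mul_apply_eq_comp, PB_apply,
    wd2_apply _ _ her45_one (her45_single n)]
  by_cases h : i.2 = n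
  · rw [if_pos h, PB_apply]
    by_cases h2 : (n', m') = i
    · have h3 : m' = n := by rw [← h, ← h2]
      rw [if_pos h2, h3]
      simp
    · rw [if_neg h2, zero_mul, zero_mul]
  · rw [if_neg h]
    by_cases h2 : (n', m') = i
    · have h3 : m' ≠ n := by
        intro h4
        apply h
        rw [← h4, ← h2]
      rw [Pi.single_eq_of_ne h3]
      simp
    · rw [if_neg h2, zero_mul]
      simp

theorem her45_memone : ((fun _ => 1, fun _ => 1) : (ℕ → ℂ) × (ℕ → FreeGroup Sg)) ∈ W0 := by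
  left
  refine ⟨1, ?_⟩
  simp only [map_one]

theorem her45_memsingle (n : ℕ) :
    ((Pi.single n 1, fun _ => 1) : (ℕ → ℂ) × (ℕ → FreeGroup Sg)) ∈ W0 := by
  right
  exact ⟨n, 1, rfl⟩

theorem her45_abs {𝔸 : Type} [NormedRing 𝔸] [NormedAlgebra ℂ 𝔸] (B : 𝔸 → Prop)
    (hB0 : B 0) (hBadd : ∀ a b, B a → B b → B (a + b)) (hBsmul : ∀ (c : ℂ) a, B a → B (c • a))
    (hBmul : ∀ a b, B a → B b → B (a * b)) (P : ℕ × ℕ → 𝔸) (m₁ m₂ : ℕ → 𝔸)
    (h₁ : ∀ i n, (i.1 = n → P i * m₁ n = P i) ∧ (i.1 ≠ n → P i * m₁ n = 0))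
    (h₂ : ∀ i n, (i.2 = n → P i * m₂ n = P i) ∧ (i.2 ≠ n → P i * m₂ n = 0))
    (hm₁ : ∀ n, B (m₁ n)) (hm₂ : ∀ n, B (m₂ n)) (L : Submodule ℂ 𝔸) (hLB : ∀ z ∈ L, B z)
    (hblock : ∀ w, B w → ∀ C, (∀ i, ‖P i * w‖ ≤ C) → ‖w‖ ≤ C)
    (g0 : ∃ Q : Set 𝔸, Q.Countable ∧ Q ⊆ L ∧ ∀ z ∈ L, ∀ ε > 0,
      ∃ y ∈ Submodule.span ℂ {x | ∃ b, B b ∧ ∃ q ∈ Q, x = b * q},
        ∀ᶠ i in (atTop : Filter ℕ) ×ˢ (atTop : Filter ℕ), ‖P i * (z - y)‖ < ε)
    (gr : ∀ n, ∃ Q : Set 𝔸, Q.Countable ∧ Q ⊆ L ∧ ∀ z ∈ L, ∀ ε > 0,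
      ∃ y ∈ Submodule.span ℂ {x | ∃ b, B b ∧ ∃ q ∈ Q, x = b * q},
        ∀ᶠ i in (pure n : Filter ℕ) ×ˢ (atTop : Filter ℕ), ‖P i * (z - y)‖ < ε)
    (gc : ∀ n, ∃ Q : Set 𝔸, Q.Countable ∧ Q ⊆ L ∧ ∀ z ∈ L, ∀ ε > 0,
      ∃ y ∈ Submodule.span ℂ {x | ∃ b, B b ∧ ∃ q ∈ Q, x = b * q},
        ∀ᶠ i in (atTop : Filter ℕ) ×ˢ (pure n : Filter ℕ), ‖P i * (z - y)‖ < ε)
    (gp : ∀ n m, ∃ Q : Set 𝔸, Q.Countable ∧ Q ⊆ L ∧ ∀ z ∈ L, ∀ ε > 0,
      ∃ y ∈ Submodule.span ℂ {x | ∃ b, B b ∧ ∃ q ∈ Q, x = b * q},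
        ∀ᶠ i in (pure n : Filter ℕ) ×ˢ (pure m : Filter ℕ), ‖P i * (z - y)‖ < ε) :
    ∃ Q : Set 𝔸, Q.Countable ∧ Q ⊆ L ∧
      ∀ z ∈ L, z ∈ closure (Submodule.span ℂ {x | ∃ b, B b ∧ ∃ q ∈ Q, x = b * q} : Set 𝔸) := by
  obtain ⟨Q0, c0, s0, g0⟩ := g0
  choose Qr cr sr gr using gr
  choose Qc cc sc gc using gc
  choose Qp cp sp gp using gp
  obtain ⟨Q, hQ⟩ : ∃ Q, Q = Q0 ∪ (⋃ n, Qr n) ∪ (⋃ n, Qc n) ∪ (⋃ n, ⋃ m, Qp n m) := ⟨_, rfl⟩
  have hQ0 : Q0 ⊆ Q := by
    rw [hQ]; intro x hx; exact Or.inl (Or.inl (Or.inl hx))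
  have hQr : ∀ n, Qr n ⊆ Q := by
    intro n x hx; rw [hQ]; exact Or.inl (Or.inl (Or.inr (Set.mem_iUnion.2 ⟨n, hx⟩)))
  have hQc : ∀ n, Qc n ⊆ Q := by
    intro n x hx; rw [hQ]; exact Or.inl (Or.inr (Set.mem_iUnion.2 ⟨n, hx⟩))
  have hQp : ∀ n m, Qp n m ⊆ Q := by
    intro n m x hx; rw [hQ]; exact Or.inr (Set.mem_iUnion₂.2 ⟨n, m, hx⟩)
  have hQcount : Q.Countable := by
    rw [hQ]
    exact ((c0.union (Set.countable_iUnion cr)).union (Set.countable_iUnion cc)).union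
      (Set.countable_iUnion fun n => Set.countable_iUnion (cp n))
  have hQL : Q ⊆ L := by
    rw [hQ]
    rintro x (((hx | hx) | hx) | hx)
    · exact s0 hx
    · obtain ⟨n, hn⟩ := Set.mem_iUnion.1 hx
      exact sr n hn
    · obtain ⟨n, hn⟩ := Set.mem_iUnion.1 hx
      exact sc n hn
    · obtain ⟨n, m, hn⟩ := Set.mem_iUnion₂.1 hx
      exact sp n m hn
  refine ⟨Q, hQcount, hQL, ?_⟩
  intro z hz
  have hmono : ∀ Q' : Set 𝔸, Q' ⊆ Q →
      Submodule.span ℂ {x | ∃ b, B b ∧ ∃ q ∈ Q', x = b * q} ≤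
      Submodule.span ℂ {x | ∃ b, B b ∧ ∃ q ∈ Q, x = b * q} := by
    intro Q' h
    apply Submodule.span_mono
    rintro x ⟨b, hb, q, hq, rfl⟩
    exact ⟨b, hb, q, h hq, rfl⟩
  obtain ⟨S, hS⟩ : ∃ S : Submodule ℂ 𝔸, S = Submodule.span ℂ {x | ∃ b, B b ∧ ∃ q ∈ Q, x = b * q} :=
    ⟨_, rfl⟩
  rw [← hS] at hmono ⊢
  have hSm : ∀ m, B m → ∀ y ∈ S, m * y ∈ S := by
    intro m hm y hy
    rw [hS] at hy ⊢
    induction hy using Submodule.span_induction with
    | mem x hx =>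
      obtain ⟨b, hb, q, hq, rfl⟩ := hx
      apply Submodule.subset_span
      exact ⟨m * b, hBmul _ _ hm hb, q, hq, by rw [mul_assoc]⟩
    | zero => rw [mul_zero]; exact Submodule.zero_mem _
    | add x y _ _ hx hy => rw [mul_add]; exact Submodule.add_mem _ hx hy
    | smul a x _ hx => rw [mul_smul_comm]; exact Submodule.smul_mem _ _ hx
  have hSB : ∀ y ∈ S, B y := by
    intro y hy
    rw [hS] at hy
    induction hy using Submodule.span_induction with
    | mem x hx =>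
      obtain ⟨b, hb, q, hq, rfl⟩ := hx
      exact hBmul _ _ hb (hLB q (hQL hq))
    | zero => exact hB0
    | add x y _ _ hx hy => exact hBadd _ _ hx hy
    | smul a x _ hx => exact hBsmul a _ hx
  rw [Metric.mem_closure_iff]
  intro ε hε
  obtain ⟨y, hy, hy2⟩ := cover P m₁ m₂
    (fun i n => by
      split_ifs with h
      · exact (h₁ i n).1 h
      · exact (h₁ i n).2 h)
    (fun i n => by
      split_ifs with h
      · exact (h₂ i n).1 h
      · exact (h₂ i n).2 h)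
    S
    (fun n => hSm _ (hm₁ n))
    (fun n => hSm _ (hm₂ n))
    z (ε / 2)
    (by
      obtain ⟨y, hy, hy2⟩ := g0 z hz (ε / 2) (by positivity)
      exact ⟨y, hmono _ hQ0 hy, hy2⟩)
    (fun n => by
      obtain ⟨y, hy, hy2⟩ := gr n z hz (ε / 2) (by positivity)
      exact ⟨y, hmono _ (hQr n) hy, hy2⟩)
    (fun n => by
      obtain ⟨y, hy, hy2⟩ := gc n z hz (ε / 2) (by positivity)
      exact ⟨y, hmono _ (hQc n) hy, hy2⟩)
    (fun n m => by
      obtain ⟨y, hy, hy2⟩ := gp n m z hz (ε / 2) (by positivity)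
      exact ⟨y, hmono _ (hQp n m) hy, hy2⟩)
  refine ⟨y, hy, ?_⟩
  rw [dist_eq_norm]
  have hB : B (z - y) := by
    have h3 : z - y = z + (-1 : ℂ) • y := by rw [neg_one_smul, sub_eq_add_neg]
    rw [h3]
    exact hBadd _ _ (hLB z hz) (hBsmul _ _ (hSB y hy))
  have h1 := hblock (z - y) hB (ε / 2) (fun i => (hy2 i).le)
  linarith

theorem her45_m1 (n : ℕ) : (wd2 (Pi.single n 1) (fun _ => 1) (fun _ => 1) (fun _ => 1) :
    Op ((ℕ × FreeGroup Sg) × (ℕ × FreeGroup Sg))) ∈ minSq (AW W0) :=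
  wd2_mem W0 W0_wordSet (Pi.single n 1, fun _ => 1) (fun _ => 1, fun _ => 1)
    (her45_memsingle n) her45_memone

theorem her45_m2 (n : ℕ) : (wd2 (fun _ => 1) (Pi.single n 1) (fun _ => 1) (fun _ => 1) :
    Op ((ℕ × FreeGroup Sg) × (ℕ × FreeGroup Sg))) ∈ minSq (AW W0) :=
  wd2_mem W0 W0_wordSet (fun _ => 1, fun _ => 1) (Pi.single n 1, fun _ => 1)
    her45_memone (her45_memsingle n)

theorem W0_countably_generated (L : Submodule ℂ (Op ((ℕ × FreeGroup Sg) × (ℕ × FreeGroup Sg))))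
    (hLB : ∀ z ∈ L, z ∈ minSq (AW W0)) (hBL : ∀ b ∈ minSq (AW W0), ∀ z ∈ L, b * z ∈ L) :
    ∃ Q : Set (Op ((ℕ × FreeGroup Sg) × (ℕ × FreeGroup Sg))), Q.Countable ∧ Q ⊆ L ∧
      ∀ z ∈ L, z ∈ closure (Submodule.span ℂ {x | ∃ b ∈ minSq (AW W0), ∃ q ∈ Q, x = b * q} :
        Set (Op ((ℕ × FreeGroup Sg) × (ℕ × FreeGroup Sg)))) := by
  have g0 := scheme_main W0 W0_wordSet fX fX (fun _ => 1) (fun _ => 1) atTop atTop
    W0_FS_top W0_FS_top L hLB hBL
  have hr := fun n => scheme_main W0 W0_wordSet (fun _ => id) fX (Pi.single n 1) (fun _ => 1)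
    (pure n) atTop (W0_FS_pure n) W0_FS_top L hLB hBL
  have hc := fun n => scheme_main W0 W0_wordSet fX (fun _ => id) (fun _ => 1) (Pi.single n 1)
    atTop (pure n) W0_FS_top (W0_FS_pure n) L hLB hBL
  have hp := fun n m => scheme_main W0 W0_wordSet (fun _ => id) (fun _ => id) (Pi.single n 1)
    (Pi.single m 1) (pure n) (pure m) (W0_FS_pure n) (W0_FS_pure m) L hLB hBL
  exact her45_abs (fun x => x ∈ minSq (AW W0)) (zero_mem _) (fun a b ha hb => add_mem ha hb)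
    (fun c a ha => SMulMemClass.smul_mem c ha) (fun a b ha hb => mul_mem ha hb) PB
    (fun n => wd2 (Pi.single n 1) (fun _ => 1) (fun _ => 1) (fun _ => 1))
    (fun n => wd2 (fun _ => 1) (Pi.single n 1) (fun _ => 1) (fun _ => 1))
    (fun i n => ⟨fun h => (her45_h1 i n).trans (if_pos h), fun h => (her45_h1 i n).trans (if_neg h)⟩)
    (fun i n => ⟨fun h => (her45_h2 i n).trans (if_pos h), fun h => (her45_h2 i n).trans (if_neg h)⟩)
    her45_m1 her45_m2
    L hLB (fun w hw C h => norm_of_blocks w (fun i => PB_comm W0 W0_wordSet w hw i) C h)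
    g0 hr hc hp

theorem hered_of.{u} {𝔸 : Type} [CStarAlgebra 𝔸] (R : NonUnitalStarSubalgebra ℂ 𝔸)
    (hRc : IsClosed (R : Set 𝔸))
    (hcg : ∀ L : Submodule ℂ 𝔸, (∀ z ∈ L, z ∈ R) → (∀ b ∈ R, ∀ z ∈ L, b * z ∈ L) →
      ∃ Q : Set 𝔸, Q.Countable ∧ Q ⊆ L ∧
      ∀ z ∈ L, z ∈ closure (Submodule.span ℂ {x | ∃ b ∈ R, ∃ q ∈ Q, x = b * q} : Set 𝔸)) :
    IsHereditary.{u} R := by
  intro L hLc hL
  let j : R →ₗ[ℂ] 𝔸 :=
    { toFun := fun y => (y : 𝔸)
      map_add' := fun _ _ => rfl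
      map_smul' := fun _ _ => rfl }
  have hj : ∀ y : R, j y = (y : 𝔸) := fun _ => rfl
  have hmem : ∀ z, z ∈ L.map j ↔ ∃ y ∈ L, (y : 𝔸) = z := fun z => Submodule.mem_map
  have hclosed : IsClosed ((L.map j : Submodule ℂ 𝔸) : Set 𝔸) := by
    have h1 : ((L.map j : Submodule ℂ 𝔸) : Set 𝔸) = Subtype.val '' (L : Set R) := by
      ext z
      exact hmem z
    rw [h1]
    exact (IsClosed.isClosedEmbedding_subtypeVal hRc).isClosedMap _ hLc
  have hLR : ∀ z ∈ L.map j, z ∈ R := by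
    intro z hz
    obtain ⟨y, _, rfl⟩ := (hmem z).1 hz
    exact y.2
  have hLI : ∀ b ∈ R, ∀ z ∈ L.map j, b * z ∈ L.map j := by
    intro b hb z hz
    obtain ⟨y, hy, rfl⟩ := (hmem z).1 hz
    exact (hmem _).2 ⟨⟨b, hb⟩ * y, hL ⟨b, hb⟩ y hy, rfl⟩
  obtain ⟨Q, hQ1, hQ2, hQ3⟩ := hcg (L.map j) hLR hLI
  obtain ⟨D, hD, hD2, hD0, hDx⟩ := seq_of_countable R (L.map j) hclosed hLR hLI Q hQ1 hQ2 hQ3
  choose D' hD' hDD using fun n => (hmem (D n)).1 (hD n)
  refine proj_of_seq L hL D' hD' ?_ ?_ ?_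
  · intro N ε hε
    have h1 := hD2 N ε hε
    have h2 : j (∑ n ∈ N, ((ε n : ℝ) : ℂ) • D' n) = ∑ n ∈ N, ((ε n : ℝ) : ℂ) • D n := by
      rw [map_sum]
      refine Finset.sum_congr rfl fun n _ => ?_
      rw [map_smul, hj, hDD]
    rw [← h2] at h1
    exact h1
  · intro n m hnm
    apply Subtype.ext
    have h1 := hD0 n m hnm
    rw [← hDD, ← hDD] at h1
    exact h1
  · intro x hx
    rw [tendsto_subtype_rng]
    have h1 := hDx (x : 𝔸) ((hmem _).2 ⟨x, hx, rfl⟩)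
    refine h1.congr fun m => ?_
    have h2 : j (∑ n ∈ Finset.range m, x * (D' n * D' n)) =
        ∑ n ∈ Finset.range m, (x : 𝔸) * (D n * D n) := by
      rw [map_sum]
      refine Finset.sum_congr rfl fun n _ => ?_
      rw [← hDD]
      rfl
    exact h2.symm

theorem hereditary_W0.{u} : IsHereditary.{u} (minSq (AW W0)) :=
  hered_of (minSq (AW W0)) (NonUnitalStarSubalgebra.isClosed_topologicalClosure _)
    (fun L h1 h2 => W0_countably_generated L h1 h2)

theorem separable_L2 (ι : Type) [Countable ι] : TopologicalSpace.SeparableSpace (L2 ι) := by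
  classical
  have hne : Fact ((1 : ENNReal) ≤ 2) := ⟨one_le_two⟩
  have h1 : TopologicalSpace.IsSeparable (Set.range (fun i : ι => (dl i : L2 ι))) :=
    (Set.countable_range _).isSeparable
  have h2 : TopologicalSpace.IsSeparable
      (closure ((Submodule.span ℂ (Set.range (fun i : ι => (dl i : L2 ι))) : Submodule ℂ (L2 ι)) :
        Set (L2 ι))) := (h1.span (R := ℂ)).closure
  have h3 : closure ((Submodule.span ℂ (Set.range (fun i : ι => (dl i : L2 ι))) :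
      Submodule ℂ (L2 ι)) : Set (L2 ι)) = Set.univ := by
    rw [Set.eq_univ_iff_forall]
    intro F
    have hs := lp.hasSum_single (E := fun _ : ι => ℂ) (p := 2) (by norm_num) F
    refine mem_closure_of_tendsto hs ?_
    filter_upwards with s
    refine Submodule.sum_mem _ fun i _ => ?_
    have e1 : (lp.single 2 i (F i) : L2 ι) = (F i) • (dl i : L2 ι) := by
      unfold dl
      rw [← lp.single_smul]
      simp
    rw [e1]
    exact Submodule.smul_mem _ _ (Submodule.subset_span ⟨i, rfl⟩)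
  rw [h3] at h2
  exact TopologicalSpace.isSeparable_univ_iff.1 h2

end

end Pool.Agent.Helper741.Her
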