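import Pool.Agent.Helper741.Her.Basic

open Filter Topology

namespace Pool.Agent.Helper741.Her

noncomputable section

-- RELATIVE WEAK AMENABILITY

def RWA (Γ : Type) [Group Γ] (Λ : Subgroup Γ) (C : ℝ) : Prop :=
  ∀ (S : Finset Γ) (ε : ℝ), 0 < ε → ∃ κ : Γ → Γ → ℂ,
    (∀ (ι : Type) (p : ι → Γ), SB (fun s t => κ (p s) (p t)) C) ∧
    (∀ s t r, r ∈ Λ → κ s (t * r) = κ s t) ∧
    (∃ K : Finset Γ, ∀ s t, κ s t ≠ 0 → ∃ a ∈ K, a⁻¹ * (s⁻¹ * t) ∈ Λ) ∧
    (∀ g ∈ S, ∀ s, ‖κ s (s * g) - 1‖ ≤ ε)

def FR {Y : Type} (R : Set Y) : Subgroup (FreeGroup Y) := Subgroup.closure (FreeGroup.of '' R)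

-- TREE

open Classical in
/-- parent of a reduced word: drop the last letter -/
def par {Y : Type} (s : FreeGroup Y) : FreeGroup Y := FreeGroup.mk s.toWord.dropLast

open Classical in
/-- one step up: drop the last letter if it lies in `X`, otherwise climb the ray over the point -/
def up {Y : Type} (X : Finset Y) (v : FreeGroup Y × ℕ) : FreeGroup Y × ℕ :=
  if v.2 = 0 ∧ ∃ l ∈ v.1.toWord.getLast?, l.1 ∈ X then (par v.1, 0) else (v.1, v.2 + 1)

def anc {Y : Type} (X : Finset Y) (s : FreeGroup Y) (j : ℕ) : FreeGroup Y × ℕ := (up X)^[j] (s, 0)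

open Classical in
theorem toWord_par {Y : Type} (s : FreeGroup Y) : (par s).toWord = s.toWord.dropLast := by
  unfold par
  rw [FreeGroup.toWord_mk]
  exact (isReduced_sub FreeGroup.isReduced_toWord (List.dropLast_prefix _).isInfix).reduce_eq

open Classical in
theorem par_mul {Y : Type} (s : FreeGroup Y) (l : Y × Bool) (hl : l ∈ s.toWord.getLast?) :
    s = par s * FreeGroup.mk [l] := by
  have h1 : s.toWord = s.toWord.dropLast ++ [l] := by
    have := List.dropLast_append_getLast? l hl
    exact this.symm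
  conv_lhs => rw [← FreeGroup.mk_toWord (x := s), h1]
  unfold par
  rw [FreeGroup.mul_mk]

open Classical in
theorem len_par {Y : Type} (s : FreeGroup Y) (l : Y × Bool) (hl : l ∈ s.toWord.getLast?) :
    (par s).toWord.length + 1 = s.toWord.length := by
  rw [toWord_par, List.length_dropLast]
  have : s.toWord ≠ [] := by
    intro h
    rw [h] at hl
    simp at hl
  have := List.length_pos_iff.mpr this
  omega

open Classical in
theorem mul_letter {Y : Type} (s : FreeGroup Y) (x : Y) (b : Bool) :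
    ((x, !b) ∈ s.toWord.getLast? ∧ s * FreeGroup.mk [(x, b)] = par s) ∨
    ((x, b) ∈ (s * FreeGroup.mk [(x, b)]).toWord.getLast? ∧ par (s * FreeGroup.mk [(x, b)]) = s) := by
  by_cases h : (x, !b) ∈ s.toWord.getLast?
  · left
    refine ⟨h, ?_⟩
    conv_lhs => rw [par_mul s _ h]
    rw [mul_assoc, FreeGroup.mul_mk]
    have : (FreeGroup.mk ([(x, !b)] ++ [(x, b)]) : FreeGroup Y) = 1 := by
      rw [List.singleton_append]
      have := FreeGroup.Red.Step.not (L₁ := ([] : List (Y × Bool))) (L₂ := []) (x := x) (b := !b)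
      rw [Bool.not_not] at this
      exact Quot.sound this
    rw [this, mul_one]
  · right
    have h1 : (s * FreeGroup.mk [(x, b)]).toWord = s.toWord ++ [(x, b)] := by
      rw [FreeGroup.toWord_mul, FreeGroup.toWord_mk]
      have h2 : FreeGroup.reduce [(x, b)] = [(x, b)] := FreeGroup.IsReduced.singleton.reduce_eq
      rw [h2]
      apply FreeGroup.IsReduced.reduce_eq
      unfold FreeGroup.IsReduced
      rw [List.isChain_append]
      refine ⟨FreeGroup.isReduced_toWord, FreeGroup.IsReduced.singleton, ?_⟩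
      intro a ha c hc
      have hc' : c = (x, b) := by simpa using hc.symm
      subst hc'
      intro h3
      by_contra h4
      apply h
      have : a = (x, !b) := by
        rcases a with ⟨a1, a2⟩
        simp only at h3 h4
        subst h3
        have : a2 = !b := by
          cases a2 <;> cases b <;> simp_all
        rw [this]
      rw [← this]
      exact ha
    refine ⟨?_, ?_⟩
    · rw [h1]; simp
    · unfold par
      rw [h1, List.dropLast_concat, FreeGroup.mk_toWord]

open Classical in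
theorem up_cases {Y : Type} (X : Finset Y) (v : FreeGroup Y × ℕ) :
    (v.2 = 0 ∧ (∃ l ∈ v.1.toWord.getLast?, l.1 ∈ X) ∧ up X v = (par v.1, 0)) ∨
    (up X v = (v.1, v.2 + 1)) := by
  unfold up
  by_cases h : v.2 = 0 ∧ ∃ l ∈ v.1.toWord.getLast?, l.1 ∈ X
  · left
    rw [if_pos h]
    exact ⟨h.1, h.2, rfl⟩
  · right
    rw [if_neg h]

open Classical in
theorem up_pos {Y : Type} (X : Finset Y) (s : FreeGroup Y) (l : Y × Bool) (hl : l ∈ s.toWord.getLast?)
    (hX : l.1 ∈ X) : up X (s, 0) = (par s, 0) := by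
  unfold up
  rw [if_pos]
  exact ⟨rfl, l, hl, hX⟩

theorem anc_succ {Y : Type} (X : Finset Y) (s : FreeGroup Y) (j : ℕ) :
    anc X s (j + 1) = up X (anc X s j) := by
  unfold anc
  rw [Function.iterate_succ_apply']

theorem anc_succ' {Y : Type} (X : Finset Y) (s : FreeGroup Y) (j : ℕ) :
    anc X s (j + 1) = (up X)^[j] (up X (s, 0)) := by
  unfold anc
  rw [Function.iterate_succ_apply]

open Classical in
theorem anc_height {Y : Type} (X : Finset Y) (s : FreeGroup Y) (j : ℕ) :
    ((anc X s j).2 : ℤ) - ((anc X s j).1.toWord.length : ℤ) = (j : ℤ) - (s.toWord.length : ℤ) := by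
  induction j with
  | zero => simp [anc]
  | succ j ih =>
    rw [anc_succ]
    rcases up_cases X (anc X s j) with ⟨h0, ⟨l, hl, hX⟩, h⟩ | h
    · rw [h]
      have := len_par (anc X s j).1 l hl
      rw [h0] at ih
      push_cast at ih ⊢
      omega
    · rw [h]
      push_cast at ih ⊢
      omega

theorem anc_inj {Y : Type} (X : Finset Y) (s : FreeGroup Y) : Function.Injective (anc X s) := by
  classical
  intro i j hij
  have h1 := anc_height X s i
  have h2 := anc_height X s j
  rw [hij] at h1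
  omega

theorem anc_step {Y : Type} (X : Finset Y) (s : FreeGroup Y) (x : Y) (hx : x ∈ X) (b : Bool) :
    (∀ j, anc X (s * FreeGroup.mk [(x, b)]) (j + 1) = anc X s j) ∨
    (∀ j, anc X s (j + 1) = anc X (s * FreeGroup.mk [(x, b)]) j) := by
  rcases mul_letter s x b with ⟨h1, h2⟩ | ⟨h1, h2⟩
  · right
    intro j
    rw [anc_succ', up_pos X s _ h1 hx, h2]
    rfl
  · left
    intro j
    rw [anc_succ', up_pos X _ _ h1 hx, h2]
    rfl

theorem anc_base {Y : Type} (X : Finset Y) :
    ∃ K : ℕ → Finset (FreeGroup Y), ∀ s j, s⁻¹ * (anc X s j).1 ∈ K j := by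
  classical
  have key : ∀ j : ℕ, ∃ K : Finset (FreeGroup Y), ∀ s, s⁻¹ * (anc X s j).1 ∈ K := by
    intro j
    induction j with
    | zero => exact ⟨{1}, fun s => by simp [anc]⟩
    | succ j ih =>
      obtain ⟨K, hK⟩ := ih
      refine ⟨K ∪ (K ×ˢ (X ×ˢ (Finset.univ : Finset Bool))).image
        (fun p => p.1 * (FreeGroup.mk [p.2])⁻¹), fun s => ?_⟩
      rw [anc_succ]
      rcases up_cases X (anc X s j) with ⟨h0, ⟨l, hl, hX⟩, h⟩ | h
      · rw [h]
        apply Finset.mem_union_right
        refine Finset.mem_image.mpr ⟨(s⁻¹ * (anc X s j).1, l), ?_, ?_⟩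
        · simp only [Finset.mem_product, Finset.mem_univ, and_true]
          exact ⟨hK s, hX⟩
        · have := par_mul (anc X s j).1 l hl
          simp only
          conv_lhs => rw [this]
          group
      · rw [h]
        exact Finset.mem_union_left _ (hK s)
  choose K hK using key
  exact ⟨K, fun s j => hK j s⟩

theorem anc_snd {Y : Type} (X : Finset Y) (s : FreeGroup Y) (j : ℕ) :
    (anc X s j).2 ≤ j ∧ anc X (anc X s j).1 (anc X s j).2 = anc X s j := by
  induction j with
  | zero => exact ⟨le_refl _, rfl⟩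
  | succ j ih =>
    rw [anc_succ]
    rcases up_cases X (anc X s j) with ⟨h0, ⟨l, hl, hX⟩, h⟩ | h
    · rw [h]
      exact ⟨Nat.zero_le _, rfl⟩
    · rw [h]
      refine ⟨Nat.succ_le_succ ih.1, ?_⟩
      simp only
      rw [anc_succ, ih.2, h]

open Classical in
theorem len_up {Y : Type} (X : Finset Y) (v : FreeGroup Y × ℕ) :
    (up X v).1.toWord.length ≤ v.1.toWord.length := by
  rcases up_cases X v with ⟨h0, ⟨l, hl, hX⟩, h⟩ | h
  · rw [h]
    have := len_par v.1 l hl
    simp only
    omega
  · rw [h]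

open Classical in
theorem anc_len {Y : Type} (X : Finset Y) (s : FreeGroup Y) (h : (anc X s 1).1 ≠ s) (j : ℕ)
    (hj : 1 ≤ j) : (anc X s j).1.toWord.length < s.toWord.length := by
  induction j, hj using Nat.le_induction with
  | base =>
    have h1 : anc X s 1 = up X (s, 0) := rfl
    rw [h1] at h ⊢
    rcases up_cases X (s, 0) with ⟨h0, ⟨l, hl, hX⟩, h'⟩ | h'
    · rw [h']
      have := len_par s l hl
      simp only
      omega
    · rw [h'] at h
      exact absurd rfl h
  | succ j hj ih =>
    rw [anc_succ]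
    exact lt_of_le_of_lt (len_up X _) ih

open Classical in
/-- remove the maximal trailing block of letters from `R` -/
def strip {Y : Type} (R : Set Y) (t : FreeGroup Y) : FreeGroup Y :=
  FreeGroup.mk (t.toWord.rdropWhile (fun l => decide (l.1 ∈ R)))

open Classical in
theorem strip_mul_letter {Y : Type} (R : Set Y) (t : FreeGroup Y) (y : Y) (hy : y ∈ R) (b : Bool) :
    strip R (t * FreeGroup.mk [(y, b)]) = strip R t := by
  unfold strip
  have h1 : (t * FreeGroup.mk [(y, b)]).toWord = FreeGroup.reduce (t.toWord ++ [(y, b)]) := by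
    rw [FreeGroup.toWord_mul, FreeGroup.toWord_mk, FreeGroup.reduce_singleton]
  have hred : FreeGroup.IsReduced t.toWord := FreeGroup.isReduced_toWord
  rcases List.eq_nil_or_concat t.toWord with h0 | ⟨L, l, h0⟩
  · rw [h1, h0]
    congr 1
    rw [List.nil_append, FreeGroup.reduce_singleton, List.rdropWhile_singleton]
    simp [hy]
  · rw [List.concat_eq_append] at h0
    by_cases hl : l = (y, !b)
    · have h2 : FreeGroup.reduce (t.toWord ++ [(y, b)]) = L := by
        rw [h0, hl]
        have hL : FreeGroup.IsReduced L := by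
          rw [h0] at hred
          exact isReduced_sub hred (List.prefix_append L [l]).isInfix
        have hs : FreeGroup.Red.Step (L ++ [(y, !b)] ++ [(y, b)]) (L ++ []) := by
          have := @FreeGroup.Red.Step.not Y L [] y (!b)
          simpa using this
        rw [FreeGroup.reduce.Step.eq hs, List.append_nil, hL.reduce_eq]
      rw [h1, h2, h0]
      congr 1
      rw [List.rdropWhile_concat_pos]
      simp [hl, hy]
    · have h2 : FreeGroup.reduce (t.toWord ++ [(y, b)]) = t.toWord ++ [(y, b)] := by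
        apply FreeGroup.IsReduced.reduce_eq
        rw [h0]
        rw [h0] at hred
        apply FreeGroup.IsReduced.append_overlap hred _ (by simp)
        rw [List.singleton_append, FreeGroup.isReduced_cons_cons] 
        refine ⟨?_, FreeGroup.IsReduced.singleton⟩
        intro h3
        by_contra h4
        apply hl
        ext
        · exact h3
        · simp only at h4 ⊢
          revert h4
          cases l.2 <;> cases b <;> simp
      rw [h1, h2]
      congr 1
      rw [List.rdropWhile_concat_pos]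
      simp [hy]

theorem strip_mul {Y : Type} (R : Set Y) (t r : FreeGroup Y) (hr : r ∈ FR R) :
    strip R (t * r) = strip R t := by
  unfold FR at hr
  induction hr using Subgroup.closure_induction generalizing t with
  | mem x hx =>
    obtain ⟨y, hy, rfl⟩ := hx
    exact strip_mul_letter R t y hy true
  | one => rw [mul_one]
  | mul x z _ _ ihx ihz => rw [← mul_assoc, ihz, ihx]
  | inv x _ ih =>
    have := ih (t * x⁻¹)
    rw [inv_mul_cancel_right] at this
    exact this.symm

theorem mk_mem_FR {Y : Type} (R : Set Y) (L : List (Y × Bool)) (hL : ∀ l ∈ L, l.1 ∈ R) :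
    FreeGroup.mk L ∈ FR R := by
  induction L with
  | nil => exact Subgroup.one_mem _
  | cons l L ih =>
    have h1 : FreeGroup.mk (l :: L) = FreeGroup.mk [l] * FreeGroup.mk L := by
      rw [FreeGroup.mul_mk]; rfl
    rw [h1]
    refine Subgroup.mul_mem _ ?_ (ih fun l' hl' => hL l' (List.mem_cons_of_mem _ hl'))
    have hl : l.1 ∈ R := hL l List.mem_cons_self
    have hof : FreeGroup.of l.1 ∈ FR R := Subgroup.subset_closure ⟨l.1, hl, rfl⟩
    obtain ⟨y, b⟩ := l
    cases b
    · have : FreeGroup.mk [(y, false)] = (FreeGroup.of y)⁻¹ := by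
        simp [FreeGroup.of, FreeGroup.inv_mk, FreeGroup.invRev]
      rw [this]
      exact Subgroup.inv_mem _ hof
    · exact hof

theorem strip_mem {Y : Type} (R : Set Y) (t : FreeGroup Y) : t⁻¹ * strip R t ∈ FR R := by
  classical
  have h1 : t = strip R t * FreeGroup.mk (t.toWord.rtakeWhile (fun l => decide (l.1 ∈ R))) := by
    unfold strip
    rw [FreeGroup.mul_mk]
    conv_lhs => rw [← FreeGroup.mk_toWord (x := t)]
    congr 1
    exact List.rdropWhile_append_rtakeWhile.symm
  have h2 : FreeGroup.mk (t.toWord.rtakeWhile (fun l => decide (l.1 ∈ R))) ∈ FR R := by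
    apply mk_mem_FR
    intro l hl
    have := List.mem_rtakeWhile_imp hl
    simpa using this
  have h3 : t⁻¹ * strip R t = (FreeGroup.mk (t.toWord.rtakeWhile (fun l => decide (l.1 ∈ R))))⁻¹ := by
    rw [eq_inv_iff_mul_eq_one, mul_assoc, ← h1, inv_mul_cancel]
  rw [h3]
  exact Subgroup.inv_mem _ h2

open Classical in
theorem strip_len {Y : Type} (R : Set Y) (t : FreeGroup Y) :
    (strip R t).toWord.length ≤ t.toWord.length := by
  unfold strip
  have h1 : FreeGroup.IsReduced (t.toWord.rdropWhile (fun l => decide (l.1 ∈ R))) :=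
    isReduced_sub (FreeGroup.isReduced_toWord (x := t)) (List.rdropWhile_prefix _ _).isInfix
  rw [FreeGroup.toWord_mk, h1.reduce_eq]
  exact (List.rdropWhile_prefix _ _).length_le

open Classical in
theorem ac_last {Y : Type} (s : FreeGroup Y) (l : Y × Bool) (hl : l ∈ s.toWord.getLast?) :
    s = par s * FreeGroup.mk [l] := by
  have h1 := List.dropLast_append_getLast? l hl
  unfold par
  rw [FreeGroup.mul_mk, h1, FreeGroup.mk_toWord]

theorem ac_single {Y : Type} (l : Y × Bool) : FreeGroup.mk [l] ≠ 1 := by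
  classical
  intro h
  have h1 : (FreeGroup.mk [l]).toWord = [] := by rw [h]; exact FreeGroup.toWord_one
  rw [FreeGroup.toWord_mk, FreeGroup.reduce_singleton] at h1
  exact List.cons_ne_nil _ _ h1

theorem ac_iter {Y : Type} (X : Finset Y) (s : FreeGroup Y) (i m : ℕ) :
    (up X)^[i] (s, m + 1) = (s, m + 1 + i) := by
  induction i generalizing m with
  | zero => rfl
  | succ i ih =>
    rw [Function.iterate_succ_apply]
    have h1 : up X (s, m + 1) = (s, m + 1 + 1) := by
      unfold up
      rw [if_neg]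
      rintro ⟨h1, -⟩
      exact Nat.succ_ne_zero m h1
    rw [h1, ih (m + 1)]
    congr 1
    ring

theorem ac_FR {Y : Type} (R : Set Y) (l : Y × Bool) (hl : l.1 ∈ R) : FreeGroup.mk [l] ∈ FR R := by
  obtain ⟨y, b⟩ := l
  have h1 : FreeGroup.of y ∈ FR R := Subgroup.subset_closure ⟨y, hl, rfl⟩
  cases b with
  | true => exact h1
  | false =>
    have h2 : (FreeGroup.mk [(y, false)] : FreeGroup Y) = (FreeGroup.of y)⁻¹ := by
      rw [FreeGroup.of, FreeGroup.inv_mk]
      rfl
    rw [h2]
    exact (FR R).inv_mem h1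

open Classical in
theorem ac_strip {Y : Type} (R : Set Y) (s : FreeGroup Y) (l : Y × Bool)
    (hl : l ∈ s.toWord.getLast?) (hR : l.1 ∉ R) : strip R s = s := by
  unfold strip
  have h1 := List.dropLast_append_getLast? l hl
  have h2 : s.toWord.rdropWhile (fun l => decide (l.1 ∈ R)) = s.toWord := by
    rw [← h1, List.rdropWhile_concat_neg]
    simpa using hR
  rw [h2, FreeGroup.mk_toWord]

theorem anc_coset {Y : Type} (X : Finset Y) (R : Set Y) (t t' : FreeGroup Y) (k : ℕ)
    (h : t⁻¹ * t' ∈ FR R) :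
    t⁻¹ * (anc X t' k).1 ∈ FR R ∨ ((anc X (strip R t) 1).1 ≠ strip R t ∧
      ∃ k', 1 ≤ k' ∧ k' ≤ k ∧ anc X t' k = anc X (strip R t) k') := by
  classical
  induction k generalizing t' with
  | zero => left; exact h
  | succ k ih =>
    have hstep : anc X t' (k + 1) = (up X)^[k] (up X (t', 0)) := by
      unfold anc
      rw [Function.iterate_succ_apply]
    by_cases hX : ∃ l ∈ t'.toWord.getLast?, l.1 ∈ X
    · have hup : up X (t', 0) = (par t', 0) := by
        unfold up
        rw [if_pos ⟨rfl, hX⟩]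
      have hanc : anc X t' (k + 1) = anc X (par t') k := by
        rw [hstep, hup]; rfl
      obtain ⟨l, hl, hlX⟩ := hX
      have hlast := ac_last t' l hl
      by_cases hR : l.1 ∈ R
      · have h1 : t⁻¹ * par t' ∈ FR R := by
          have h2 : t⁻¹ * par t' = (t⁻¹ * t') * (FreeGroup.mk [l])⁻¹ := by
            rw [mul_assoc]
            congr 1
            rw [eq_mul_inv_iff_mul_eq]
            exact hlast.symm
          rw [h2]
          exact (FR R).mul_mem h ((FR R).inv_mem (ac_FR R l hR))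
        rw [hanc]
        rcases ih (par t') h1 with h3 | ⟨h3, k', h4, h5, h6⟩
        · left; exact h3
        · right; exact ⟨h3, k', h4, by omega, h6⟩
      · have hc : strip R t = t' := by
          rw [← strip_mul R t (t⁻¹ * t') h, mul_inv_cancel_left]
          exact ac_strip R t' l hl hR
        right
        rw [hc]
        refine ⟨?_, k + 1, by omega, le_rfl, rfl⟩
        have h1 : anc X t' 1 = (par t', 0) := by
          unfold anc
          rw [Function.iterate_one]; exact hup
        rw [h1]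
        intro h2
        have h3 : par t' = t' := h2
        rw [h3] at hlast
        exact ac_single l (left_eq_mul.mp hlast)
    · left
      have hup : up X (t', 0) = (t', 1) := by
        unfold up
        rw [if_neg]
        rintro ⟨-, h1⟩
        exact hX h1
      rw [hstep, hup, ac_iter X t' k 0]
      exact h

theorem anc_not_coset {Y : Type} (X : Finset Y) (R : Set Y) (t : FreeGroup Y)
    (h : (anc X (strip R t) 1).1 ≠ strip R t) (k : ℕ) (hk : 1 ≤ k) :
    t⁻¹ * (anc X (strip R t) k).1 ∉ FR R := by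
  intro hc
  have h1 : strip R (anc X (strip R t) k).1 = strip R t := by
    have h0 := strip_mul R t (t⁻¹ * (anc X (strip R t) k).1) hc
    rwa [mul_inv_cancel_left] at h0
  have h2 := strip_len R (anc X (strip R t) k).1
  rw [h1] at h2
  have h3 := anc_len X (strip R t) h k hk
  exact absurd h3 (not_lt.2 h2)

open Classical in
theorem her12_shift (N : ℕ) (P Q : ℕ → Prop) (h : ∀ j, P j ↔ Q (j + 1)) :
    |(((Finset.range N).filter P).card : ℝ) - (((Finset.range N).filter Q).card : ℝ)| ≤ 1 := by
  have hP : (((Finset.range N).filter P).card : ℝ) = ∑ j ∈ Finset.range N, if Q (j + 1) then (1:ℝ) else 0 := by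
    rw [Finset.card_filter, Nat.cast_sum]
    apply Finset.sum_congr rfl
    intro j _
    by_cases hq : Q (j + 1)
    · rw [if_pos hq, if_pos ((h j).2 hq)]; simp
    · rw [if_neg hq, if_neg (fun hp => hq ((h j).1 hp))]; simp
  have hQ : (((Finset.range N).filter Q).card : ℝ) = ∑ j ∈ Finset.range N, if Q j then (1:ℝ) else 0 := by
    rw [Finset.card_filter, Nat.cast_sum]
    apply Finset.sum_congr rfl
    intro j _
    by_cases hq : Q j
    · rw [if_pos hq, if_pos hq]; simp
    · rw [if_neg hq, if_neg hq]; simp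
  have h1 := Finset.sum_range_succ (fun j => if Q j then (1:ℝ) else 0) N
  have h2 := Finset.sum_range_succ' (fun j => if Q j then (1:ℝ) else 0) N
  rw [hP, hQ]
  have h3 : (∑ j ∈ Finset.range N, if Q (j + 1) then (1:ℝ) else 0)
      - (∑ j ∈ Finset.range N, if Q j then (1:ℝ) else 0)
      = (if Q N then (1:ℝ) else 0) - (if Q 0 then (1:ℝ) else 0) := by
    linarith
  rw [h3, abs_le]
  constructor <;> split_ifs <;> norm_num

/-- the predicate -/
def her12P {Y : Type} (X : Finset Y) (R : Set Y) (N : ℕ) (t : FreeGroup Y)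
    (v : FreeGroup Y × ℕ) : Prop :=
  ∃ t' : FreeGroup Y, t⁻¹ * t' ∈ FR R ∧ ∃ k, k < N ∧ v = anc X t' k

open Classical in
/-- the kernel -/
def her12K {Y : Type} (X : Finset Y) (R : Set Y) (N : ℕ) (s t : FreeGroup Y) : ℂ :=
  (((Finset.range N).filter (fun j => her12P X R N t (anc X s j))).card : ℂ) / N

theorem her12_inv {Y : Type} (X : Finset Y) (R : Set Y) (N : ℕ) (t r : FreeGroup Y)
    (hr : r ∈ FR R) (v : FreeGroup Y × ℕ) : her12P X R N (t * r) v ↔ her12P X R N t v := by
  unfold her12P
  have h : ∀ t', (t * r)⁻¹ * t' ∈ FR R ↔ t⁻¹ * t' ∈ FR R := by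
    intro t'
    have h1 : (t * r)⁻¹ * t' = r⁻¹ * (t⁻¹ * t') := by group
    rw [h1]
    exact Subgroup.mul_mem_cancel_left _ ((FR R).inv_mem hr)
  simp only [h]

theorem her12_step {Y : Type} (X : Finset Y) (R : Set Y) (N : ℕ) (s t : FreeGroup Y)
    (x : Y) (hx : x ∈ X) (b : Bool) :
    ‖her12K X R N (s * FreeGroup.mk [(x, b)]) t - her12K X R N s t‖ ≤ 1 / N := by
  classical
  unfold her12K
  rw [← sub_div, norm_div, Complex.norm_natCast]
  apply div_le_div_of_nonneg_right _ (Nat.cast_nonneg N)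
  have key : |(((Finset.range N).filter (fun j => her12P X R N t (anc X (s * FreeGroup.mk [(x, b)]) j))).card : ℝ)
      - (((Finset.range N).filter (fun j => her12P X R N t (anc X s j))).card : ℝ)| ≤ 1 := by
    rcases anc_step X s x hx b with h | h
    · rw [abs_sub_comm]
      apply her12_shift
      intro j
      rw [h j]
    · apply her12_shift
      intro j
      rw [h j]
  have h2 : ((((Finset.range N).filter (fun j => her12P X R N t (anc X (s * FreeGroup.mk [(x, b)]) j))).card : ℂ)
      - (((Finset.range N).filter (fun j => her12P X R N t (anc X s j))).card : ℂ))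
      = (((((Finset.range N).filter (fun j => her12P X R N t (anc X (s * FreeGroup.mk [(x, b)]) j))).card : ℝ)
      - (((Finset.range N).filter (fun j => her12P X R N t (anc X s j))).card : ℝ) : ℝ) : ℂ) := by
    push_cast
    ring
  rw [h2, Complex.norm_real, Real.norm_eq_abs]
  exact key

theorem her12_word {Y : Type} (X : Finset Y) (R : Set Y) (N : ℕ) (t : FreeGroup Y)
    (w : List (Y × Bool)) : ∀ (s : FreeGroup Y), (∀ l ∈ w, l.1 ∈ X) →
    ‖her12K X R N (s * FreeGroup.mk w) t - her12K X R N s t‖ ≤ (w.length : ℝ) / N := by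
  induction w with
  | nil =>
    intro s _
    have h : s * FreeGroup.mk [] = s := by
      rw [← FreeGroup.one_eq_mk, mul_one]
    rw [h]
    simp
  | cons l w ih =>
    intro s hl
    obtain ⟨x, b⟩ := l
    have hx : x ∈ X := hl (x, b) (by simp)
    have h1 : s * FreeGroup.mk ((x, b) :: w) = (s * FreeGroup.mk [(x, b)]) * FreeGroup.mk w := by
      rw [mul_assoc, FreeGroup.mul_mk]
      rfl
    have h2 := ih (s * FreeGroup.mk [(x, b)]) (fun l' hl' => hl l' (List.mem_cons_of_mem _ hl'))
    have h3 := her12_step X R N s t x hx b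
    rw [h1]
    have h4 : her12K X R N (s * FreeGroup.mk [(x, b)] * FreeGroup.mk w) t - her12K X R N s t
        = (her12K X R N (s * FreeGroup.mk [(x, b)] * FreeGroup.mk w) t
            - her12K X R N (s * FreeGroup.mk [(x, b)]) t)
          + (her12K X R N (s * FreeGroup.mk [(x, b)]) t - her12K X R N s t) := by ring
    rw [h4]
    refine (norm_add_le _ _).trans ?_
    refine (add_le_add h2 h3).trans ?_
    rw [← add_div]
    apply le_of_eq
    simp

theorem her12_iff {Y : Type} (X : Finset Y) (R : Set Y) (N : ℕ) (s t : FreeGroup Y) (j : ℕ)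
    (hj : j < N) : her12P X R N t (anc X s j) ↔
      (t⁻¹ * (anc X s j).1 ∈ FR R ∨ ∃ k, k < N ∧
        (1 ≤ k ∧ (anc X (strip R t) 1).1 ≠ strip R t) ∧ anc X s j = anc X (strip R t) k) := by
  constructor
  · rintro ⟨t', ht', k, hk, hv⟩
    rw [hv]
    rcases anc_coset X R t t' k ht' with h | ⟨hne, k', h1, h2, h3⟩
    · exact Or.inl h
    · exact Or.inr ⟨k', by omega, ⟨h1, hne⟩, h3⟩
  · rintro (h | ⟨k, hk, ⟨h1, h2⟩, h3⟩)
    · have := anc_snd X s j
      exact ⟨(anc X s j).1, h, (anc X s j).2, by omega, this.2.symm⟩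
    · exact ⟨strip R t, strip_mem R t, k, hk, h3⟩

theorem her12_SB {Y : Type} (X : Finset Y) (R : Set Y) (N : ℕ) (hN : 0 < N) (ι : Type)
    (p : ι → FreeGroup Y) : SB (fun s t => her12K X R N (p s) (p t)) 2 := by
  classical
  have hA := fun j : ℕ => SB_match (ι := ι) (J := FreeGroup Y ⧸ FR R)
    (fun s => (QuotientGroup.mk (anc X (p s) j).1 : FreeGroup Y ⧸ FR R))
    (fun t => (QuotientGroup.mk (p t) : FreeGroup Y ⧸ FR R))
  have hA2 := SB_smul (1 / (N : ℂ)) (SB_sum (Finset.range N)
    (fun (j : ℕ) (s t : ι) => if (QuotientGroup.mk (anc X (p s) j).1 : FreeGroup Y ⧸ FR R)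
      = (QuotientGroup.mk (p t) : FreeGroup Y ⧸ FR R) then (1:ℂ) else 0) (fun _ => 1)
      (fun j _ => by convert hA j))
  have hB := SB_count (ι := ι) N hN (fun s j => anc X (p s) j)
    (fun t k => anc X (strip R (p t)) k)
    (fun t k => 1 ≤ k ∧ (anc X (strip R (p t)) 1).1 ≠ strip R (p t))
    (fun s j j' _ _ h => anc_inj X (p s) h)
    (fun t k k' _ _ _ _ h => anc_inj X (strip R (p t)) h)
  have hC := SB_add hA2 hB
  have hN' : (N : ℂ) ≠ 0 := by exact_mod_cast hN.ne'
  have hNr : (N : ℝ) ≠ 0 := by exact_mod_cast hN.ne'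
  have hconst : ‖(1 / (N : ℂ))‖ * (∑ a ∈ Finset.range N, (fun _ : ℕ => (1:ℝ)) a) + 1 = 2 := by
    rw [norm_div, norm_one, Complex.norm_natCast]
    simp only [Finset.sum_const, Finset.card_range, nsmul_eq_mul, mul_one]
    rw [one_div, inv_mul_cancel₀ hNr]
    norm_num
  rw [hconst] at hC
  convert hC using 1
  funext s t
  unfold her12K
  have hfil : (Finset.range N).filter (fun j => her12P X R N (p t) (anc X (p s) j))
      = (Finset.range N).filter (fun j => (QuotientGroup.mk (anc X (p s) j).1 : FreeGroup Y ⧸ FR R)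
          = (QuotientGroup.mk (p t) : FreeGroup Y ⧸ FR R))
        ∪ (Finset.range N).filter (fun j => ∃ k, k < N ∧
          (1 ≤ k ∧ (anc X (strip R (p t)) 1).1 ≠ strip R (p t)) ∧
          anc X (p s) j = anc X (strip R (p t)) k) := by
    rw [← Finset.filter_or]
    apply Finset.filter_congr
    intro j hj
    rw [Finset.mem_range] at hj
    rw [her12_iff X R N (p s) (p t) j hj]
    have hq : ((QuotientGroup.mk (anc X (p s) j).1 : FreeGroup Y ⧸ FR R)
          = (QuotientGroup.mk (p t) : FreeGroup Y ⧸ FR R)) ↔ (p t)⁻¹ * (anc X (p s) j).1 ∈ FR R := by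
      rw [eq_comm, QuotientGroup.eq]
    rw [hq]
  have hdis : Disjoint ((Finset.range N).filter (fun j => (QuotientGroup.mk (anc X (p s) j).1 : FreeGroup Y ⧸ FR R)
          = (QuotientGroup.mk (p t) : FreeGroup Y ⧸ FR R)))
        ((Finset.range N).filter (fun j => ∃ k, k < N ∧
          (1 ≤ k ∧ (anc X (strip R (p t)) 1).1 ≠ strip R (p t)) ∧
          anc X (p s) j = anc X (strip R (p t)) k)) := by
    rw [Finset.disjoint_filter]
    rintro j _ h1 ⟨k, _, ⟨hk1, hne⟩, hjk⟩
    rw [eq_comm, QuotientGroup.eq] at h1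
    rw [hjk] at h1
    exact anc_not_coset X R (p t) hne k hk1 h1
  rw [hfil, Finset.card_union_of_disjoint hdis, Nat.cast_add, add_div]
  congr 1
  swap
  · congr!
  rw [Finset.card_filter, Nat.cast_sum]
  have hs : (∑ x ∈ Finset.range N, (((if (QuotientGroup.mk (anc X (p s) x).1 : FreeGroup Y ⧸ FR R)
          = (QuotientGroup.mk (p t) : FreeGroup Y ⧸ FR R) then 1 else 0 : ℕ)) : ℂ))
      = ∑ x ∈ Finset.range N, (if (QuotientGroup.mk (anc X (p s) x).1 : FreeGroup Y ⧸ FR R)
          = (QuotientGroup.mk (p t) : FreeGroup Y ⧸ FR R) then (1:ℂ) else 0) := by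
    apply Finset.sum_congr rfl
    intro j _
    split_ifs <;> simp
  rw [hs]
  ring

theorem RWA_free (Y : Type) (R : Set Y) : RWA (FreeGroup Y) (FR R) 2 := by
  classical
  intro S ε hε
  let X : Finset Y := S.biUnion (fun g => (g.toWord.map Prod.fst).toFinset)
  let m : ℕ := S.sup (fun g => g.toWord.length)
  obtain ⟨n, hn⟩ := exists_nat_ge ((m : ℝ) / ε)
  let N : ℕ := n + 1
  have hN : 0 < N := Nat.succ_pos n
  have hNr : (0:ℝ) < (N : ℝ) := by exact_mod_cast hN
  have hmN : (m : ℝ) / N ≤ ε := by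
    rw [div_le_iff₀ hNr]
    rw [div_le_iff₀ hε] at hn
    have : (N : ℝ) = n + 1 := by simp [N]
    rw [this]
    nlinarith
  refine ⟨her12K X R N, ?_, ?_, ?_, ?_⟩
  · intro ι p
    exact her12_SB X R N hN ι p
  · intro s t r hr
    unfold her12K
    have h : (fun j => her12P X R N (t * r) (anc X s j)) = fun j => her12P X R N t (anc X s j) := by
      funext j
      exact propext (her12_inv X R N t r hr _)
    simp only [h]
  · obtain ⟨K, hK⟩ := anc_base X
    refine ⟨(Finset.range N ×ˢ Finset.range N).biUnion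
      (fun jk => (K jk.1 ×ˢ K jk.2).image (fun ab => ab.1 * ab.2⁻¹)), ?_⟩
    intro s t hne
    have hcard : ((Finset.range N).filter (fun j => her12P X R N t (anc X s j))).card ≠ 0 := by
      intro h0
      apply hne
      unfold her12K
      have h0' : ((Finset.range N).filter (fun j => her12P X R N t (anc X s j))).card = 0 := h0
      rw [h0']
      simp
    have hnon : ((Finset.range N).filter (fun j => her12P X R N t (anc X s j))).Nonempty := by
      rw [← Finset.card_ne_zero]
      exact hcard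
    obtain ⟨j, hj⟩ := hnon
    rw [Finset.mem_filter, Finset.mem_range] at hj
    obtain ⟨hjN, t', ht', k, hk, hv⟩ := hj
    have ha := hK s j
    have hb := hK t' k
    refine ⟨(s⁻¹ * (anc X s j).1) * (t'⁻¹ * (anc X t' k).1)⁻¹, ?_, ?_⟩
    · rw [Finset.mem_biUnion]
      refine ⟨(j, k), ?_, ?_⟩
      · rw [Finset.mem_product, Finset.mem_range, Finset.mem_range]
        exact ⟨hjN, hk⟩
      · rw [Finset.mem_image]
        exact ⟨(s⁻¹ * (anc X s j).1, t'⁻¹ * (anc X t' k).1), Finset.mem_product.2 ⟨ha, hb⟩, rfl⟩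
    · rw [hv]
      have h1 : ((s⁻¹ * (anc X t' k).1) * (t'⁻¹ * (anc X t' k).1)⁻¹)⁻¹ * (s⁻¹ * t)
          = (t⁻¹ * t')⁻¹ := by
        group
      rw [h1]
      exact (FR R).inv_mem ht'
  · intro g hg s
    have hself : her12K X R N (s * g) (s * g) = 1 := by
      unfold her12K
      have hall : (Finset.range N).filter (fun j => her12P X R N (s * g) (anc X (s * g) j))
          = Finset.range N := by
        apply Finset.filter_true_of_mem
        intro j hj
        rw [Finset.mem_range] at hj
        refine ⟨s * g, ?_, j, hj, rfl⟩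
        rw [inv_mul_cancel]
        exact (FR R).one_mem
      rw [hall, Finset.card_range]
      exact div_self (by exact_mod_cast hN.ne')
    have hw := her12_word X R N (s * g) g.toWord s (by
      intro l hl
      show l.1 ∈ S.biUnion (fun g => (g.toWord.map Prod.fst).toFinset)
      rw [Finset.mem_biUnion]
      refine ⟨g, hg, ?_⟩
      rw [List.mem_toFinset, List.mem_map]
      exact ⟨l, hl, rfl⟩)
    rw [FreeGroup.mk_toWord, hself, norm_sub_rev] at hw
    refine hw.trans (le_trans ?_ hmN)
    apply div_le_div_of_nonneg_right _ hNr.le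
    have : g.toWord.length ≤ m := Finset.le_sup (f := fun g : FreeGroup Y => g.toWord.length) hg
    exact_mod_cast this

theorem RWA_prod {Γ Γ' : Type} [Group Γ] [Group Γ'] (Λ : Subgroup Γ) (Λ' : Subgroup Γ')
    (h : RWA Γ Λ 2) (h' : RWA Γ' Λ' 2) : RWA (Γ × Γ') (Λ.prod Λ') 4 := by
  classical
  intro S ε hε
  obtain ⟨κ1, hS1, hI1, ⟨K1, hK1⟩, hc1⟩ := h (S.image Prod.fst) (min 1 (ε / 3)) (by positivity)
  obtain ⟨κ2, hS2, hI2, ⟨K2, hK2⟩, hc2⟩ := h' (S.image Prod.snd) (min 1 (ε / 3)) (by positivity)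
  refine ⟨fun s t => κ1 s.1 t.1 * κ2 s.2 t.2, ?_, ?_, ?_, ?_⟩
  · intro ι p
    have h1 := SB_mul (by norm_num) (by norm_num) (hS1 ι (fun s => (p s).1))
      (hS2 ι (fun s => (p s).2))
    have h2 : (2 : ℝ) * 2 = 4 := by norm_num
    rw [h2] at h1
    exact h1
  · intro s t r hr
    have hr' := Subgroup.mem_prod.mp hr
    show κ1 s.1 (t.1 * r.1) * κ2 s.2 (t.2 * r.2) = κ1 s.1 t.1 * κ2 s.2 t.2
    rw [hI1 _ _ _ hr'.1, hI2 _ _ _ hr'.2]
  · refine ⟨K1 ×ˢ K2, ?_⟩
    intro s t hst
    have hst' : κ1 s.1 t.1 * κ2 s.2 t.2 ≠ 0 := hst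
    obtain ⟨a, ha, ha'⟩ := hK1 s.1 t.1 (left_ne_zero_of_mul hst')
    obtain ⟨b, hb, hb'⟩ := hK2 s.2 t.2 (right_ne_zero_of_mul hst')
    exact ⟨(a, b), Finset.mk_mem_product ha hb, Subgroup.mem_prod.mpr ⟨ha', hb'⟩⟩
  · intro g hg s
    have h1 := hc1 g.1 (Finset.mem_image_of_mem _ hg) s.1
    have h2 := hc2 g.2 (Finset.mem_image_of_mem _ hg) s.2
    show ‖κ1 s.1 (s.1 * g.1) * κ2 s.2 (s.2 * g.2) - 1‖ ≤ ε
    set x := κ1 s.1 (s.1 * g.1)
    set y := κ2 s.2 (s.2 * g.2)
    have h3 : x * y - 1 = (x - 1) * (y - 1) + (x - 1) + (y - 1) := by ring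
    have h4 : ‖x * y - 1‖ ≤ ‖x - 1‖ * ‖y - 1‖ + ‖x - 1‖ + ‖y - 1‖ := by
      rw [h3]
      refine (norm_add_le _ _).trans (add_le_add_left ((norm_add_le _ _).trans ?_) _)
      rw [norm_mul]
    have h5 : min 1 (ε / 3) ≤ 1 := min_le_left _ _
    have h6 : min 1 (ε / 3) ≤ ε / 3 := min_le_right _ _
    have h7 : ‖x - 1‖ * ‖y - 1‖ ≤ ε / 3 * 1 :=
      mul_le_mul (h1.trans h6) (h2.trans h5) (norm_nonneg _) (by positivity)
    linarith

theorem ka_ent_dg {Γ : Type} [Group Γ] {c : Γ → ℂ} {C : ℝ} (h : ∀ i, ‖c i‖ ≤ C) (g : Γ)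
    (T : Op Γ) (s t : Γ) : ent (dg c * Rg g * T) s t = c s * ent T (s * g) t := by
  show (dg c (Rg g (T (dl t)))) s = c s * (T (dl t)) (s * g)
  rw [dg_apply h, Rg_apply]

end

end Pool.Agent.Helper741.Her
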