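import Pool.Agent.Helper741.Her.Approx

open Filter Topology

namespace Pool.Agent.Helper741.Her

noncomputable section

-- PING PONG

theorem pp_mono {ι : Type} {F G : L2 ι} (h : ∀ i, ‖F i‖ ≤ ‖G i‖) : ‖F‖ ≤ ‖G‖ := by
  have h1 : ‖F‖ ^ 2 ≤ ‖G‖ ^ 2 := by
    rw [norm_sq_eq, norm_sq_eq]
    refine (summable_sq F).tsum_le_tsum (fun i => ?_) (summable_sq G)
    exact pow_le_pow_left₀ (norm_nonneg _) (h i) 2
  exact le_of_sq_le_sq h1 (norm_nonneg _)

open Classical in
def ppc {ι : Type} (W : Set ι) (s : ι) : ℂ := if s ∈ W then 1 else 0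

theorem ppc_norm {ι : Type} (W : Set ι) (s : ι) : ‖ppc W s‖ ≤ 1 := by
  unfold ppc
  split_ifs <;> simp

theorem ppc_in {ι : Type} {W : Set ι} {s : ι} (h : s ∈ W) : ppc W s = 1 := by
  unfold ppc
  rw [if_pos h]

theorem ppc_out {ι : Type} {W : Set ι} {s : ι} (h : s ∉ W) : ppc W s = 0 := by
  unfold ppc
  rw [if_neg h]

theorem pp_apply {ι : Type} (W : Set ι) (F : L2 ι) (s : ι) : (dg (ppc W) F) s = ppc W s * F s :=
  dg_apply (ppc_norm W) F s

theorem pp_le {ι : Type} (W : Set ι) (F : L2 ι) : ‖dg (ppc W) F‖ ≤ ‖F‖ := by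
  refine pp_mono fun i => ?_
  rw [pp_apply, norm_mul]
  exact mul_le_of_le_one_left (norm_nonneg _) (ppc_norm W i)

theorem pp_Rg_le {Γ : Type} [Group Γ] (g : Γ) (F : L2 Γ) : ‖Rg g F‖ ≤ ‖F‖ := by
  have h := (Rg g).le_opNorm F
  have h2 := norm_Rg_le g
  calc ‖Rg g F‖ ≤ ‖Rg g‖ * ‖F‖ := h
    _ ≤ 1 * ‖F‖ := by gcongr
    _ = ‖F‖ := one_mul _

theorem pp_sum_apply {ι : Type} (n : ℕ) (a : ℕ → L2 ι) (s : ι) :
    (∑ i ∈ Finset.range n, a i : L2 ι) s = ∑ i ∈ Finset.range n, (a i) s := by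
  rw [lp.coeFn_sum, Finset.sum_apply]

theorem pp_orth {ι : Type} (n : ℕ) (D : ℕ → Set ι)
    (hD : ∀ i j s, s ∈ D i → s ∈ D j → i = j) (a : ℕ → L2 ι) (ha : ∀ i s, s ∉ D i → (a i) s = 0) :
    ‖(∑ i ∈ Finset.range n, a i : L2 ι)‖ ^ 2 = ∑ i ∈ Finset.range n, ‖a i‖ ^ 2 := by
  rw [norm_sq_eq]
  have h1 : ∀ s, ‖(∑ i ∈ Finset.range n, a i : L2 ι) s‖ ^ 2 =
      ∑ i ∈ Finset.range n, ‖(a i) s‖ ^ 2 := by
    intro s
    rw [pp_sum_apply]
    by_cases h : ∃ i ∈ Finset.range n, s ∈ D i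
    · obtain ⟨i, hi, hs⟩ := h
      have hz : ∀ j, j ≠ i → (a j) s = 0 := fun j hj => ha j s fun hs' => hj (hD j i s hs' hs)
      rw [Finset.sum_eq_single_of_mem i hi (fun j _ hj => hz j hj),
        Finset.sum_eq_single_of_mem i hi (fun j _ hj => by rw [hz j hj]; simp)]
    · push Not at h
      rw [Finset.sum_eq_zero (fun i hi => ha i s (h i hi)),
        Finset.sum_eq_zero (fun i hi => by rw [ha i s (h i hi)]; simp)]
      simp
  rw [tsum_congr h1, Summable.tsum_finsetSum (fun i _ => summable_sq (a i))]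
  exact Finset.sum_congr rfl fun i _ => (norm_sq_eq (a i)).symm

theorem pp_general {Γ : Type} [Group Γ] (n : ℕ) (g : ℕ → Γ) (D D' : ℕ → Set Γ)
    (hD : ∀ i j s, s ∈ D i → s ∈ D j → i = j) (hD' : ∀ i j s, s ∈ D' i → s ∈ D' j → i = j)
    (h : ∀ i s, s ∈ D i ∨ s * g i ∈ D' i) :
    ‖∑ i ∈ Finset.range n, Rg (g i)‖ ≤ 2 * Real.sqrt n := by
  refine ContinuousLinearMap.opNorm_le_bound _ (by positivity) fun F => ?_
  have hn : (0:ℝ) ≤ n := Nat.cast_nonneg n
  have hsplit : (∑ i ∈ Finset.range n, Rg (g i)) F =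
      ∑ i ∈ Finset.range n, dg (ppc (D i)) (Rg (g i) F) +
        ∑ i ∈ Finset.range n, dg (ppc (D i)ᶜ) (Rg (g i) F) := by
    rw [_root_.sum_apply, ← Finset.sum_add_distrib]
    refine Finset.sum_congr rfl fun i _ => ?_
    apply lp.ext
    funext s
    rw [lp.coeFn_add, Pi.add_apply, pp_apply, pp_apply, ← add_mul]
    by_cases hs : s ∈ D i
    · rw [ppc_in hs, ppc_out (by simpa using hs)]
      simp
    · rw [ppc_out hs, ppc_in (by simpa using hs)]
      simp
  have hA : ‖∑ i ∈ Finset.range n, dg (ppc (D i)) (Rg (g i) F)‖ ≤ Real.sqrt n * ‖F‖ := by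
    have h1 := pp_orth n D hD (fun i => dg (ppc (D i)) (Rg (g i) F)) (fun i s hs => by
      rw [pp_apply, ppc_out hs, zero_mul])
    have h2 : ∑ i ∈ Finset.range n, ‖dg (ppc (D i)) (Rg (g i) F)‖ ^ 2 ≤ n * ‖F‖ ^ 2 := by
      calc ∑ i ∈ Finset.range n, ‖dg (ppc (D i)) (Rg (g i) F)‖ ^ 2
          ≤ ∑ i ∈ Finset.range n, ‖F‖ ^ 2 := by
            refine Finset.sum_le_sum fun i _ => ?_
            exact pow_le_pow_left₀ (norm_nonneg _) ((pp_le _ _).trans (pp_Rg_le _ _)) 2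
        _ = n * ‖F‖ ^ 2 := by simp
    have h3 : ‖∑ i ∈ Finset.range n, dg (ppc (D i)) (Rg (g i) F)‖ ^ 2 ≤
        (Real.sqrt n * ‖F‖) ^ 2 := by
      rw [mul_pow, Real.sq_sqrt hn]
      exact h1.le.trans h2
    exact le_of_sq_le_sq h3 (by positivity)
  have hB : ‖∑ i ∈ Finset.range n, dg (ppc (D i)ᶜ) (Rg (g i) F)‖ ≤ Real.sqrt n * ‖F‖ := by
    have h1 : ∀ i, ‖dg (ppc (D i)ᶜ) (Rg (g i) F)‖ ≤ ‖dg (ppc (D' i)) F‖ := by
      intro i
      refine le_trans (pp_mono (G := Rg (g i) (dg (ppc (D' i)) F)) fun s => ?_) (pp_Rg_le _ _)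
      rw [pp_apply, Rg_apply, Rg_apply, pp_apply, norm_mul, norm_mul]
      rcases h i s with hs | hs
      · rw [ppc_out (by simpa using hs)]
        simp only [norm_zero, zero_mul]
        positivity
      · rw [ppc_in hs, norm_one]
        exact mul_le_mul_of_nonneg_right (ppc_norm _ _) (norm_nonneg _)
    have h2 := pp_orth n D' hD' (fun i => dg (ppc (D' i)) F) (fun i s hs => by
      rw [pp_apply, ppc_out hs, zero_mul])
    have h3 : ‖∑ i ∈ Finset.range n, dg (ppc (D' i)) F‖ ≤ ‖F‖ := by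
      refine pp_mono fun s => ?_
      rw [pp_sum_apply]
      by_cases h : ∃ i ∈ Finset.range n, s ∈ D' i
      · obtain ⟨i, hi, hs⟩ := h
        rw [Finset.sum_eq_single_of_mem i hi (fun j _ hj => by
          rw [pp_apply, ppc_out (fun hs' => hj (hD' j i s hs' hs)), zero_mul]), pp_apply,
          ppc_in hs, one_mul]
      · push Not at h
        rw [Finset.sum_eq_zero (fun i hi => by rw [pp_apply, ppc_out (h i hi), zero_mul])]
        simp
    have h4 : ∑ i ∈ Finset.range n, ‖dg (ppc (D' i)) F‖ ^ 2 ≤ ‖F‖ ^ 2 := by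
      rw [← h2]
      exact pow_le_pow_left₀ (norm_nonneg _) h3 2
    have h5 : (∑ i ∈ Finset.range n, ‖dg (ppc (D' i)) F‖) ^ 2 ≤
        n * ∑ i ∈ Finset.range n, ‖dg (ppc (D' i)) F‖ ^ 2 := by
      have := sq_sum_le_card_mul_sum_sq (s := Finset.range n) (f := fun i => ‖dg (ppc (D' i)) F‖)
      simpa using this
    have h6 : (∑ i ∈ Finset.range n, ‖dg (ppc (D' i)) F‖) ≤ Real.sqrt n * ‖F‖ := by
      refine le_of_sq_le_sq ?_ (by positivity)
      rw [mul_pow, Real.sq_sqrt hn]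
      exact h5.trans (mul_le_mul_of_nonneg_left h4 hn)
    calc ‖∑ i ∈ Finset.range n, dg (ppc (D i)ᶜ) (Rg (g i) F)‖
        ≤ ∑ i ∈ Finset.range n, ‖dg (ppc (D i)ᶜ) (Rg (g i) F)‖ := norm_sum_le _ _
      _ ≤ ∑ i ∈ Finset.range n, ‖dg (ppc (D' i)) F‖ := Finset.sum_le_sum fun i _ => h1 i
      _ ≤ Real.sqrt n * ‖F‖ := h6
  rw [hsplit]
  calc _ ≤ _ := norm_add_le _ _
    _ ≤ Real.sqrt n * ‖F‖ + Real.sqrt n * ‖F‖ := add_le_add hA hB
    _ = 2 * Real.sqrt n * ‖F‖ := by ring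

def sub2 {Y Z : Type} {N₁ N₂ : ℕ} (a : Fin N₁ → Y) (b : Fin N₂ → Z) :
    FreeGroup (Fin N₁) × FreeGroup (Fin N₂) →* FreeGroup Y × FreeGroup Z :=
  (FreeGroup.map a).prodMap (FreeGroup.map b)

def Lam (N k : ℕ) : Subgroup (FreeGroup (Fin N)) := FR {x : Fin N | (x : ℕ) < k}

theorem pp_split1 {A : Type} (p : A → Prop) (l : List A) (h : ∃ x ∈ l, p x) :
    ∃ α c r, l = α ++ c :: r ∧ (∀ x ∈ α, ¬ p x) ∧ p c := by
  induction l with
  | nil => obtain ⟨x, hx, -⟩ := h; simp at hx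
  | cons x l ih =>
    by_cases hx : p x
    · exact ⟨[], x, l, rfl, by simp, hx⟩
    · obtain ⟨y, hy, hpy⟩ := h
      rcases List.mem_cons.mp hy with rfl | hy'
      · exact absurd hpy hx
      · obtain ⟨α, c, r, h1, h2, h3⟩ := ih ⟨y, hy', hpy⟩
        refine ⟨x :: α, c, r, by rw [h1]; rfl, ?_, h3⟩
        intro z hz
        rcases List.mem_cons.mp hz with rfl | hz'
        · exact hx
        · exact h2 z hz'

theorem pp_split2 {A : Type} (p : A → Prop) (l : List A) (h : ∃ x ∈ l, p x) :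
    ∃ f c β, l = f ++ c :: β ∧ (∀ x ∈ β, ¬ p x) ∧ p c := by
  obtain ⟨α, c, r, h1, h2, h3⟩ := pp_split1 p l.reverse (by
    obtain ⟨x, hx, hp⟩ := h
    exact ⟨x, List.mem_reverse.mpr hx, hp⟩)
  refine ⟨r.reverse, c, α.reverse, ?_, fun x hx => h2 x (List.mem_reverse.mp hx), h3⟩
  have h4 := congrArg List.reverse h1
  rw [List.reverse_reverse] at h4
  rw [h4]
  simp

theorem pp_mem_FR {Y : Type} {R : Set Y} (L : List (Y × Bool)) (h : ∀ l ∈ L, l.1 ∈ R) :
    FreeGroup.mk L ∈ FR R := by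
  induction L with
  | nil => exact (FR R).one_mem
  | cons l L ih =>
    have e : FreeGroup.mk (l :: L) = FreeGroup.mk [l] * FreeGroup.mk L := by
      rw [FreeGroup.mul_mk]; rfl
    rw [e]
    refine (FR R).mul_mem ?_ (ih fun x hx => h x (List.mem_cons_of_mem _ hx))
    have h1 : FreeGroup.of l.1 ∈ FR R :=
      Subgroup.subset_closure ⟨l.1, h l List.mem_cons_self, rfl⟩
    obtain ⟨x, b⟩ := l
    cases b with
    | true => exact h1
    | false =>
      have : FreeGroup.mk [(x, false)] = (FreeGroup.of x)⁻¹ := rfl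
      rw [this]
      exact (FR R).inv_mem h1

theorem pp_free {Y : Type} {N k : ℕ} (g : FreeGroup (Fin N)) (hg : g ∉ Lam N k)
    (a : ℕ → Fin N → Y) (ha : ∀ i, Function.Injective (a i))
    (hold : ∀ i j (x : Fin N), (x : ℕ) < k → a i x = a j x)
    (hnew : ∀ i j (x : Fin N), k ≤ (x : ℕ) → a i x = a j x → i = j) :
    ∃ D D' : ℕ → Set (FreeGroup Y), (∀ i j s, s ∈ D i → s ∈ D j → i = j) ∧
      (∀ i j s, s ∈ D' i → s ∈ D' j → i = j) ∧
      ∀ i s, s ∈ D i ∨ s * FreeGroup.map (a i) g ∈ D' i := by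
  classical
  have hnewletter : ∃ x ∈ g.toWord, k ≤ (x.1 : ℕ) := by
    by_contra hcon
    push Not at hcon
    apply hg
    have h1 := pp_mem_FR (R := {x : Fin N | (x : ℕ) < k}) g.toWord (fun l hl => hcon l hl)
    rw [FreeGroup.mk_toWord] at h1
    exact h1
  obtain ⟨α, c, r, hw1, hα, hc⟩ := pp_split1 (fun l : Fin N × Bool => k ≤ (l.1 : ℕ)) g.toWord hnewletter
  obtain ⟨f, c', β, hw2, hβ, hc'⟩ := pp_split2 (fun l : Fin N × Bool => k ≤ (l.1 : ℕ)) (c :: r)
    ⟨c, List.mem_cons_self, hc⟩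
  set m : List (Fin N × Bool) := f ++ [c'] with hm
  have hword : g.toWord = α ++ (m ++ β) := by
    rw [hw1, hw2, hm]
    simp
  have hhead : m.head? = some c := by
    cases f with
    | nil =>
      simp only [List.nil_append, List.cons.injEq] at hw2
      rw [hm]
      simp [hw2.1]
    | cons f0 f1 =>
      simp only [List.cons_append, List.cons.injEq] at hw2
      rw [hm]
      simp [hw2.1]
  have hlast : m.getLast? = some c' := by rw [hm]; simp
  have hmred : FreeGroup.IsReduced m :=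
    isReduced_sub (FreeGroup.isReduced_toWord (x := g)) ⟨α, β, by rw [hword]; simp⟩
  set φ : ℕ → Fin N × Bool → Y × Bool := fun i l => (a i l.1, l.2) with hφ
  have hαi : ∀ i, α.map (φ i) = α.map (φ 0) := by
    intro i
    refine List.map_congr_left fun l hl => ?_
    have h1 := hα l hl
    push Not at h1
    show (a i l.1, l.2) = (a 0 l.1, l.2)
    rw [hold i 0 l.1 h1]
  have hβi : ∀ i, β.map (φ i) = β.map (φ 0) := by
    intro i
    refine List.map_congr_left fun l hl => ?_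
    have h1 := hβ l hl
    push Not at h1
    show (a i l.1, l.2) = (a 0 l.1, l.2)
    rw [hold i 0 l.1 h1]
  have hmi : ∀ i, FreeGroup.IsReduced (m.map (φ i)) := by
    intro i
    unfold FreeGroup.IsReduced
    rw [List.isChain_map]
    refine List.IsChain.imp (fun x y hxy => ?_) hmred
    intro h
    exact hxy (ha i h)
  set u : FreeGroup Y := FreeGroup.mk (α.map (φ 0)) with hu
  set v : FreeGroup Y := FreeGroup.mk (β.map (φ 0)) with hv
  have hmap : ∀ i, FreeGroup.map (a i) g = u * FreeGroup.mk (m.map (φ i)) * v := by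
    intro i
    have h1 : FreeGroup.map (a i) (FreeGroup.mk g.toWord)
        = FreeGroup.mk (g.toWord.map (φ i)) := FreeGroup.map.mk
    rw [FreeGroup.mk_toWord] at h1
    rw [h1, hword, List.map_append, List.map_append, hαi, hβi, hu, hv, FreeGroup.mul_mk,
      FreeGroup.mul_mk, List.append_assoc]
  refine ⟨fun i => {s | (s * u).toWord.getLast? = some (a i c.1, !c.2)},
    fun i => {t | (t * v⁻¹).toWord.getLast? = some (a i c'.1, c'.2)}, ?_, ?_, ?_⟩
  · intro i j s hi hj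
    have h1 : (s * u).toWord.getLast? = some (a i c.1, !c.2) := hi
    have h2 : (s * u).toWord.getLast? = some (a j c.1, !c.2) := hj
    rw [h1] at h2
    have h3 : a i c.1 = a j c.1 := congrArg Prod.fst (Option.some.inj h2)
    exact hnew i j c.1 hc h3
  · intro i j s hi hj
    have h1 : (s * v⁻¹).toWord.getLast? = some (a i c'.1, c'.2) := hi
    have h2 : (s * v⁻¹).toWord.getLast? = some (a j c'.1, c'.2) := hj
    rw [h1] at h2
    have h3 : a i c'.1 = a j c'.1 := congrArg Prod.fst (Option.some.inj h2)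
    exact hnew i j c'.1 hc' h3
  · intro i s
    by_cases hs : (s * u).toWord.getLast? = some (a i c.1, !c.2)
    · exact Or.inl hs
    · right
      show (s * FreeGroup.map (a i) g * v⁻¹).toWord.getLast? = some (a i c'.1, c'.2)
      have e1 : s * FreeGroup.map (a i) g * v⁻¹ = (s * u) * FreeGroup.mk (m.map (φ i)) := by
        rw [hmap]
        group
      have hred : FreeGroup.IsReduced ((s * u).toWord ++ m.map (φ i)) := by
        unfold FreeGroup.IsReduced
        rw [List.isChain_append]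
        refine ⟨FreeGroup.isReduced_toWord, hmi i, ?_⟩
        intro x hx y hy hxy
        have hy' : (m.map (φ i)).head? = some y := hy
        rw [List.head?_map, hhead] at hy'
        have hyc : φ i c = y := by simpa using hy'
        have hx' : (s * u).toWord.getLast? = some x := hx
        by_contra hne
        apply hs
        rw [hx']
        rw [← hyc] at hxy hne
        have h1 : x.2 = !c.2 := by
          have h2 : ¬ x.2 = c.2 := hne
          revert h2
          cases x.2 <;> cases c.2 <;> simp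
        have h3 : x.1 = a i c.1 := hxy
        rw [← h1, ← h3]
      have e2 : (s * u) * FreeGroup.mk (m.map (φ i))
          = FreeGroup.mk ((s * u).toWord ++ m.map (φ i)) := by
        rw [← FreeGroup.mul_mk, FreeGroup.mk_toWord]
      rw [e1, e2, FreeGroup.toWord_mk, hred.reduce_eq, List.getLast?_append, List.getLast?_map,
        hlast]
      rfl

theorem pp_prod {Y Z : Type} {N₁ N₂ k₁ k₂ : ℕ} (g : FreeGroup (Fin N₁) × FreeGroup (Fin N₂))
    (hg : g ∉ (Lam N₁ k₁).prod (Lam N₂ k₂))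
    (a : ℕ → Fin N₁ → Y) (b : ℕ → Fin N₂ → Z)
    (ha : ∀ i, Function.Injective (a i)) (hb : ∀ i, Function.Injective (b i))
    (haold : ∀ i j (x : Fin N₁), (x : ℕ) < k₁ → a i x = a j x)
    (hbold : ∀ i j (x : Fin N₂), (x : ℕ) < k₂ → b i x = b j x)
    (hanew : ∀ i j (x : Fin N₁), k₁ ≤ (x : ℕ) → a i x = a j x → i = j)
    (hbnew : ∀ i j (x : Fin N₂), k₂ ≤ (x : ℕ) → b i x = b j x → i = j) (n : ℕ) :
    ‖∑ i ∈ Finset.range n, Rg (sub2 (a i) (b i) g)‖ ≤ 2 * Real.sqrt n := by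
  rw [Subgroup.mem_prod, not_and_or] at hg
  rcases hg with hg | hg
  · obtain ⟨D, D', h1, h2, h3⟩ := pp_free g.1 hg a ha haold hanew
    exact pp_general n (fun i => sub2 (a i) (b i) g) (fun i => {s | s.1 ∈ D i})
      (fun i => {s | s.1 ∈ D' i}) (fun i j s hi hj => h1 i j s.1 hi hj)
      (fun i j s hi hj => h2 i j s.1 hi hj) (fun i s => h3 i s.1)
  · obtain ⟨D, D', h1, h2, h3⟩ := pp_free g.2 hg b hb hbold hbnew
    exact pp_general n (fun i => sub2 (a i) (b i) g) (fun i => {s | s.2 ∈ D i})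
      (fun i => {s | s.2 ∈ D' i}) (fun i j s hi hj => h1 i j s.2 hi hj)
      (fun i j s hi hj => h2 i j s.2 hi hj) (fun i s => h3 i s.2)

theorem map_agree {Y : Type} {N k : ℕ} (a a' : Fin N → Y) (h : ∀ x : Fin N, (x : ℕ) < k → a x = a' x)
    (g : FreeGroup (Fin N)) (hg : g ∈ Lam N k) : FreeGroup.map a g = FreeGroup.map a' g := by
  have h1 : Set.EqOn (FreeGroup.map a) (FreeGroup.map a') (FreeGroup.of '' {x : Fin N | (x : ℕ) < k}) := by
    rintro _ ⟨x, hx, rfl⟩
    simp only [FreeGroup.map.of]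
    rw [h x hx]
  exact MonoidHom.eqOn_closure h1 hg

theorem rho_mapDomain {Γ Δ : Type} [Group Γ] [Group Δ] (f : Γ → Δ) (z : Γ →₀ ℂ) :
    rho (Finsupp.mapDomain f z) = ∑ g ∈ z.support, z g • Rg (f g) := by
  unfold rho
  rw [Finsupp.linearCombination_mapDomain, Finsupp.linearCombination_apply, Finsupp.sum]
  rfl

open Classical in
theorem averaging {Y Z : Type} {N₁ N₂ k₁ k₂ : ℕ}
    (L : Submodule ℂ (Op (FreeGroup Y × FreeGroup Z))) (r : ℝ)
    (z : (FreeGroup (Fin N₁) × FreeGroup (Fin N₂)) →₀ ℂ)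
    (a : ℕ → Fin N₁ → Y) (b : ℕ → Fin N₂ → Z)
    (ha : ∀ i, Function.Injective (a i)) (hb : ∀ i, Function.Injective (b i))
    (haold : ∀ i j (x : Fin N₁), (x : ℕ) < k₁ → a i x = a j x)
    (hbold : ∀ i j (x : Fin N₂), (x : ℕ) < k₂ → b i x = b j x)
    (hanew : ∀ i j (x : Fin N₁), k₁ ≤ (x : ℕ) → a i x = a j x → i = j)
    (hbnew : ∀ i j (x : Fin N₂), k₂ ≤ (x : ℕ) → b i x = b j x → i = j)
    (hdist : ∀ i, Metric.infDist (rho (Finsupp.mapDomain (sub2 (a i) (b i)) z)) (L : Set (Op (FreeGroup Y × FreeGroup Z))) < r) :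
    Metric.infDist (rho (Finsupp.mapDomain (sub2 (a 0) (b 0))
      (z.filter (fun g => g ∈ (Lam N₁ k₁).prod (Lam N₂ k₂))))) (L : Set (Op (FreeGroup Y × FreeGroup Z))) ≤ r := by
  obtain ⟨φ, hφ⟩ : ∃ φ : ℕ → (FreeGroup (Fin N₁) × FreeGroup (Fin N₂) →* FreeGroup Y × FreeGroup Z),
      φ = fun i => sub2 (a i) (b i) := ⟨_, rfl⟩
  have hφi : ∀ i, sub2 (a i) (b i) = φ i := fun i => by rw [hφ]
  have hagree : ∀ i, ∀ g ∈ (Lam N₁ k₁).prod (Lam N₂ k₂), φ i g = φ 0 g := by
    intro i g hg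
    rw [Subgroup.mem_prod] at hg
    rw [hφ]
    unfold sub2
    simp only [MonoidHom.prodMap, MonoidHom.prod_apply, MonoidHom.comp_apply, MonoidHom.coe_fst,
      MonoidHom.coe_snd]
    rw [map_agree (a i) (a 0) (fun x hx => haold i 0 x hx) g.1 hg.1,
      map_agree (b i) (b 0) (fun x hx => hbold i 0 x hx) g.2 hg.2]
  obtain ⟨zo, hzo⟩ : ∃ zo, zo = z.filter (fun g => g ∈ (Lam N₁ k₁).prod (Lam N₂ k₂)) := ⟨_, rfl⟩
  obtain ⟨zn, hzn⟩ : ∃ zn, zn = z.filter (fun g => ¬ (g ∈ (Lam N₁ k₁).prod (Lam N₂ k₂))) := ⟨_, rfl⟩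
  have hz : z = zo + zn := by
    rw [hzo, hzn]; exact (Finsupp.filter_pos_add_filter_neg z _).symm
  have hzosup : ∀ g ∈ zo.support, g ∈ (Lam N₁ k₁).prod (Lam N₂ k₂) := by
    intro g hg
    rw [hzo, Finsupp.support_filter, Finset.mem_filter] at hg
    exact hg.2
  have hznsup : ∀ g ∈ zn.support, g ∉ (Lam N₁ k₁).prod (Lam N₂ k₂) := by
    intro g hg
    rw [hzn, Finsupp.support_filter, Finset.mem_filter] at hg
    exact hg.2
  rw [← hzo]
  obtain ⟨w, hw⟩ : ∃ w, w = rho (Finsupp.mapDomain (φ 0) zo) := ⟨_, rfl⟩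
  rw [hφi 0, ← hw]
  have hx : ∀ i, rho (Finsupp.mapDomain (φ i) z) = w + ∑ g ∈ zn.support, zn g • Rg (φ i g) := by
    intro i
    conv_lhs => rw [hz]
    rw [Finsupp.mapDomain_add, map_add, rho_mapDomain (φ i) zn]
    congr 1
    rw [hw]
    congr 1
    exact Finsupp.mapDomain_congr fun g hg => hagree i g (hzosup g hg)
  obtain ⟨c, hc⟩ : ∃ c : ℝ, c = ∑ g ∈ zn.support, ‖zn g‖ := ⟨_, rfl⟩
  have hc0 : 0 ≤ c := by rw [hc]; exact Finset.sum_nonneg fun g _ => norm_nonneg _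
  have hne : (L : Set (Op (FreeGroup Y × FreeGroup Z))).Nonempty := ⟨0, L.zero_mem⟩
  have hl : ∀ i, ∃ l ∈ (L : Set (Op (FreeGroup Y × FreeGroup Z))),
      dist (rho (Finsupp.mapDomain (φ i) z)) l < r := by
    intro i
    have := hdist i
    rw [hφi i] at this
    exact (Metric.infDist_lt_iff hne).mp this
  choose l hlL hlr using hl
  have key : ∀ n : ℕ, 1 ≤ n → Metric.infDist w (L : Set (Op (FreeGroup Y × FreeGroup Z))) ≤
      r + 2 * c * Real.sqrt n / n := by
    intro n hn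
    have hn0 : (0 : ℝ) < n := by exact_mod_cast hn
    have hmem : ((n : ℂ)⁻¹ • ∑ i ∈ Finset.range n, l i) ∈ (L : Set (Op (FreeGroup Y × FreeGroup Z))) :=
      L.smul_mem _ (L.sum_mem fun i _ => hlL i)
    refine le_trans (Metric.infDist_le_dist_of_mem hmem) ?_
    rw [dist_eq_norm]
    have hnC : (n : ℂ) ≠ 0 := by
      have : n ≠ 0 := by omega
      exact_mod_cast this
    have e1 : w - (n : ℂ)⁻¹ • ∑ i ∈ Finset.range n, l i =
        (n : ℂ)⁻¹ • ((∑ i ∈ Finset.range n, (rho (Finsupp.mapDomain (φ i) z) - l i)) -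
          ∑ g ∈ zn.support, zn g • ∑ i ∈ Finset.range n, Rg (φ i g)) := by
      have e2 : ∑ i ∈ Finset.range n, (rho (Finsupp.mapDomain (φ i) z) - l i) =
          (n : ℂ) • w + (∑ g ∈ zn.support, zn g • ∑ i ∈ Finset.range n, Rg (φ i g)) -
            ∑ i ∈ Finset.range n, l i := by
        rw [Finset.sum_sub_distrib]
        congr 1
        rw [Finset.sum_congr rfl fun i _ => hx i, Finset.sum_add_distrib, Finset.sum_const,
          Finset.card_range, Finset.sum_comm]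
        congr 1
        · rw [← Nat.cast_smul_eq_nsmul ℂ]
        · exact Finset.sum_congr rfl fun g _ => Finset.smul_sum.symm
      rw [e2, smul_sub, smul_sub, smul_add, smul_smul, inv_mul_cancel₀ hnC, one_smul]
      abel
    rw [e1, norm_smul]
    have b1 : ‖∑ i ∈ Finset.range n, (rho (Finsupp.mapDomain (φ i) z) - l i)‖ ≤ n * r := by
      refine le_trans (norm_sum_le _ _) ?_
      have : ∑ i ∈ Finset.range n, ‖rho (Finsupp.mapDomain (φ i) z) - l i‖ ≤ ∑ i ∈ Finset.range n, r := by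
        refine Finset.sum_le_sum fun i _ => ?_
        have := hlr i
        rw [dist_eq_norm] at this
        exact this.le
      simpa using this
    have b2 : ‖∑ g ∈ zn.support, zn g • ∑ i ∈ Finset.range n, Rg (φ i g)‖ ≤ c * (2 * Real.sqrt n) := by
      refine le_trans (norm_sum_le _ _) ?_
      rw [hc, Finset.sum_mul]
      refine Finset.sum_le_sum fun g hg => ?_
      rw [norm_smul]
      refine mul_le_mul_of_nonneg_left ?_ (norm_nonneg _)
      have := pp_prod g (hznsup g hg) a b ha hb haold hbold hanew hbnew n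
      rw [hφ]
      exact this
    have b3 : ‖(n : ℂ)⁻¹‖ = (n : ℝ)⁻¹ := by
      rw [norm_inv, Complex.norm_natCast]
    rw [b3]
    calc (n : ℝ)⁻¹ * ‖(∑ i ∈ Finset.range n, (rho (Finsupp.mapDomain (φ i) z) - l i)) -
          ∑ g ∈ zn.support, zn g • ∑ i ∈ Finset.range n, Rg (φ i g)‖
        ≤ (n : ℝ)⁻¹ * (n * r + c * (2 * Real.sqrt n)) := by
          refine mul_le_mul_of_nonneg_left ?_ (by positivity)
          exact le_trans (norm_sub_le _ _) (add_le_add b1 b2)
      _ = r + 2 * c * Real.sqrt n / n := by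
          field_simp
  refine le_of_forall_pos_le_add fun ε hε => ?_
  obtain ⟨n, hn⟩ := exists_nat_ge ((2 * c / ε) ^ 2 + 1)
  have hn1 : (1 : ℝ) ≤ n := le_trans (by nlinarith [sq_nonneg (2 * c / ε)]) hn
  have hn1' : 1 ≤ n := by exact_mod_cast hn1
  have hn0 : (0 : ℝ) < n := by linarith
  refine le_trans (key n hn1') ?_
  have hs : 2 * c / ε ≤ Real.sqrt n := by
    apply Real.le_sqrt_of_sq_le
    linarith
  have hs0 : 0 < Real.sqrt n := Real.sqrt_pos.mpr hn0
  have e3 : 2 * c * Real.sqrt n / n = 2 * c / Real.sqrt n := by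
    have : (n : ℝ) = Real.sqrt n * Real.sqrt n := (Real.mul_self_sqrt hn0.le).symm
    rw [div_eq_div_iff hn0.ne' hs0.ne']
    nlinarith
  rw [e3]
  have : 2 * c / Real.sqrt n ≤ ε := by
    rw [div_le_iff₀ hs0]
    rw [div_le_iff₀ hε] at hs
    linarith
  linarith

/-- one step of the closing off procedure -/
def stepCO_7209 {Y Z : Type} (F₁ : List Y → List Z → Set Y) (F₂ : List Y → List Z → Set Z)
    (p : Set Y × Set Z) : Set Y × Set Z :=
  (p.1 ∪ ⋃ l ∈ {l : List Y | ∀ y ∈ l, y ∈ p.1}, ⋃ l' ∈ {l' : List Z | ∀ z ∈ l', z ∈ p.2}, F₁ l l',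
   p.2 ∪ ⋃ l ∈ {l : List Y | ∀ y ∈ l, y ∈ p.1}, ⋃ l' ∈ {l' : List Z | ∀ z ∈ l', z ∈ p.2}, F₂ l l')

theorem countable_lists_7209 {Y : Type} (A : Set Y) (hA : A.Countable) :
    {l : List Y | ∀ y ∈ l, y ∈ A}.Countable := by
  have := hA.to_subtype
  have h : {l : List Y | ∀ y ∈ l, y ∈ A} ⊆ Set.range (fun l : List A => l.map Subtype.val) := by
    intro l hl
    refine ⟨l.attach.map (fun y => ⟨y.1, hl y.1 y.2⟩), ?_⟩
    simp
  exact (Set.countable_range _).mono h

theorem common_level_7209 {Y : Type} (A : ℕ → Set Y) (hA : Monotone A) (l : List Y)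
    (hl : ∀ y ∈ l, y ∈ ⋃ n, A n) : ∃ n, ∀ y ∈ l, y ∈ A n := by
  induction l with
  | nil => exact ⟨0, by simp⟩
  | cons a l ih =>
    obtain ⟨n, hn⟩ := ih (fun y hy => hl y (List.mem_cons_of_mem _ hy))
    obtain ⟨m, hm⟩ := Set.mem_iUnion.1 (hl a (List.mem_cons_self ..))
    refine ⟨max n m, ?_⟩
    intro y hy
    rcases List.mem_cons.1 hy with rfl | hy
    · exact hA (le_max_right _ _) hm
    · exact hA (le_max_left _ _) (hn y hy)

theorem close_off {Y Z : Type} (F₁ : List Y → List Z → Set Y) (F₂ : List Y → List Z → Set Z)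
    (h₁ : ∀ l l', (F₁ l l').Countable) (h₂ : ∀ l l', (F₂ l l').Countable) :
    ∃ (R₁ : Set Y) (R₂ : Set Z), R₁.Countable ∧ R₂.Countable ∧
      ∀ l l', (∀ y ∈ l, y ∈ R₁) → (∀ z ∈ l', z ∈ R₂) → F₁ l l' ⊆ R₁ ∧ F₂ l l' ⊆ R₂ := by
  let P : ℕ → Set Y × Set Z := fun n => (stepCO_7209 F₁ F₂)^[n] (∅, ∅)
  have hP : ∀ n, P (n + 1) = stepCO_7209 F₁ F₂ (P n) := fun n =>
    Function.iterate_succ_apply' _ _ _
  have hm1 : Monotone (fun n => (P n).1) := by
    refine monotone_nat_of_le_succ (fun n => ?_)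
    show (P n).1 ⊆ (P (n + 1)).1
    rw [hP]
    exact Set.subset_union_left
  have hm2 : Monotone (fun n => (P n).2) := by
    refine monotone_nat_of_le_succ (fun n => ?_)
    show (P n).2 ⊆ (P (n + 1)).2
    rw [hP]
    exact Set.subset_union_left
  have hc : ∀ n, (P n).1.Countable ∧ (P n).2.Countable := by
    intro n
    induction n with
    | zero => exact ⟨Set.countable_empty, Set.countable_empty⟩
    | succ n ih =>
      rw [hP]
      refine ⟨ih.1.union ?_, ih.2.union ?_⟩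
      · exact (countable_lists_7209 _ ih.1).biUnion (fun l _ =>
          (countable_lists_7209 _ ih.2).biUnion (fun l' _ => h₁ l l'))
      · exact (countable_lists_7209 _ ih.1).biUnion (fun l _ =>
          (countable_lists_7209 _ ih.2).biUnion (fun l' _ => h₂ l l'))
  refine ⟨⋃ n, (P n).1, ⋃ n, (P n).2, Set.countable_iUnion (fun n => (hc n).1),
    Set.countable_iUnion (fun n => (hc n).2), ?_⟩
  intro l l' hl hl'
  obtain ⟨n, hn⟩ := common_level_7209 _ hm1 l hl
  obtain ⟨m, hm⟩ := common_level_7209 _ hm2 l' hl'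
  have k1 : ∀ y ∈ l, y ∈ (P (max n m)).1 := fun y hy => hm1 (le_max_left _ _) (hn y hy)
  have k2 : ∀ z ∈ l', z ∈ (P (max n m)).2 := fun z hz => hm2 (le_max_right _ _) (hm z hz)
  constructor
  · intro y hy
    refine Set.mem_iUnion.2 ⟨max n m + 1, ?_⟩
    rw [hP]
    exact Or.inr (Set.mem_biUnion (x := l) k1 (Set.mem_biUnion (x := l') k2 hy))
  · intro z hz
    refine Set.mem_iUnion.2 ⟨max n m + 1, ?_⟩
    rw [hP]
    exact Or.inr (Set.mem_biUnion (x := l) k1 (Set.mem_biUnion (x := l') k2 hz))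

def qc (q : ℚ × ℚ) : ℂ := (q.1 : ℂ) + (q.2 : ℂ) * Complex.I

theorem nf_enum {Y : Type} (W : Finset Y) (R : Set Y) :
    ∃ (N k : ℕ) (a : Fin N → Y), k ≤ N ∧ Function.Injective a ∧
      (∀ x, a x ∈ R ↔ (x : ℕ) < k) ∧ ∀ y ∈ W, ∃ x, a x = y := by
  classical
  set l₁ : List Y := (W.filter (fun y => y ∈ R)).toList with hl₁
  set l₂ : List Y := (W.filter (fun y => y ∉ R)).toList with hl₂
  have hm₁ : ∀ y, y ∈ l₁ ↔ y ∈ W ∧ y ∈ R := by
    intro y; simp [hl₁]
  have hm₂ : ∀ y, y ∈ l₂ ↔ y ∈ W ∧ y ∉ R := by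
    intro y; simp [hl₂]
  have hnd : (l₁ ++ l₂).Nodup := by
    rw [List.nodup_append]
    refine ⟨Finset.nodup_toList _, Finset.nodup_toList _, ?_⟩
    intro y hy y' hy' h
    subst h
    exact ((hm₂ y).1 hy').2 ((hm₁ y).1 hy).2
  refine ⟨(l₁ ++ l₂).length, l₁.length, fun x => (l₁ ++ l₂).get x, ?_, ?_, ?_, ?_⟩
  · simp
  · exact List.nodup_iff_injective_get.1 hnd
  · intro x
    constructor
    · intro hx
      by_contra hlt
      push Not at hlt
      have h1 : (l₁ ++ l₂).get x ∈ l₂ := by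
        rw [List.get_eq_getElem, List.getElem_append_right hlt]
        exact List.getElem_mem _
      exact ((hm₂ _).1 h1).2 hx
    · intro hlt
      have h1 : (l₁ ++ l₂).get x ∈ l₁ := by
        rw [List.get_eq_getElem, List.getElem_append_left hlt]
        exact List.getElem_mem _
      exact ((hm₁ _).1 h1).2
  · intro y hy
    have hmem : y ∈ l₁ ++ l₂ := by
      rw [List.mem_append]
      by_cases hR : y ∈ R
      · exact Or.inl ((hm₁ y).2 ⟨hy, hR⟩)
      · exact Or.inr ((hm₂ y).2 ⟨hy, hR⟩)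
    obtain ⟨x, hx⟩ := List.get_of_mem hmem
    exact ⟨x, hx⟩

theorem nf_lift_list {Y : Type} {N : ℕ} (a : Fin N → Y) :
    ∀ L : List (Y × Bool), (∀ l ∈ L, ∃ x, a x = l.1) →
      ∃ L' : List (Fin N × Bool), L'.map (fun l => (a l.1, l.2)) = L
  | [], _ => ⟨[], rfl⟩
  | (l :: L), h => by
      obtain ⟨L', hL'⟩ := nf_lift_list a L (fun m hm => h m (List.mem_cons_of_mem _ hm))
      obtain ⟨x, hx⟩ := h l List.mem_cons_self
      refine ⟨(x, l.2) :: L', ?_⟩
      simp only [List.map_cons, hL', hx]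

open Classical in
theorem nf_lift {Y : Type} {N : ℕ} (a : Fin N → Y) (g : FreeGroup Y)
    (h : ∀ l ∈ g.toWord, ∃ x, a x = l.1) : ∃ g' : FreeGroup (Fin N), FreeGroup.map a g' = g := by
  obtain ⟨L', hL'⟩ := nf_lift_list a g.toWord h
  refine ⟨FreeGroup.mk L', ?_⟩
  rw [FreeGroup.map.mk]
  rw [hL']
  exact FreeGroup.mk_toWord

theorem nf_rat (c : ℂ) (δ : ℝ) (hδ : 0 < δ) : ∃ q : ℚ × ℚ, ‖c - qc q‖ < δ := by
  obtain ⟨p, hp⟩ := exists_rat_near c.re (show (0 : ℝ) < δ / 2 by linarith)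
  obtain ⟨r, hr⟩ := exists_rat_near c.im (show (0 : ℝ) < δ / 2 by linarith)
  refine ⟨(p, r), ?_⟩
  have h1 : c - qc (p, r) = ((c.re - (p : ℝ) : ℝ) : ℂ) + ((c.im - (r : ℝ) : ℝ) : ℂ) * Complex.I := by
    apply Complex.ext <;> simp [qc]
  rw [h1]
  calc ‖((c.re - (p : ℝ) : ℝ) : ℂ) + ((c.im - (r : ℝ) : ℝ) : ℂ) * Complex.I‖
      ≤ ‖((c.re - (p : ℝ) : ℝ) : ℂ)‖ + ‖((c.im - (r : ℝ) : ℝ) : ℂ) * Complex.I‖ := norm_add_le _ _
    _ = |c.re - (p : ℝ)| + |c.im - (r : ℝ)| := by
        rw [norm_mul, Complex.norm_I, mul_one, Complex.norm_real, Complex.norm_real]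
        rfl
    _ < δ := by linarith

def nf_qcHom : (ℚ × ℚ) →+ ℂ where
  toFun := qc
  map_zero' := by simp [qc]
  map_add' x y := by simp [qc]; ring

theorem normal_form {Y Z : Type} (R₁ : Set Y) (R₂ : Set Z)
    (T : Op (FreeGroup Y × FreeGroup Z)) (hT : T ∈ Dspan _) (ε : ℝ) (hε : 0 < ε) :
    ∃ (N₁ N₂ k₁ k₂ : ℕ) (a : Fin N₁ → Y) (b : Fin N₂ → Z)
      (z : (FreeGroup (Fin N₁) × FreeGroup (Fin N₂)) →₀ (ℚ × ℚ)),
      k₁ ≤ N₁ ∧ k₂ ≤ N₂ ∧
      Function.Injective a ∧ Function.Injective b ∧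
      (∀ x, a x ∈ R₁ ↔ (x : ℕ) < k₁) ∧ (∀ x, b x ∈ R₂ ↔ (x : ℕ) < k₂) ∧
      ‖T - rho (Finsupp.mapDomain (sub2 a b) (z.mapRange qc (by simp [qc])))‖ < ε := by
  classical
  obtain ⟨W, hW⟩ := Dspan_approx T hT (ε / 2) (by linarith)
  set S := W.support with hS
  set W₁ : Finset Y := S.biUnion (fun g => (g.1.toWord.map Prod.fst).toFinset) with hW₁
  set W₂ : Finset Z := S.biUnion (fun g => (g.2.toWord.map Prod.fst).toFinset) with hW₂
  obtain ⟨N₁, k₁, a, hk₁, ha, haR, haW⟩ := nf_enum W₁ R₁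
  obtain ⟨N₂, k₂, b, hk₂, hb, hbR, hbW⟩ := nf_enum W₂ R₂
  have hlift : ∀ g : FreeGroup Y × FreeGroup Z, ∃ g' : FreeGroup (Fin N₁) × FreeGroup (Fin N₂),
      g ∈ S → sub2 a b g' = g := by
    intro g
    by_cases hg : g ∈ S
    · obtain ⟨g₁, h₁⟩ := nf_lift a g.1 (by
        intro l hl
        refine haW l.1 ?_
        rw [hW₁, Finset.mem_biUnion]
        exact ⟨g, hg, by
          rw [List.mem_toFinset, List.mem_map]; exact ⟨l, hl, rfl⟩⟩)
      obtain ⟨g₂, h₂⟩ := nf_lift b g.2 (by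
        intro l hl
        refine hbW l.1 ?_
        rw [hW₂, Finset.mem_biUnion]
        exact ⟨g, hg, by
          rw [List.mem_toFinset, List.mem_map]; exact ⟨l, hl, rfl⟩⟩)
      refine ⟨(g₁, g₂), fun _ => ?_⟩
      unfold sub2
      rw [MonoidHom.prodMap_def]
      simp [h₁, h₂]
    · exact ⟨1, fun h => absurd h hg⟩
  choose G' hG' using hlift
  have hcard : (0 : ℝ) < 2 * (1 + (S.card : ℝ)) := by positivity
  have hδ : 0 < ε / (2 * (1 + (S.card : ℝ))) := div_pos hε hcard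
  choose q hq using fun g => nf_rat (W g) (ε / (2 * (1 + (S.card : ℝ)))) hδ
  refine ⟨N₁, N₂, k₁, k₂, a, b, ∑ g ∈ S, Finsupp.single (G' g) (q g), hk₁, hk₂, ha, hb, haR, hbR, ?_⟩
  have e1 : (∑ g ∈ S, Finsupp.single (G' g) (q g)).mapRange qc (by simp [qc])
      = ∑ g ∈ S, Finsupp.single (G' g) (qc (q g)) := by
    have := map_sum (Finsupp.mapRange.addMonoidHom (ι := FreeGroup (Fin N₁) × FreeGroup (Fin N₂)) nf_qcHom)
      (fun g => Finsupp.single (G' g) (q g)) S
    refine Eq.trans ?_ (this.trans ?_)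
    · rfl
    · refine Finset.sum_congr rfl (fun g _ => ?_)
      exact Finsupp.mapRange_single (hf := map_zero nf_qcHom)
  rw [e1, Finsupp.mapDomain_finsetSum, map_sum]
  have e2 : ∀ g ∈ S, rho (Finsupp.mapDomain (sub2 a b) (Finsupp.single (G' g) (qc (q g))))
      = qc (q g) • Rg g := by
    intro g hg
    rw [Finsupp.mapDomain_single, rho_single, hG' g hg]
  rw [Finset.sum_congr rfl e2]
  have e3 : rho W = ∑ g ∈ S, W g • Rg g := by
    unfold rho
    rw [Finsupp.linearCombination_apply, Finsupp.sum]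
  have e4 : T - ∑ g ∈ S, qc (q g) • Rg g = (T - rho W) + ∑ g ∈ S, (W g - qc (q g)) • Rg g := by
    rw [e3]
    simp only [sub_smul, Finset.sum_sub_distrib]
    abel
  rw [e4]
  have e5 : ‖∑ g ∈ S, (W g - qc (q g)) • (Rg g : Op (FreeGroup Y × FreeGroup Z))‖ ≤ ε / 2 := by
    calc ‖∑ g ∈ S, (W g - qc (q g)) • (Rg g : Op (FreeGroup Y × FreeGroup Z))‖
        ≤ ∑ g ∈ S, ‖(W g - qc (q g)) • (Rg g : Op (FreeGroup Y × FreeGroup Z))‖ := norm_sum_le _ _
      _ ≤ ∑ g ∈ S, ε / (2 * (1 + (S.card : ℝ))) := by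
          refine Finset.sum_le_sum (fun g _ => ?_)
          rw [norm_smul]
          calc ‖W g - qc (q g)‖ * ‖(Rg g : Op (FreeGroup Y × FreeGroup Z))‖
              ≤ ‖W g - qc (q g)‖ * 1 := by
                exact mul_le_mul_of_nonneg_left (norm_Rg_le g) (norm_nonneg _)
            _ ≤ _ := by rw [mul_one]; exact (hq g).le
      _ = (S.card : ℝ) * (ε / (2 * (1 + (S.card : ℝ)))) := by
          rw [Finset.sum_const, nsmul_eq_mul]
      _ ≤ ε / 2 := by
          rw [mul_div_assoc', div_le_div_iff₀ hcard (by norm_num)]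
          nlinarith
  calc ‖(T - rho W) + ∑ g ∈ S, (W g - qc (q g)) • (Rg g : Op (FreeGroup Y × FreeGroup Z))‖
      ≤ ‖T - rho W‖ + ‖∑ g ∈ S, (W g - qc (q g)) • (Rg g : Op (FreeGroup Y × FreeGroup Z))‖ :=
        norm_add_le _ _
    _ < ε := by linarith

theorem aux_map_inj {α β : Type} (f : α → β) (hf : Function.Injective f) :
    Function.Injective (FreeGroup.map f) := by
  rcases isEmpty_or_nonempty α with h | h
  · intro x y _
    exact Subsingleton.elim x y
  · obtain ⟨g, hg⟩ := hf.hasLeftInverse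
    have h1 : ∀ x, FreeGroup.map g (FreeGroup.map f x) = x := by
      intro x
      rw [FreeGroup.map.comp]
      have : g ∘ f = id := funext hg
      rw [this, FreeGroup.map.id]
    exact Function.LeftInverse.injective h1

open Classical in
def pr {Y : Type} (R : Set Y) : FreeGroup Y →* FreeGroup Y :=
  FreeGroup.lift (fun y => if y ∈ R then FreeGroup.of y else 1)

theorem pr_mem {Y : Type} (R : Set Y) (h : FreeGroup Y) : pr R h ∈ FR R := by
  classical
  have h0 : ∀ y : Y, pr R (FreeGroup.of y) ∈ FR R := by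
    intro y
    unfold pr
    rw [FreeGroup.lift_apply_of]
    split_ifs with hy
    · exact Subgroup.subset_closure ⟨y, hy, rfl⟩
    · exact one_mem _
  induction h using FreeGroup.induction_on with
  | C1 => rw [map_one]; exact one_mem _
  | of y => exact h0 y
  | inv_of y _ => rw [map_inv]; exact inv_mem (h0 y)
  | mul x y hx hy => rw [map_mul]; exact mul_mem hx hy

theorem mem_FR_iff {Y : Type} (R : Set Y) (h : FreeGroup Y) : h ∈ FR R ↔ pr R h = h := by
  classical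
  constructor
  · intro hh
    have h1 : FR R ≤ MonoidHom.eqLocus (pr R) (MonoidHom.id _) := by
      unfold FR
      rw [Subgroup.closure_le]
      rintro _ ⟨y, hy, rfl⟩
      change pr R (FreeGroup.of y) = FreeGroup.of y
      unfold pr
      rw [FreeGroup.lift_apply_of, if_pos hy]
    exact h1 hh
  · intro hh
    rw [← hh]
    exact pr_mem R h

theorem mem_FR_map {Y Y' : Type} (R' : Set Y') (R : Set Y) (a : Y' → Y) (ha : Function.Injective a)
    (hR : ∀ x, a x ∈ R ↔ x ∈ R') (g : FreeGroup Y') : FreeGroup.map a g ∈ FR R ↔ g ∈ FR R' := by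
  classical
  have h1 : (pr R).comp (FreeGroup.map a) = (FreeGroup.map a).comp (pr R') := by
    apply FreeGroup.ext_hom
    intro x
    change pr R (FreeGroup.map a (FreeGroup.of x)) = FreeGroup.map a (pr R' (FreeGroup.of x))
    rw [FreeGroup.map.of]
    unfold pr
    rw [FreeGroup.lift_apply_of, FreeGroup.lift_apply_of]
    by_cases hx : x ∈ R'
    · rw [if_pos hx, if_pos ((hR x).2 hx), FreeGroup.map.of]
    · rw [if_neg hx, if_neg (fun h => hx ((hR x).1 h)), map_one]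
  have h2 : ∀ g, pr R (FreeGroup.map a g) = FreeGroup.map a (pr R' g) := fun g => DFunLike.congr_fun h1 g
  rw [mem_FR_iff, mem_FR_iff, h2]
  exact (aux_map_inj a ha).eq_iff

open Classical in
theorem cut_sub {Y Z : Type} {N₁ N₂ k₁ k₂ : ℕ} (R₁ : Set Y) (R₂ : Set Z)
    (a : Fin N₁ → Y) (b : Fin N₂ → Z) (ha : Function.Injective a) (hb : Function.Injective b)
    (haR : ∀ x, a x ∈ R₁ ↔ (x : ℕ) < k₁) (hbR : ∀ x, b x ∈ R₂ ↔ (x : ℕ) < k₂)
    (z : (FreeGroup (Fin N₁) × FreeGroup (Fin N₂)) →₀ ℂ) (s t : FreeGroup Y × FreeGroup Z) :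
    ent (rho (Finsupp.mapDomain (sub2 a b) (z.filter (fun g => g ∈ (Lam N₁ k₁).prod (Lam N₂ k₂))))) s t =
      if s⁻¹ * t ∈ (FR R₁).prod (FR R₂) then ent (rho (Finsupp.mapDomain (sub2 a b) z)) s t else 0 := by
  rw [ent_rho, ent_rho]
  set x := s⁻¹ * t with hx
  have hinj : Function.Injective (sub2 a b) := by
    intro p q hpq
    have h1 : FreeGroup.map a p.1 = FreeGroup.map a q.1 := congrArg Prod.fst hpq
    have h2 : FreeGroup.map b p.2 = FreeGroup.map b q.2 := congrArg Prod.snd hpq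
    exact Prod.ext (aux_map_inj a ha h1) (aux_map_inj b hb h2)
  by_cases hr : x ∈ Set.range (sub2 a b)
  · obtain ⟨g, hg⟩ := hr
    rw [← hg, Finsupp.mapDomain_apply hinj, Finsupp.mapDomain_apply hinj]
    have h3 : sub2 a b g ∈ (FR R₁).prod (FR R₂) ↔ g ∈ (Lam N₁ k₁).prod (Lam N₂ k₂) := by
      rw [Subgroup.mem_prod, Subgroup.mem_prod]
      exact and_congr (mem_FR_map {x : Fin N₁ | (x : ℕ) < k₁} R₁ a ha haR g.1)
        (mem_FR_map {x : Fin N₂ | (x : ℕ) < k₂} R₂ b hb hbR g.2)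
    by_cases h4 : g ∈ (Lam N₁ k₁).prod (Lam N₂ k₂)
    · rw [if_pos (h3.2 h4)]
      exact Finsupp.filter_apply_pos _ _ h4
    · rw [if_neg (fun h => h4 (h3.1 h))]
      exact Finsupp.filter_apply_neg _ _ h4
  · rw [Finsupp.mapDomain_of_notMem_range _ _ hr, Finsupp.mapDomain_of_notMem_range _ _ hr]
    simp

abbrev PatT : Type :=
  Σ N : ℕ × ℕ × ℕ × ℕ, ((FreeGroup (Fin N.1) × FreeGroup (Fin N.2.1)) →₀ (ℚ × ℚ)) × ℚ

instance freeGroup_countable_aux (n : ℕ) : Countable (FreeGroup (Fin n)) := by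
  unfold FreeGroup
  infer_instance

instance patT_countable : Countable PatT := inferInstance

def GoodExt {Y Z : Type} (L : Submodule ℂ (Op (FreeGroup Y × FreeGroup Z))) (c : PatT)
    (l : List Y) (l' : List Z) (a : Fin c.1.1 → Y) (b : Fin c.1.2.1 → Z) : Prop :=
  Function.Injective a ∧ Function.Injective b ∧
  (∀ x : Fin c.1.1, (x : ℕ) < c.1.2.2.1 → l[(x : ℕ)]? = some (a x)) ∧
  (∀ x : Fin c.1.2.1, (x : ℕ) < c.1.2.2.2 → l'[(x : ℕ)]? = some (b x)) ∧
  Metric.infDist (rho (Finsupp.mapDomain (sub2 a b) (c.2.1.mapRange qc (by simp [qc]))))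
    (L : Set (Op (FreeGroup Y × FreeGroup Z))) < (c.2.2 : ℝ)

def Rich {Y Z : Type} (L : Submodule ℂ (Op (FreeGroup Y × FreeGroup Z))) (c : PatT)
    (l : List Y) (l' : List Z) : Prop :=
  ∀ (W₁ : Finset Y) (W₂ : Finset Z), ∃ (a : Fin c.1.1 → Y) (b : Fin c.1.2.1 → Z),
    GoodExt L c l l' a b ∧ (∀ x : Fin c.1.1, c.1.2.2.1 ≤ (x : ℕ) → a x ∉ W₁) ∧
      (∀ x : Fin c.1.2.1, c.1.2.2.2 ≤ (x : ℕ) → b x ∉ W₂)

theorem not_rich {Y Z : Type} (L : Submodule ℂ (Op (FreeGroup Y × FreeGroup Z))) (c : PatT)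
    (l : List Y) (l' : List Z) : ∃ W : Finset Y × Finset Z, ¬ Rich L c l l' →
      ∀ (a : Fin c.1.1 → Y) (b : Fin c.1.2.1 → Z), GoodExt L c l l' a b →
        (∃ x : Fin c.1.1, c.1.2.2.1 ≤ (x : ℕ) ∧ a x ∈ W.1) ∨
          (∃ x : Fin c.1.2.1, c.1.2.2.2 ≤ (x : ℕ) ∧ b x ∈ W.2) := by
  by_cases h : Rich L c l l'
  · exact ⟨(∅, ∅), fun h' => absurd h h'⟩
  · unfold Rich at h
    push Not at h
    obtain ⟨W₁, W₂, hW⟩ := h
    refine ⟨(W₁, W₂), fun _ a b hab => ?_⟩
    by_contra hcon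
    push Not at hcon
    obtain ⟨x, hx, hx2⟩ := hW a b hab hcon.1
    exact hcon.2 x hx hx2

theorem map_agree_c {Y : Type} {N k : ℕ} (a a' : Fin N → Y) (h : ∀ x : Fin N, (x : ℕ) < k → a x = a' x)
    (g : FreeGroup (Fin N)) (hg : g ∈ Lam N k) : FreeGroup.map a g = FreeGroup.map a' g := by
  have h1 : Set.EqOn (FreeGroup.map a) (FreeGroup.map a') (FreeGroup.of '' {x : Fin N | (x : ℕ) < k}) := by
    rintro _ ⟨x, hx, rfl⟩
    rw [FreeGroup.map.of, FreeGroup.map.of, h x hx]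
  exact MonoidHom.eqOn_closure h1 hg

open Classical in
theorem closing {Y Z : Type} (L : Submodule ℂ (Op (FreeGroup Y × FreeGroup Z)))
    (hLc : IsClosed (L : Set (Op (FreeGroup Y × FreeGroup Z)))) (hLD : L ≤ Dspan _) :
    ∃ (R₁ : Set Y) (R₂ : Set Z), R₁.Countable ∧ R₂.Countable ∧
      ∀ T ∈ L, ∀ T' : Op (FreeGroup Y × FreeGroup Z),
        (∀ s t, ent T' s t = if s⁻¹ * t ∈ (FR R₁).prod (FR R₂) then ent T s t else 0) → T' ∈ L := by
  choose W hW using fun c l l' => not_rich L c l l'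
  obtain ⟨R₁, R₂, hR₁, hR₂, hcl⟩ := close_off
    (fun l l' => ⋃ c : PatT, (((W c l l').1 : Finset Y) : Set Y))
    (fun l l' => ⋃ c : PatT, (((W c l l').2 : Finset Z) : Set Z))
    (fun l l' => Set.countable_iUnion (fun c => Finset.countable_toSet _))
    (fun l l' => Set.countable_iUnion (fun c => Finset.countable_toSet _))
  refine ⟨R₁, R₂, hR₁, hR₂, ?_⟩
  intro T hT T' hT'
  have hne : (L : Set (Op (FreeGroup Y × FreeGroup Z))).Nonempty := ⟨T, hT⟩
  have hkey : ∀ q : ℚ, 0 < q → Metric.infDist T' (L : Set (Op (FreeGroup Y × FreeGroup Z))) ≤ 2 * (q : ℝ) := by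
    intro q hq
    have hq' : (0 : ℝ) < (q : ℝ) := by exact_mod_cast hq
    obtain ⟨N₁, N₂, k₁, k₂, a, b, z, hk₁, hk₂, ha, hb, haR, hbR, hnorm⟩ :=
      normal_form R₁ R₂ T (hLD hT) (q : ℝ) hq'
    set c : PatT := ⟨(N₁, N₂, k₁, k₂), (z, q)⟩ with hc
    set zc : (FreeGroup (Fin N₁) × FreeGroup (Fin N₂)) →₀ ℂ := z.mapRange qc (by simp [qc]) with hzc
    set l : List Y := List.ofFn (fun i : Fin k₁ => a (Fin.castLE hk₁ i)) with hl
    set l' : List Z := List.ofFn (fun i : Fin k₂ => b (Fin.castLE hk₂ i)) with hl'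
    have hlR : ∀ y ∈ l, y ∈ R₁ := by
      intro y hy
      rw [hl, List.mem_ofFn] at hy
      obtain ⟨i, rfl⟩ := hy
      exact (haR _).2 (by simp)
    have hlR' : ∀ y ∈ l', y ∈ R₂ := by
      intro y hy
      rw [hl', List.mem_ofFn] at hy
      obtain ⟨i, rfl⟩ := hy
      exact (hbR _).2 (by simp)
    have hlx : ∀ x : Fin N₁, (x : ℕ) < k₁ → l[(x : ℕ)]? = some (a x) := by
      intro x hx
      rw [hl, List.getElem?_ofFn, dif_pos hx]
      rfl
    have hlx' : ∀ x : Fin N₂, (x : ℕ) < k₂ → l'[(x : ℕ)]? = some (b x) := by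
      intro x hx
      rw [hl', List.getElem?_ofFn, dif_pos hx]
      rfl
    have hgood : GoodExt L c l l' a b := by
      refine ⟨ha, hb, hlx, hlx', ?_⟩
      change Metric.infDist (rho (Finsupp.mapDomain (sub2 a b) zc)) _ < (q : ℝ)
      refine lt_of_le_of_lt (Metric.infDist_le_dist_of_mem hT) ?_
      rw [dist_comm, dist_eq_norm]
      exact hnorm
    have hrich : Rich L c l l' := by
      by_contra hnr
      rcases hW c l l' hnr a b hgood with ⟨x, hx, hx2⟩ | ⟨x, hx, hx2⟩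
      · have h1 : a x ∈ R₁ := (hcl l l' hlR hlR').1 (Set.mem_iUnion.2 ⟨c, hx2⟩)
        have h2 := (haR x).1 h1
        exact absurd h2 (not_lt.2 hx)
      · have h1 : b x ∈ R₂ := (hcl l l' hlR hlR').2 (Set.mem_iUnion.2 ⟨c, hx2⟩)
        have h2 := (hbR x).1 h1
        exact absurd h2 (not_lt.2 hx)
    obtain ⟨f, hfP, hfr⟩ := exists_seq_of_forall_finset_exists
      (α := (Fin N₁ → Y) × (Fin N₂ → Z))
      (fun u => GoodExt L c l l' u.1 u.2)
      (fun u v => (∀ x : Fin N₁, k₁ ≤ (x : ℕ) → ∀ y, v.1 x ≠ u.1 y) ∧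
        (∀ x : Fin N₂, k₂ ≤ (x : ℕ) → ∀ y, v.2 x ≠ u.2 y))
      (by
        intro s _
        obtain ⟨a', b', h1, h2, h3⟩ := hrich (s.biUnion (fun u => Finset.univ.image u.1))
          (s.biUnion (fun u => Finset.univ.image u.2))
        refine ⟨(a', b'), h1, fun u hu => ⟨?_, ?_⟩⟩
        · intro x hx y hxy
          apply h2 x hx
          rw [Finset.mem_biUnion]
          exact ⟨u, hu, Finset.mem_image.2 ⟨y, Finset.mem_univ _, hxy.symm⟩⟩
        · intro x hx y hxy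
          apply h3 x hx
          rw [Finset.mem_biUnion]
          exact ⟨u, hu, Finset.mem_image.2 ⟨y, Finset.mem_univ _, hxy.symm⟩⟩)
    have hav := averaging L (q : ℝ) zc (fun i => (f i).1) (fun i => (f i).2) (k₁ := k₁) (k₂ := k₂)
      (fun i => (hfP i).1) (fun i => (hfP i).2.1)
      (by
        intro i j x hx
        have h1 := (hfP i).2.2.1 x hx
        have h2 := (hfP j).2.2.1 x hx
        rw [h1] at h2
        exact Option.some.inj h2)
      (by
        intro i j x hx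
        have h1 := (hfP i).2.2.2.1 x hx
        have h2 := (hfP j).2.2.2.1 x hx
        rw [h1] at h2
        exact Option.some.inj h2)
      (by
        intro i j x hx hxx
        rcases lt_trichotomy i j with h | h | h
        · exact absurd hxx.symm ((hfr i j h).1 x hx x)
        · exact h
        · exact absurd hxx ((hfr j i h).1 x hx x))
      (by
        intro i j x hx hxx
        rcases lt_trichotomy i j with h | h | h
        · exact absurd hxx.symm ((hfr i j h).2 x hx x)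
        · exact h
        · exact absurd hxx ((hfr j i h).2 x hx x))
      (fun i => (hfP i).2.2.2.2)
    have hsame : Finsupp.mapDomain (sub2 (f 0).1 (f 0).2)
        (zc.filter (fun g => g ∈ (Lam N₁ k₁).prod (Lam N₂ k₂))) =
        Finsupp.mapDomain (sub2 a b) (zc.filter (fun g => g ∈ (Lam N₁ k₁).prod (Lam N₂ k₂))) := by
      apply Finsupp.mapDomain_congr
      intro g hg
      rw [Finsupp.support_filter, Finset.mem_filter] at hg
      have hgm := Subgroup.mem_prod.1 hg.2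
      have e1 : FreeGroup.map (f 0).1 g.1 = FreeGroup.map a g.1 := by
        apply map_agree_c (k := k₁) _ _ _ _ hgm.1
        intro x hx
        have h1 := (hfP 0).2.2.1 x hx
        rw [hlx x hx] at h1
        exact (Option.some.inj h1).symm
      have e2 : FreeGroup.map (f 0).2 g.2 = FreeGroup.map b g.2 := by
        apply map_agree_c (k := k₂) _ _ _ _ hgm.2
        intro x hx
        have h1 := (hfP 0).2.2.2.1 x hx
        rw [hlx' x hx] at h1
        exact (Option.some.inj h1).symm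
      exact Prod.ext e1 e2
    rw [hsame] at hav
    set x'' := rho (Finsupp.mapDomain (sub2 a b) (zc.filter (fun g => g ∈ (Lam N₁ k₁).prod (Lam N₂ k₂)))) with hx''
    set x' := rho (Finsupp.mapDomain (sub2 a b) zc) with hx'
    have hcut := cut_sub R₁ R₂ a b ha hb haR hbR zc
    obtain ⟨T3, hT3, hT3n⟩ := SB_match
      (fun s : FreeGroup Y × FreeGroup Z => (QuotientGroup.mk s : (FreeGroup Y × FreeGroup Z) ⧸ (FR R₁).prod (FR R₂)))
      (fun s : FreeGroup Y × FreeGroup Z => (QuotientGroup.mk s : (FreeGroup Y × FreeGroup Z) ⧸ (FR R₁).prod (FR R₂)))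
      (T - x')
    have hT3e : T3 = T' - x'' := by
      apply ent_ext
      intro s t
      rw [hT3, ent_sub, ent_sub, hT', hx'', hcut s t]
      simp only []
      by_cases hst : s⁻¹ * t ∈ (FR R₁).prod (FR R₂)
      · rw [if_pos hst, if_pos hst, if_pos (QuotientGroup.eq.2 hst), one_mul]
      · rw [if_neg hst, if_neg hst, if_neg (fun h => hst (QuotientGroup.eq.1 h)), zero_mul, sub_zero]
    rw [hT3e, one_mul] at hT3n
    calc Metric.infDist T' (L : Set (Op (FreeGroup Y × FreeGroup Z)))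
        ≤ Metric.infDist x'' (L : Set (Op (FreeGroup Y × FreeGroup Z))) + dist T' x'' :=
          Metric.infDist_le_infDist_add_dist
      _ ≤ (q : ℝ) + (q : ℝ) := by
          apply add_le_add hav
          rw [dist_eq_norm]
          exact hT3n.trans hnorm.le
      _ = 2 * (q : ℝ) := by ring
  have hz : Metric.infDist T' (L : Set (Op (FreeGroup Y × FreeGroup Z))) = 0 := by
    apply le_antisymm _ Metric.infDist_nonneg
    by_contra hcon
    push Not at hcon
    obtain ⟨q, hq1, hq2⟩ := exists_rat_btwn (show (0 : ℝ) <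
      Metric.infDist T' (L : Set (Op (FreeGroup Y × FreeGroup Z))) / 2 by linarith)
    have := hkey q (by exact_mod_cast hq1)
    linarith
  exact (hLc.mem_iff_infDist_zero hne).2 hz

theorem FR_countable {Y : Type} (R : Set Y) (hR : R.Countable) : Countable (FR R) := by
  unfold FR
  rw [FreeGroup.closure_eq_range]
  have h1 : (FreeGroup.of '' R).Countable := hR.image _
  have h2 : Countable (FreeGroup.of '' R : Set (FreeGroup Y)) := h1.to_subtype
  have h3 : Countable (FreeGroup (FreeGroup.of '' R : Set (FreeGroup Y))) := by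
    have := Encodable.ofCountable (FreeGroup.of '' R : Set (FreeGroup Y))
    have : Countable (List ((FreeGroup.of '' R : Set (FreeGroup Y)) × Bool)) :=
      Encodable.countable
    exact Quot.mk_surjective.countable
  exact (MonoidHom.rangeRestrict_surjective _).countable

theorem starProp_free (Y Z : Type) : StarProp (FreeGroup Y × FreeGroup Z) := by
  intro L hLD hLR
  have hLc : IsClosed (L.topologicalClosure : Set (Op (FreeGroup Y × FreeGroup Z))) :=
    L.isClosed_topologicalClosure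
  have hLcD : L.topologicalClosure ≤ Dspan _ :=
    L.topologicalClosure_minimal hLD (Submodule.isClosed_topologicalClosure _)
  have hLcR : ∀ g, ∀ T ∈ L.topologicalClosure, Rg g * T ∈ L.topologicalClosure := by
    intro g T hT
    exact map_mem_closure (continuous_const_mul (Rg g)) hT (fun x hx => hLR g x hx)
  obtain ⟨R₁, R₂, h1, h2, hcl⟩ := closing L.topologicalClosure hLc hLcD
  have hc1 : Countable (FR R₁) := FR_countable R₁ h1
  have hc2 : Countable (FR R₂) := FR_countable R₂ h2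
  have hΛ : Countable ((FR R₁).prod (FR R₂)) :=
    ((FR R₁).prodEquiv (FR R₂)).toEquiv.injective.countable
  obtain ⟨Q, hQ1, hQ2, hQ3⟩ := star_of ((FR R₁).prod (FR R₂)) hΛ 4 (by norm_num)
    (RWA_prod _ _ (RWA_free Y R₁) (RWA_free Z R₂)) L.topologicalClosure hLc hLcD hLcR hcl
  have hseq : ∀ q : Q, ∃ x : ℕ → Op (FreeGroup Y × FreeGroup Z), (∀ n, x n ∈ L) ∧
      Tendsto x atTop (𝓝 (q : Op (FreeGroup Y × FreeGroup Z))) := by
    intro q
    have hq : (q : Op (FreeGroup Y × FreeGroup Z)) ∈ closure (L : Set _) := hQ2 q.2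
    obtain ⟨x, hx1, hx2⟩ := mem_closure_iff_seq_limit.1 hq
    exact ⟨x, hx1, hx2⟩
  choose x hx1 hx2 using hseq
  have hQc : Countable Q := hQ1.to_subtype
  refine ⟨⋃ q : Q, Set.range (x q), ?_, ?_, ?_⟩
  · exact Set.countable_iUnion (fun q => Set.countable_range _)
  · intro T hT
    obtain ⟨q, n, rfl⟩ := Set.mem_iUnion.1 hT |>.imp (fun q h => h)
    exact hx1 q n
  · intro T hT
    have hT' : T ∈ closure (gspan Q : Set (Op (FreeGroup Y × FreeGroup Z))) :=
      hQ3 T (L.le_topologicalClosure hT)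
    have hsub : gspan Q ≤ (gspan (⋃ q : Q, Set.range (x q))).topologicalClosure := by
      refine Submodule.span_le.2 ?_
      rintro _ ⟨g, q, hq, rfl⟩
      have ht : Tendsto (fun n => Rg g * x ⟨q, hq⟩ n) atTop (𝓝 (Rg g * q)) :=
        (hx2 ⟨q, hq⟩).const_mul _
      refine mem_closure_of_tendsto ht (Eventually.of_forall fun n => ?_)
      exact Submodule.subset_span ⟨g, x ⟨q, hq⟩ n,
        Set.mem_iUnion.2 ⟨⟨q, hq⟩, Set.mem_range_self n⟩, rfl⟩
    have hcc : closure (gspan Q : Set (Op (FreeGroup Y × FreeGroup Z))) ⊆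
        closure (gspan (⋃ q : Q, Set.range (x q)) : Set (Op (FreeGroup Y × FreeGroup Z))) :=
      closure_minimal hsub isClosed_closure
    exact hcc hT'

end

end Pool.Agent.Helper741.Her
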