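import Pool.Agent.Helper741.Her.Defs

open Filter Topology

namespace Pool.Agent.Helper741.Her

noncomputable section

-- MODULES

def gg7374 (m : ℕ) (t : ℝ) : ℝ := if m = 0 then 0 else min 1 (max 0 (2 ^ m * t - 1))

def dd7374 (n : ℕ) (t : ℝ) : ℝ := Real.sqrt (gg7374 (n + 1) t - gg7374 n t)

theorem gg_cont7374 (m : ℕ) : Continuous (gg7374 m) := by
  unfold gg7374
  split_ifs
  · exact continuous_const
  · fun_prop

theorem dd_cont7374 (n : ℕ) : Continuous (dd7374 n) :=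
  ((gg_cont7374 (n + 1)).sub (gg_cont7374 n)).sqrt

theorem gg_nonneg7374 (m : ℕ) (t : ℝ) : 0 ≤ gg7374 m t := by
  unfold gg7374
  split_ifs
  · exact le_rfl
  · exact le_min zero_le_one (le_max_left _ _)

theorem gg_le_one7374 (m : ℕ) (t : ℝ) : gg7374 m t ≤ 1 := by
  unfold gg7374
  split_ifs
  · exact zero_le_one
  · exact min_le_left _ _

theorem gg_zero7374 (m : ℕ) : gg7374 m 0 = 0 := by
  unfold gg7374
  split_ifs
  · rfl
  · norm_num

theorem gg_mono7374 (n : ℕ) {t : ℝ} (ht : 0 ≤ t) : gg7374 n t ≤ gg7374 (n + 1) t := by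
  rcases Nat.eq_zero_or_pos n with h | h
  · subst h
    have : gg7374 0 t = 0 := by unfold gg7374; simp
    rw [this]
    exact gg_nonneg7374 _ _
  · unfold gg7374
    rw [if_neg (by omega), if_neg (by omega)]
    apply min_le_min le_rfl
    apply max_le_max le_rfl
    have : (2 : ℝ) ^ n * t ≤ 2 ^ (n + 1) * t := by
      apply mul_le_mul_of_nonneg_right _ ht
      exact pow_le_pow_right₀ (by norm_num) (by omega)
    linarith

theorem gg_eq_one7374 {m : ℕ} (hm : 1 ≤ m) {t : ℝ} (h : 2 ≤ 2 ^ m * t) : gg7374 m t = 1 := by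
  unfold gg7374
  rw [if_neg (by omega), max_eq_right (by linarith), min_eq_left (by linarith)]

theorem dd_sq7374 (n : ℕ) {t : ℝ} (ht : 0 ≤ t) :
    dd7374 n t * dd7374 n t = gg7374 (n + 1) t - gg7374 n t :=
  Real.mul_self_sqrt (sub_nonneg.2 (gg_mono7374 n ht))

theorem dd_zero7374 (n : ℕ) : dd7374 n 0 = 0 := by
  unfold dd7374
  rw [gg_zero7374, gg_zero7374]; simp

theorem dd_abs_le7374 (n : ℕ) (t : ℝ) : |dd7374 n t| ≤ 1 := by
  unfold dd7374
  rw [abs_of_nonneg (Real.sqrt_nonneg _)]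
  rw [Real.sqrt_le_one]
  have := gg_nonneg7374 n t
  have := gg_le_one7374 (n + 1) t
  linarith

theorem dd_mul7374 {n m : ℕ} (h : n + 2 ≤ m) {t : ℝ} (ht : 0 ≤ t) :
    dd7374 n t * dd7374 m t = 0 := by
  by_cases h0 : 1 < 2 ^ (n + 1) * t
  · have h1 : 2 ≤ 2 ^ m * t := by
      have h2 : (2 : ℝ) ^ (n + 2) ≤ 2 ^ m := pow_le_pow_right₀ (by norm_num) h
      have h3 : (2 : ℝ) ^ (n + 2) * t ≤ 2 ^ m * t := mul_le_mul_of_nonneg_right h2 ht
      have h4 : (2 : ℝ) ^ (n + 2) * t = 2 * (2 ^ (n + 1) * t) := by ring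
      linarith
    have h2 : 2 ≤ 2 ^ (m + 1) * t := by
      have h3 : (2 : ℝ) ^ (m + 1) * t = 2 * (2 ^ m * t) := by ring
      linarith
    have : dd7374 m t = 0 := by
      unfold dd7374
      rw [gg_eq_one7374 (by omega) h1, gg_eq_one7374 (by omega) h2]; simp
    rw [this, mul_zero]
  · push Not at h0
    have h1 : gg7374 (n + 1) t = 0 := by
      unfold gg7374
      rw [if_neg (by omega), max_eq_left (by linarith)]; simp
    have : dd7374 n t = 0 := by
      unfold dd7374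
      rw [h1]
      apply Real.sqrt_eq_zero_of_nonpos
      have := gg_nonneg7374 n t
      linarith
    rw [this, zero_mul]

theorem sum_abs_le7374 (P : Finset ℕ) (f : ℕ → ℝ) (h1 : ∀ i, |f i| ≤ 1)
    (h2 : ∀ i ∈ P, ∀ j ∈ P, i ≠ j → f i * f j = 0) : ∑ i ∈ P, |f i| ≤ 1 := by
  by_cases h : ∃ i ∈ P, f i ≠ 0
  · obtain ⟨i, hi, hfi⟩ := h
    rw [Finset.sum_eq_single i]
    · exact h1 i
    · intro j hj hji
      rcases mul_eq_zero.1 (h2 i hi j hj hji.symm) with h3 | h3
      · exact absurd h3 hfi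
      · rw [h3, abs_zero]
    · intro h3; exact absurd hi h3
  · push Not at h
    rw [Finset.sum_eq_zero]
    · exact zero_le_one
    · intro i hi; rw [h i hi, abs_zero]

theorem sum_dd_le7374 (N : Finset ℕ) {t : ℝ} (ht : 0 ≤ t) : ∑ n ∈ N, |dd7374 n t| ≤ 2 := by
  rw [← Finset.sum_filter_add_sum_filter_not N (fun n => n % 2 = 0)]
  have key : ∀ i j : ℕ, i % 2 = j % 2 → i ≠ j → dd7374 i t * dd7374 j t = 0 := by
    intro i j hij hne
    rcases Nat.lt_or_gt_of_ne hne with h | h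
    · exact dd_mul7374 (by omega) ht
    · rw [mul_comm]; exact dd_mul7374 (by omega) ht
  have a1 := sum_abs_le7374 (N.filter (fun n => n % 2 = 0)) (fun n => dd7374 n t)
    (fun n => dd_abs_le7374 n t) (by
      intro i hi j hj hne
      rw [Finset.mem_filter] at hi hj
      exact key i j (by omega) hne)
  have a2 := sum_abs_le7374 (N.filter (fun n => ¬ n % 2 = 0)) (fun n => dd7374 n t)
    (fun n => dd_abs_le7374 n t) (by
      intro i hi j hj hne
      rw [Finset.mem_filter] at hi hj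
      exact key i j (by omega) hne)
  linarith

theorem gg_bound7374 {m : ℕ} (hm : 1 ≤ m) {t : ℝ} (ht : 0 ≤ t) :
    |(1 - gg7374 m t) * t * (1 - gg7374 m t)| ≤ 2 * (1 / 2) ^ m := by
  have h0 : (0 : ℝ) < 2 ^ m := by positivity
  by_cases h : 2 ≤ 2 ^ m * t
  · rw [gg_eq_one7374 hm h]
    simp
  · push Not at h
    have h1 : t ≤ 2 * (1 / 2) ^ m := by
      rw [one_div, inv_pow, ← div_eq_mul_inv, le_div_iff₀ h0]
      linarith
    have h2 := gg_nonneg7374 m t
    have h3 := gg_le_one7374 m t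
    rw [abs_of_nonneg (by
      have : 0 ≤ 1 - gg7374 m t := by linarith
      positivity)]
    have h4 : (1 - gg7374 m t) * t * (1 - gg7374 m t) ≤ 1 * t * 1 := by
      have : 0 ≤ 1 - gg7374 m t := by linarith
      apply mul_le_mul _ (by linarith) this (by positivity)
      exact mul_le_mul_of_nonneg_right (by linarith) ht
    linarith

section B7374
variable {𝔸 : Type} [CStarAlgebra 𝔸] [PartialOrder 𝔸] [StarOrderedRing 𝔸]

theorem signed7374 {h : 𝔸} (hh : 0 ≤ h) (N : Finset ℕ) (ε : ℕ → ℝ) (hε : ∀ n, ε n = 1 ∨ ε n = -1) :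
    ‖∑ n ∈ N, ((ε n : ℝ) : ℂ) • cfc (dd7374 n) h‖ ≤ 2 := by
  have hsa : IsSelfAdjoint h := hh.isSelfAdjoint
  have e1 : ∀ n, ((ε n : ℝ) : ℂ) • cfc (dd7374 n) h = cfc (fun t => ε n * dd7374 n t) h := by
    intro n
    rw [cfc_const_mul (ε n) (dd7374 n) h (dd_cont7374 n).continuousOn, Complex.coe_smul]
  rw [Finset.sum_congr rfl (fun n _ => e1 n), ← cfc_sum (fun n t => ε n * dd7374 n t) h N
    (fun n _ => (continuous_const.mul (dd_cont7374 n)).continuousOn)]
  apply norm_cfc_le (by norm_num)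
  intro t ht
  have ht0 : 0 ≤ t := spectrum_nonneg_of_nonneg hh ht
  rw [Finset.sum_apply]
  refine (norm_sum_le _ _).trans ?_
  refine le_trans (le_of_eq ?_) (sum_dd_le7374 N ht0)
  apply Finset.sum_congr rfl
  intro n _
  rw [norm_mul, Real.norm_eq_abs, Real.norm_eq_abs]
  rcases hε n with h | h <;> rw [h] <;> simp

theorem mul_zero7374 {h : 𝔸} (hh : 0 ≤ h) {n m : ℕ} (hnm : n + 2 ≤ m) :
    cfc (dd7374 n) h * cfc (dd7374 m) h = 0 := by
  rw [← cfc_mul (dd7374 n) (dd7374 m) h (dd_cont7374 n).continuousOn (dd_cont7374 m).continuousOn]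
  have e : (spectrum ℝ h).EqOn (fun t => dd7374 n t * dd7374 m t) (fun _ => 0) := by
    intro t ht
    exact dd_mul7374 hnm (spectrum_nonneg_of_nonneg hh ht)
  rw [cfc_congr e, cfc_const_zero]

theorem sum_sq7374 {h : 𝔸} (hh : 0 ≤ h) (m : ℕ) :
    ∑ n ∈ Finset.range m, cfc (dd7374 n) h * cfc (dd7374 n) h = cfc (gg7374 m) h := by
  have e1 : ∀ n, cfc (dd7374 n) h * cfc (dd7374 n) h =
      cfc (fun t => dd7374 n t * dd7374 n t) h := by
    intro n
    rw [cfc_mul (dd7374 n) (dd7374 n) h (dd_cont7374 n).continuousOn (dd_cont7374 n).continuousOn]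
  rw [Finset.sum_congr rfl (fun n _ => e1 n), ← cfc_sum (fun n t => dd7374 n t * dd7374 n t) h _
    (fun n _ => ((dd_cont7374 n).mul (dd_cont7374 n)).continuousOn)]
  apply cfc_congr
  intro t ht
  have ht0 : 0 ≤ t := spectrum_nonneg_of_nonneg hh ht
  rw [Finset.sum_apply]
  have : ∀ n ∈ Finset.range m, dd7374 n t * dd7374 n t = gg7374 (n + 1) t - gg7374 n t :=
    fun n _ => dd_sq7374 n ht0
  rw [Finset.sum_congr rfl this, Finset.sum_range_sub (fun n => gg7374 n t)]
  have h0 : gg7374 0 t = 0 := by unfold gg7374; simp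
  rw [h0, sub_zero]

omit [PartialOrder 𝔸] [StarOrderedRing 𝔸] in
theorem norm_gg7374 (h : 𝔸) (m : ℕ) : ‖cfc (gg7374 m) h‖ ≤ 1 := by
  apply norm_cfc_le zero_le_one
  intro t _
  rw [Real.norm_eq_abs, abs_of_nonneg (gg_nonneg7374 m t)]
  exact gg_le_one7374 m t

theorem approx7374 {h : 𝔸} (hh : 0 ≤ h) {c : 𝔸} {a : ℝ} (ha : 0 < a)
    (hc : a • (star c * c) ≤ h) {m : ℕ} (hm : 1 ≤ m) :
    ‖c - c * cfc (gg7374 m) h‖ ^ 2 ≤ a⁻¹ * (2 * (1 / 2) ^ m) := by
  have hsa : IsSelfAdjoint h := hh.isSelfAdjoint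
  obtain ⟨E, hE⟩ : ∃ E, E = cfc (gg7374 m) h := ⟨_, rfl⟩
  have hEs : star E = E := by
    rw [hE]
    exact (cfc_predicate (gg7374 m) h).star_eq
  have h1 : c - c * cfc (gg7374 m) h = c * (1 - E) := by rw [hE, mul_sub, mul_one]
  have h2 : ‖c * (1 - E)‖ ^ 2 = ‖star (1 - E) * (star c * c) * (1 - E)‖ := by
    rw [sq, ← CStarRing.norm_star_mul_self, star_mul]
    simp only [mul_assoc]
  have h3 : star c * c ≤ a⁻¹ • h := by
    have := smul_le_smul_of_nonneg_left hc (inv_nonneg.2 ha.le)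
    rwa [smul_smul, inv_mul_cancel₀ ha.ne', one_smul] at this
  have h4 : star (1 - E) * (star c * c) * (1 - E) ≤ star (1 - E) * (a⁻¹ • h) * (1 - E) :=
    star_left_conjugate_le_conjugate h3 _
  have h5 : 0 ≤ star (1 - E) * (star c * c) * (1 - E) :=
    star_left_conjugate_nonneg (star_mul_self_nonneg c) _
  have h6 := CStarAlgebra.norm_le_norm_of_nonneg_of_le h5 h4
  have h7 : star (1 - E) * (a⁻¹ • h) * (1 - E) = a⁻¹ • ((1 - E) * h * (1 - E)) := by
    rw [star_sub, star_one, hEs]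
    simp only [mul_smul_comm, smul_mul_assoc]
  have h8 : (1 - E) * h * (1 - E) = cfc (fun t => (1 - gg7374 m t) * t * (1 - gg7374 m t)) h := by
    have hcE : 1 - E = cfc (fun t => 1 - gg7374 m t) h := by
      rw [cfc_sub (fun _ => (1 : ℝ)) (gg7374 m) h continuousOn_const (gg_cont7374 m).continuousOn,
        cfc_const_one ℝ h, hE]
    have hcont : Continuous (fun t => 1 - gg7374 m t) := continuous_const.sub (gg_cont7374 m)
    rw [cfc_mul (fun t => (1 - gg7374 m t) * t) (fun t => 1 - gg7374 m t) h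
      (hcont.mul continuous_id).continuousOn hcont.continuousOn,
      cfc_mul (fun t => (1 - gg7374 m t)) (fun t => t) h hcont.continuousOn
      continuous_id.continuousOn, ← hcE]
    have : cfc (fun t : ℝ => t) h = h := cfc_id' ℝ h
    rw [this]
  rw [h1, h2]
  refine h6.trans ?_
  rw [h7, norm_smul, Real.norm_eq_abs, abs_of_pos (inv_pos.2 ha)]
  apply mul_le_mul_of_nonneg_left _ (inv_pos.2 ha).le
  rw [h8]
  apply norm_cfc_le (by positivity)
  intro t ht
  exact gg_bound7374 hm (spectrum_nonneg_of_nonneg hh ht)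

end B7374

theorem mem_L7374 {𝔸 : Type} [CStarAlgebra 𝔸] (R : NonUnitalStarSubalgebra ℂ 𝔸)
    (L : Submodule ℂ 𝔸) (hLc : IsClosed (L : Set 𝔸)) (hLR : ∀ x ∈ L, x ∈ R)
    (hL : ∀ a ∈ R, ∀ x ∈ L, a * x ∈ L) {h : 𝔸} (hh : h ∈ L) (hsa : IsSelfAdjoint h)
    (f : ℝ → ℝ) (hf : Continuous f) (h0 : f 0 = 0) : cfc f h ∈ L := by
  let S : NonUnitalStarSubalgebra ℂ 𝔸 := {
    carrier := {x | x ∈ L ∧ star x ∈ L}
    add_mem' := fun hx hy => ⟨L.add_mem hx.1 hy.1, by rw [star_add]; exact L.add_mem hx.2 hy.2⟩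
    zero_mem' := ⟨L.zero_mem, by rw [star_zero]; exact L.zero_mem⟩
    mul_mem' := fun hx hy => ⟨hL _ (hLR _ hx.1) _ hy.1, by
      rw [star_mul]; exact hL _ (hLR _ hy.2) _ hx.2⟩
    smul_mem' := fun c x hx => ⟨L.smul_mem c hx.1, by
      rw [star_smul]; exact L.smul_mem _ hx.2⟩
    star_mem' := fun hx => ⟨hx.2, by rw [star_star]; exact hx.1⟩ }
  have hS : IsClosed (S : Set 𝔸) := hLc.inter (hLc.preimage continuous_star)
  have h1 : cfcₙ f h ∈ S := cfcₙ_mem f ⟨hh, by rwa [hsa.star_eq]⟩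
  rw [cfcₙ_eq_cfc hf.continuousOn h0] at h1
  exact h1.1

theorem seq_of_countable {𝔸 : Type} [CStarAlgebra 𝔸] (R : NonUnitalStarSubalgebra ℂ 𝔸)
    (L : Submodule ℂ 𝔸) (hLc : IsClosed (L : Set 𝔸)) (hLR : ∀ x ∈ L, x ∈ R)
    (hL : ∀ a ∈ R, ∀ x ∈ L, a * x ∈ L) (Q : Set 𝔸)
    (hQ : Q.Countable) (hQL : Q ⊆ L)
    (hgen : ∀ x ∈ L, x ∈ closure (Submodule.span ℂ {y : 𝔸 | ∃ b ∈ R, ∃ q ∈ Q, y = b * q} : Set 𝔸)) :
    ∃ D : ℕ → 𝔸, (∀ n, D n ∈ L) ∧
      (∀ (N : Finset ℕ) (ε : ℕ → ℝ), (∀ n, ε n = 1 ∨ ε n = -1) →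
        ‖∑ n ∈ N, ((ε n : ℝ) : ℂ) • D n‖ ≤ 2) ∧
      (∀ n m, n + 2 ≤ m → D n * D m = 0) ∧
      ∀ x ∈ L, Tendsto (fun m => ∑ n ∈ Finset.range m, x * (D n * D n)) atTop (𝓝 x) := by
  let _ := CStarAlgebra.spectralOrder 𝔸
  have := CStarAlgebra.spectralOrderedRing 𝔸
  -- enumeration of the generators
  obtain ⟨c, hcL, hcQ⟩ : ∃ c : ℕ → 𝔸, (∀ k, c k ∈ L) ∧ Q ⊆ Set.range c := by
    rcases Q.eq_empty_or_nonempty with h | h
    · exact ⟨fun _ => 0, fun _ => L.zero_mem, by rw [h]; exact Set.empty_subset _⟩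
    · obtain ⟨f, hf⟩ := hQ.exists_eq_range h
      exact ⟨f, fun k => hQL (by rw [hf]; exact ⟨k, rfl⟩), by rw [hf]⟩
  obtain ⟨a, ha⟩ : ∃ a : ℕ → ℝ, a = fun k => (1 / 2) ^ k / (1 + ‖c k‖ ^ 2) := ⟨_, rfl⟩
  have ha0 : ∀ k, 0 < a k := by intro k; rw [ha]; positivity
  have hs : Summable (fun k => a k • (star (c k) * c k)) := by
    apply Summable.of_norm_bounded (g := fun k : ℕ => (1 / 2 : ℝ) ^ k)
      (summable_geometric_of_lt_one (by norm_num) (by norm_num))
    intro k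
    rw [norm_smul, CStarRing.norm_star_mul_self, Real.norm_eq_abs, abs_of_pos (ha0 k), ha]
    simp only
    rw [div_mul_eq_mul_div, div_le_iff₀ (by positivity), ← sq]
    apply mul_le_mul_of_nonneg_left _ (by positivity)
    linarith
  have hnn : ∀ k, 0 ≤ a k • (star (c k) * c k) := fun k =>
    smul_nonneg (ha0 k).le (star_mul_self_nonneg _)
  obtain ⟨h, hh⟩ : ∃ h, h = ∑' k, a k • (star (c k) * c k) := ⟨_, rfl⟩
  have hh0 : 0 ≤ h := by rw [hh]; exact tsum_nonneg hnn
  have hhk : ∀ k, a k • (star (c k) * c k) ≤ h := by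
    intro k
    rw [hh]
    exact hs.le_tsum k (fun j _ => hnn j)
  have hhL : h ∈ L := by
    rw [hh]
    refine hLc.mem_of_tendsto hs.hasSum.tendsto_sum_nat (Filter.Eventually.of_forall fun m => ?_)
    refine L.sum_mem fun k _ => ?_
    have h1 : star (c k) * c k ∈ L := hL _ (star_mem (hLR _ (hcL k))) _ (hcL k)
    have h2 := L.smul_mem ((a k : ℝ) : ℂ) h1
    rwa [Complex.coe_smul] at h2
  have hsa : IsSelfAdjoint h := hh0.isSelfAdjoint
  refine ⟨fun n => cfc (dd7374 n) h, fun n => mem_L7374 R L hLc hLR hL hhL hsa _ (dd_cont7374 n)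
    (dd_zero7374 n), fun N ε hε => signed7374 hh0 N ε hε, fun n m hnm => mul_zero7374 hh0 hnm, ?_⟩
  -- the approximate unit property
  have key : ∀ x : 𝔸, (fun m => ∑ n ∈ Finset.range m, x * (cfc (dd7374 n) h * cfc (dd7374 n) h)) =
      fun m => x * cfc (gg7374 m) h := by
    intro x
    funext m
    rw [← Finset.mul_sum, sum_sq7374 hh0]
  intro x hx
  rw [key x]
  -- the set of good elements
  have hc : ∀ k, Tendsto (fun m => c k * cfc (gg7374 m) h) atTop (𝓝 (c k)) := by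
    intro k
    rw [tendsto_iff_norm_sub_tendsto_zero]
    have h1 : Tendsto (fun m : ℕ => (a k)⁻¹ * (2 * (1 / 2 : ℝ) ^ m)) atTop (𝓝 0) := by
      have := (tendsto_pow_atTop_nhds_zero_of_lt_one (r := (1 / 2 : ℝ)) (by norm_num)
        (by norm_num)).const_mul 2
      have := this.const_mul (a k)⁻¹
      simpa using this
    have h2 : Tendsto (fun m : ℕ => ‖c k - c k * cfc (gg7374 m) h‖ ^ 2) atTop (𝓝 0) := by
      refine squeeze_zero' (Filter.Eventually.of_forall fun m => sq_nonneg _) ?_ h1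
      filter_upwards [eventually_ge_atTop 1] with m hm
      exact approx7374 hh0 (ha0 k) (hhk k) hm
    have h3 := h2.sqrt
    rw [Real.sqrt_zero] at h3
    refine h3.congr fun m => ?_
    rw [Real.sqrt_sq (norm_nonneg _), norm_sub_rev]
  have hspan : ∀ y ∈ Submodule.span ℂ {y : 𝔸 | ∃ b ∈ R, ∃ q ∈ Q, y = b * q},
      Tendsto (fun m => y * cfc (gg7374 m) h) atTop (𝓝 y) := by
    intro y hy
    induction hy using Submodule.span_induction with
    | mem y hy =>
      obtain ⟨b, -, q, hq, rfl⟩ := hy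
      obtain ⟨k, rfl⟩ := hcQ hq
      have := (hc k).const_mul b
      simpa only [mul_assoc] using this
    | zero => simp
    | add u v _ _ hu hv =>
      have := hu.add hv
      simpa only [add_mul] using this
    | smul r u _ hu =>
      have := hu.const_smul r
      simpa only [smul_mul_assoc] using this
  rw [Metric.tendsto_atTop]
  intro e he
  obtain ⟨y, hy, hxy⟩ := Metric.mem_closure_iff.1 (hgen x hx) (e / 3) (by positivity)
  obtain ⟨M, hM⟩ := Metric.tendsto_atTop.1 (hspan y hy) (e / 3) (by positivity)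
  refine ⟨M, fun m hm => ?_⟩
  have h1 := hM m hm
  rw [dist_eq_norm] at h1 hxy ⊢
  have e1 : x * cfc (gg7374 m) h - x = (x - y) * cfc (gg7374 m) h +
      (y * cfc (gg7374 m) h - y) - (x - y) := by
    rw [sub_mul]; abel
  rw [e1]
  have h2 : ‖(x - y) * cfc (gg7374 m) h‖ ≤ ‖x - y‖ := by
    refine (norm_mul_le _ _).trans ?_
    have := norm_gg7374 h m
    have := norm_nonneg (x - y)
    nlinarith
  have h3 := norm_sub_le ((x - y) * cfc (gg7374 m) h + (y * cfc (gg7374 m) h - y)) (x - y)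
  have h4 := norm_add_le ((x - y) * cfc (gg7374 m) h) (y * cfc (gg7374 m) h - y)
  linarith

theorem ps_signs {V W X : Type*} [AddCommGroup V] [Module ℂ V] [AddCommGroup W] [Module ℂ W]
    [NormedAddCommGroup X] [NormedSpace ℂ X] (B : V →ₗ[ℂ] W →ₗ[ℂ] X) (u : ℕ → V) (v : ℕ → W)
    (K : ℝ) (N : Finset ℕ) : ∀ (u0 : V) (v0 : W),
    (∀ ε : ℕ → ℝ, (∀ n, ε n = 1 ∨ ε n = -1) →
      ‖B (u0 + ∑ n ∈ N, ((ε n : ℝ) : ℂ) • u n) (v0 + ∑ n ∈ N, ((ε n : ℝ) : ℂ) • v n)‖ ≤ K) →
    ‖B u0 v0 + ∑ n ∈ N, B (u n) (v n)‖ ≤ K := by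
  induction N using Finset.induction_on with
  | empty =>
    intro u0 v0 h
    have := h (fun _ => 1) (fun _ => Or.inl rfl)
    simpa using this
  | insert a N ha ih =>
    intro u0 v0 h
    have key : ∀ c : ℝ, (c = 1 ∨ c = -1) →
        ‖B (u0 + (c : ℂ) • u a) (v0 + (c : ℂ) • v a) + ∑ n ∈ N, B (u n) (v n)‖ ≤ K := by
      intro c hc
      apply ih
      intro ε hε
      have h1 := h (Function.update ε a c) (by
        intro n
        by_cases hn : n = a
        · subst hn; simpa using hc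
        · rw [Function.update_of_ne hn]; exact hε n)
      rw [Finset.sum_insert ha, Finset.sum_insert ha, Function.update_self] at h1
      have e1 : ∑ n ∈ N, ((Function.update ε a c n : ℝ) : ℂ) • u n = ∑ n ∈ N, ((ε n : ℝ) : ℂ) • u n :=
        Finset.sum_congr rfl (fun n hn => by
          have hna : n ≠ a := by
            rintro rfl
            exact ha hn
          rw [Function.update_of_ne hna])
      have e2 : ∑ n ∈ N, ((Function.update ε a c n : ℝ) : ℂ) • v n = ∑ n ∈ N, ((ε n : ℝ) : ℂ) • v n :=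
        Finset.sum_congr rfl (fun n hn => by
          have hna : n ≠ a := by
            rintro rfl
            exact ha hn
          rw [Function.update_of_ne hna])
      rw [e1, e2, ← add_assoc, ← add_assoc] at h1
      exact h1
    have k1 := key 1 (Or.inl rfl)
    have k2 := key (-1) (Or.inr rfl)
    rw [Finset.sum_insert ha]
    set S := ∑ n ∈ N, B (u n) (v n) with hS
    have e : (2 : ℂ) • (B u0 v0 + (B (u a) (v a) + S)) =
        (B (u0 + ((1 : ℝ) : ℂ) • u a) (v0 + ((1 : ℝ) : ℂ) • v a) + S) +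
        (B (u0 + ((-1 : ℝ) : ℂ) • u a) (v0 + ((-1 : ℝ) : ℂ) • v a) + S) := by
      simp only [Complex.ofReal_one, Complex.ofReal_neg, one_smul, neg_smul, map_add, map_neg,
        LinearMap.add_apply, LinearMap.neg_apply, neg_neg, two_smul]
      abel
    have h3 : ‖(2 : ℂ) • (B u0 v0 + (B (u a) (v a) + S))‖ ≤ K + K := by
      rw [e]
      exact (norm_add_le _ _).trans (add_le_add k1 k2)
    rw [norm_smul] at h3
    have : ‖(2 : ℂ)‖ = 2 := by simp
    rw [this] at h3
    linarith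

theorem proj_of_seq.{u} {R : Type} [NonUnitalNormedRing R] [NormedSpace ℂ R] [IsScalarTower ℂ R R]
    [SMulCommClass ℂ R R] (L : Submodule ℂ R) (hL : ∀ a x : R, x ∈ L → a * x ∈ L) (D : ℕ → R)
    (hD : ∀ n, D n ∈ L)
    (h2 : ∀ (N : Finset ℕ) (ε : ℕ → ℝ), (∀ n, ε n = 1 ∨ ε n = -1) →
        ‖∑ n ∈ N, ((ε n : ℝ) : ℂ) • D n‖ ≤ 2)
    (h0 : ∀ n m, n + 2 ≤ m → D n * D m = 0)
    (hx : ∀ x ∈ L, Tendsto (fun m => ∑ n ∈ Finset.range m, x * (D n * D n)) atTop (𝓝 x)) :
    IsProjective.{u} (idealModule L hL) := by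
  intro X Y _ _ _ _ _ _ mX mY σ hσ r hr φ hφ
  set D' : ℕ → L := fun n => ⟨D n, hD n⟩ with hD'
  set C : ℝ := ‖mX.act‖ * (‖r‖ * ‖φ‖) with hC
  have hC0 : 0 ≤ C := by positivity
  -- the bilinear map
  let B : R →ₗ[ℂ] L →ₗ[ℂ] X :=
    LinearMap.mk₂ ℂ (fun (a : R) (y : L) => mX.act a (r (φ y)))
      (fun a b y => by simp) (fun c a y => by simp) (fun a y z => by simp) (fun c a y => by simp)
  have hB : ∀ a y, B a y = mX.act a (r (φ y)) := fun a y => rfl
  have hBn : ∀ a y, ‖B a y‖ ≤ C * ‖a‖ * ‖y‖ := by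
    intro a y
    rw [hB]
    calc ‖mX.act a (r (φ y))‖ ≤ ‖mX.act a‖ * ‖r (φ y)‖ := ContinuousLinearMap.le_opNorm _ _
      _ ≤ (‖mX.act‖ * ‖a‖) * (‖r‖ * (‖φ‖ * ‖y‖)) := by
          apply mul_le_mul (ContinuousLinearMap.le_opNorm _ _) _ (norm_nonneg _) (by positivity)
          exact (ContinuousLinearMap.le_opNorm _ _).trans
            (mul_le_mul_of_nonneg_left (ContinuousLinearMap.le_opNorm _ _) (norm_nonneg _))
      _ = C * ‖a‖ * ‖y‖ := by rw [hC]; ring
  -- key estimate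
  have key : ∀ (x : R) (N : Finset ℕ) (M : ℝ),
      (∀ ε : ℕ → ℝ, (∀ n, ε n = 1 ∨ ε n = -1) → ‖x * ∑ n ∈ N, ((ε n : ℝ) : ℂ) • D n‖ ≤ M) →
      ‖∑ n ∈ N, B (x * D n) (D' n)‖ ≤ C * M * 2 := by
    intro x N M hM
    have h := ps_signs B (fun n => x * D n) D' (C * M * 2) N 0 0 (by
      intro ε hε
      rw [zero_add, zero_add]
      have e1 : ∑ n ∈ N, ((ε n : ℝ) : ℂ) • (x * D n) = x * ∑ n ∈ N, ((ε n : ℝ) : ℂ) • D n := by
        rw [Finset.mul_sum]
        exact Finset.sum_congr rfl (fun n _ => (mul_smul_comm _ _ _).symm)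
      have e2 : ‖∑ n ∈ N, ((ε n : ℝ) : ℂ) • D' n‖ ≤ 2 := by
        have := h2 N ε hε
        have e3 : ((∑ n ∈ N, ((ε n : ℝ) : ℂ) • D' n : L) : R) = ∑ n ∈ N, ((ε n : ℝ) : ℂ) • D n := by
          rw [Submodule.coe_sum]
          rfl
        rw [← e3] at this
        exact this
      have hM' := hM ε hε
      rw [← e1] at hM'
      refine (hBn _ _).trans ?_
      have hM0 : 0 ≤ M := (norm_nonneg _).trans hM'
      exact mul_le_mul (mul_le_mul_of_nonneg_left hM' hC0) e2 (norm_nonneg _) (by positivity))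
    rw [map_zero, zero_add] at h
    exact h
  -- summability
  have hsum : ∀ x : L, Summable (fun n => B ((x : R) * D n) (D' n)) := by
    intro x
    rw [summable_iff_vanishing_norm]
    intro δ hδ
    have hC1 : 0 < C + 1 := by linarith
    obtain ⟨m, hm⟩ := ((Metric.tendsto_atTop.1 (hx x x.2)) (δ / (8 * (C + 1))) (by positivity))
    have hm' := hm m le_rfl
    rw [dist_eq_norm, norm_sub_rev] at hm'
    refine ⟨Finset.range (m + 1), fun t ht => ?_⟩
    have hk := key x t (δ / (8 * (C + 1)) * 2) (by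
      intro ε hε
      have e1 : (∑ k ∈ Finset.range m, (x : R) * (D k * D k)) *
          ∑ n ∈ t, ((ε n : ℝ) : ℂ) • D n = 0 := by
        rw [Finset.sum_mul]
        apply Finset.sum_eq_zero
        intro k hk
        rw [Finset.mul_sum]
        apply Finset.sum_eq_zero
        intro n hn
        have hn' : m + 1 ≤ n := by
          by_contra hcon
          exact (Finset.disjoint_left.1 ht hn) (Finset.mem_range.2 (by omega))
        rw [mul_smul_comm, mul_assoc, mul_assoc, h0 k n (by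
          have := Finset.mem_range.1 hk
          omega), mul_zero, mul_zero, smul_zero]
      have e2 : (x : R) * ∑ n ∈ t, ((ε n : ℝ) : ℂ) • D n =
          ((x : R) - ∑ k ∈ Finset.range m, (x : R) * (D k * D k)) *
          ∑ n ∈ t, ((ε n : ℝ) : ℂ) • D n := by
        rw [sub_mul, e1, sub_zero]
      rw [e2]
      exact (norm_mul_le _ _).trans
        (mul_le_mul hm'.le (h2 t ε hε) (norm_nonneg _) (by positivity)))
    refine lt_of_le_of_lt hk ?_
    have : C * (δ / (8 * (C + 1)) * 2) * 2 = (C / (C + 1)) * (δ / 2) := by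
      field_simp
      ring
    rw [this]
    have h3 : C / (C + 1) ≤ 1 := by
      rw [div_le_one hC1]; linarith
    have h4 : (C / (C + 1)) * (δ / 2) ≤ 1 * (δ / 2) :=
      mul_le_mul_of_nonneg_right h3 (by linarith)
    linarith
  -- definition of the lift
  let ψ0 : L →ₗ[ℂ] X :=
    { toFun := fun x => ∑' n, B ((x : R) * D n) (D' n)
      map_add' := by
        intro x y
        rw [← (hsum x).tsum_add (hsum y)]
        congr 1
        funext n
        rw [Submodule.coe_add, add_mul, map_add, LinearMap.add_apply]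
      map_smul' := by
        intro c x
        rw [RingHom.id_apply, ← (hsum x).tsum_const_smul c]
        congr 1
        funext n
        rw [Submodule.coe_smul, smul_mul_assoc, map_smul, LinearMap.smul_apply] }
  have hψ0 : ∀ x : L, ψ0 x = ∑' n, B ((x : R) * D n) (D' n) := fun x => rfl
  have hbound : ∀ x : L, ‖ψ0 x‖ ≤ (C * 4) * ‖x‖ := by
    intro x
    rw [hψ0]
    refine le_of_tendsto (hsum x).hasSum.norm (Eventually.of_forall fun N => ?_)
    have h := key x N (‖(x : R)‖ * 2) (fun ε hε => (norm_mul_le _ _).trans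
      (mul_le_mul_of_nonneg_left (h2 N ε hε) (norm_nonneg _)))
    have e : C * (‖(x : R)‖ * 2) * 2 = (C * 4) * ‖x‖ := by
      rw [Submodule.coe_norm]; ring
    rw [e] at h
    exact h
  let ψ : L →L[ℂ] X := ψ0.mkContinuous (C * 4) hbound
  have hψ : ∀ x : L, ψ x = ∑' n, B ((x : R) * D n) (D' n) := fun x => rfl
  refine ⟨ψ, ?_, ?_⟩
  · intro a p
    rw [hψ, hψ, ContinuousLinearMap.map_tsum _ (hsum p)]
    congr 1
    funext n
    rw [hB, hB]
    have e1 : (((idealModule L hL).act a p : L) : R) = a * (p : R) := rfl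
    rw [e1, mul_assoc, mX.mul_act]
  · intro p
    have h1 : HasSum (fun n => σ (B ((p : R) * D n) (D' n))) (σ (ψ p)) := by
      rw [hψ]
      exact σ.hasSum (hsum p).hasSum
    have h3 := h1.tendsto_sum_nat
    have h4 : ∀ n, σ (B ((p : R) * D n) (D' n)) = φ ((idealModule L hL).act ((p : R) * D n) (D' n)) := by
      intro n
      rw [hB, hσ, hr, hφ]
    have h5 : ∀ m, ∑ n ∈ Finset.range m, σ (B ((p : R) * D n) (D' n)) =
        φ (∑ n ∈ Finset.range m, (idealModule L hL).act ((p : R) * D n) (D' n)) := by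
      intro m
      rw [map_sum]
      exact Finset.sum_congr rfl (fun n _ => h4 n)
    have h6 : Tendsto (fun m => ∑ n ∈ Finset.range m,
        (idealModule L hL).act ((p : R) * D n) (D' n)) atTop (𝓝 p) := by
      rw [tendsto_subtype_rng]
      have := hx p p.2
      refine this.congr (fun m => ?_)
      rw [Submodule.coe_sum]
      refine Finset.sum_congr rfl (fun n _ => ?_)
      have e1 : (((idealModule L hL).act ((p : R) * D n) (D' n) : L) : R) = (p : R) * D n * D n := rfl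
      rw [e1, mul_assoc]
    have h7 : Tendsto (fun m => ∑ n ∈ Finset.range m, σ (B ((p : R) * D n) (D' n))) atTop (𝓝 (φ p)) := by
      simp only [h5]
      exact (φ.continuous.tendsto p).comp h6
    exact tendsto_nhds_unique h3 h7

end

end Pool.Agent.Helper741.Her
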