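import Pool.Agent.Helper741.Her.PingPong

open Filter Topology

namespace Pool.Agent.Helper741.Her

noncomputable section

-- NORM PRESERVATION

theorem inner_dl_aux {ι : Type} (s : ι) (F : L2 ι) : inner ℂ (dl s) F = F s := by
  classical
  have h := lp.inner_single_left (𝕜 := ℂ) (G := fun _ : ι => ℂ) s (1 : ℂ) F
  have e : (dl s : L2 ι) = lp.single 2 s (1 : ℂ) := by
    unfold dl
    congr!
  rw [e, h]
  simp

theorem nrm_ge_aux {Γ Γ' : Type} [Group Γ] [Group Γ'] (φ : Γ →* Γ') (hφ : Function.Injective φ)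
    (Z : Γ →₀ ℂ) : ‖rho Z‖ ≤ ‖rho (Finsupp.mapDomain φ Z)‖ := by
  classical
  set J : L2 Γ' →L[ℂ] L2 Γ := res φ with hJ
  have hJ1 : ∀ t : Γ, J (dl (φ t)) = dl t := by
    intro t
    refine lp.ext (funext fun s => ?_)
    rw [hJ, res_apply hφ, dl_apply, dl_apply]
    by_cases h : s = t
    · rw [if_pos h, if_pos (by rw [h])]
    · rw [if_neg h, if_neg (fun h' => h (hφ h'))]
  have hJ2 : ∀ t : Γ, (ContinuousLinearMap.adjoint J) (dl t) = dl (φ t) := by
    intro t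
    refine lp.ext (funext fun x => ?_)
    rw [← inner_dl_aux x, ContinuousLinearMap.adjoint_inner_right, ← inner_conj_symm, inner_dl_aux,
      hJ, res_apply hφ, dl_apply, dl_apply]
    by_cases h : x = φ t
    · rw [if_pos h, if_pos h.symm, map_one]
    · rw [if_neg h, if_neg (fun h' => h h'.symm), map_zero]
  have key : rho Z = J ∘L (rho (Finsupp.mapDomain φ Z) ∘L (ContinuousLinearMap.adjoint J)) := by
    refine ent_ext fun s t => ?_
    rw [ent_rho]
    unfold ent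
    rw [ContinuousLinearMap.comp_apply, ContinuousLinearMap.comp_apply, hJ2, hJ, res_apply hφ]
    have h := ent_rho (Finsupp.mapDomain φ Z) (φ s) (φ t)
    unfold ent at h
    rw [h, ← map_inv, ← map_mul, Finsupp.mapDomain_apply hφ]
  have hJn : ‖J‖ ≤ 1 := norm_res_le _
  have hJn' : ‖ContinuousLinearMap.adjoint J‖ ≤ 1 := by
    rw [LinearIsometryEquiv.norm_map]; exact hJn
  calc ‖rho Z‖ = ‖J ∘L (rho (Finsupp.mapDomain φ Z) ∘L (ContinuousLinearMap.adjoint J))‖ := by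
        rw [← key]
    _ ≤ ‖J‖ * (‖rho (Finsupp.mapDomain φ Z)‖ * ‖ContinuousLinearMap.adjoint J‖) :=
        (ContinuousLinearMap.opNorm_comp_le _ _).trans
          (mul_le_mul_of_nonneg_left (ContinuousLinearMap.opNorm_comp_le _ _) (norm_nonneg _))
    _ ≤ 1 * (‖rho (Finsupp.mapDomain φ Z)‖ * 1) :=
        mul_le_mul hJn (mul_le_mul_of_nonneg_left hJn' (norm_nonneg _)) (by positivity) zero_le_one
    _ = ‖rho (Finsupp.mapDomain φ Z)‖ := by ring

theorem rho_pull_aux {Γ Γ' : Type} [Group Γ] [Group Γ'] (φ : Γ →* Γ')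
    (Z : Γ →₀ ℂ) (F : L2 Γ') (G : L2 Γ) (c : Γ') (hG : ∀ i, G i = F (c * φ i)) (s : Γ) :
    (rho Z G) s = (rho (Finsupp.mapDomain φ Z) F) (c * φ s) := by
  induction Z using Finsupp.induction_linear with
  | zero =>
    rw [Finsupp.mapDomain_zero, map_zero, map_zero, zero_apply, zero_apply, lp.coeFn_zero,
      lp.coeFn_zero]
    rfl
  | add Z W hZ hW =>
    rw [Finsupp.mapDomain_add, map_add, map_add, add_apply, add_apply, lp.coeFn_add,
      lp.coeFn_add, Pi.add_apply, Pi.add_apply, hZ, hW]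
  | single h z =>
    rw [Finsupp.mapDomain_single, rho_single, rho_single, smul_apply, smul_apply, lp.coeFn_smul,
      lp.coeFn_smul, Pi.smul_apply, Pi.smul_apply, Rg_apply, Rg_apply, hG, map_mul, mul_assoc]

theorem nrm_le_aux {Γ Γ' : Type} [Group Γ] [Group Γ'] (φ : Γ →* Γ') (hφ : Function.Injective φ)
    (Z : Γ →₀ ℂ) : ‖rho (Finsupp.mapDomain φ Z)‖ ≤ ‖rho Z‖ := by
  classical
  set C := Γ' ⧸ φ.range with hC
  set k : Γ × C → Γ' := fun x => Quotient.out x.2 * φ x.1 with hk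
  have hmk : ∀ x : Γ × C, (QuotientGroup.mk (k x) : C) = x.2 := by
    intro x
    have h1 : (QuotientGroup.mk (Quotient.out x.2 * φ x.1) : C) = QuotientGroup.mk (Quotient.out x.2) :=
      QuotientGroup.mk_mul_of_mem _ ⟨x.1, rfl⟩
    rw [hk]
    refine h1.trans ?_
    exact QuotientGroup.out_eq' x.2
  have hinj : Function.Injective k := by
    intro x y hxy
    have h2 : x.2 = y.2 := by rw [← hmk x, ← hmk y, hxy]
    have h1 : Quotient.out x.2 * φ x.1 = Quotient.out y.2 * φ y.1 := hxy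
    rw [h2] at h1
    exact Prod.ext (hφ (mul_left_cancel h1)) h2
  have hsurj : Function.Surjective k := by
    intro g
    have h1 : (QuotientGroup.mk (Quotient.out (QuotientGroup.mk g : C)) : C) = QuotientGroup.mk g :=
      QuotientGroup.out_eq' _
    rw [QuotientGroup.eq] at h1
    obtain ⟨s, hs⟩ := h1
    refine ⟨(s, QuotientGroup.mk g), ?_⟩
    show Quotient.out (QuotientGroup.mk g : C) * φ s = g
    rw [hs, mul_inv_cancel_left]
  set e : Γ × C ≃ Γ' := Equiv.ofBijective k ⟨hinj, hsurj⟩ with he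
  obtain ⟨T', hT', hT⟩ := exists_ampl (rho Z) C
  have key : rho (Finsupp.mapDomain φ Z) = (res e.symm : L2 (Γ × C) →L[ℂ] L2 Γ') ∘L
      (T' ∘L (res k : L2 Γ' →L[ℂ] L2 (Γ × C))) := by
    refine ContinuousLinearMap.ext fun F => lp.ext (funext fun g => ?_)
    rw [ContinuousLinearMap.comp_apply, ContinuousLinearMap.comp_apply, res_apply e.symm.injective]
    obtain ⟨⟨s, c⟩, hsc⟩ : ∃ x : Γ × C, e.symm g = x := ⟨_, rfl⟩
    have hg : g = Quotient.out c * φ s := by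
      have : e (s, c) = g := by rw [← hsc]; exact e.apply_symm_apply g
      rw [← this]
      rfl
    have hjc : Function.Injective (fun i : Γ => Quotient.out c * φ i) := fun i j hij =>
      hφ (mul_left_cancel hij)
    rw [hsc, hT _ (res (fun i : Γ => Quotient.out c * φ i) F) c (fun i => by
      rw [res_apply hjc, res_apply hinj]) s,
      rho_pull_aux φ Z F _ (Quotient.out c) (fun i => res_apply hjc F i) s, ← hg]
  have h1 : ‖(res e.symm : L2 (Γ × C) →L[ℂ] L2 Γ')‖ ≤ 1 := norm_res_le _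
  have h2 : ‖(res k : L2 Γ' →L[ℂ] L2 (Γ × C))‖ ≤ 1 := norm_res_le _
  calc ‖rho (Finsupp.mapDomain φ Z)‖ = ‖(res e.symm : L2 (Γ × C) →L[ℂ] L2 Γ') ∘L
      (T' ∘L (res k : L2 Γ' →L[ℂ] L2 (Γ × C)))‖ := by rw [← key]
    _ ≤ ‖(res e.symm : L2 (Γ × C) →L[ℂ] L2 Γ')‖ * (‖T'‖ * ‖(res k : L2 Γ' →L[ℂ] L2 (Γ × C))‖) :=
        (ContinuousLinearMap.opNorm_comp_le _ _).trans
          (mul_le_mul_of_nonneg_left (ContinuousLinearMap.opNorm_comp_le _ _) (norm_nonneg _))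
    _ ≤ 1 * (‖T'‖ * 1) :=
        mul_le_mul h1 (mul_le_mul_of_nonneg_left h2 (norm_nonneg _)) (by positivity) zero_le_one
    _ = ‖T'‖ := by ring
    _ ≤ ‖rho Z‖ := hT'

theorem norm_rho_map {Γ Γ' : Type} [Group Γ] [Group Γ'] (φ : Γ →* Γ') (hφ : Function.Injective φ)
    (Z : Γ →₀ ℂ) : ‖rho (Finsupp.mapDomain φ Z)‖ = ‖rho Z‖ := by
  exact le_antisymm (nrm_le_aux φ hφ Z) (nrm_ge_aux φ hφ Z)

theorem letters_aux {Y : Type} (w : FreeGroup Y) : ∃ T : Finset Y, ∀ T' : Finset Y, T ⊆ T' →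
    w ∈ (FreeGroup.map (Subtype.val : {y // y ∈ T'} → Y)).range := by
  classical
  induction w using FreeGroup.induction_on with
  | C1 => exact ⟨∅, fun T' _ => one_mem _⟩
  | of x =>
    refine ⟨{x}, fun T' h => ?_⟩
    exact ⟨FreeGroup.of ⟨x, h (Finset.mem_singleton_self x)⟩, FreeGroup.map.of⟩
  | inv_of x ih =>
    obtain ⟨T, hT⟩ := ih
    exact ⟨T, fun T' h => inv_mem (hT T' h)⟩
  | mul x y hx hy =>
    obtain ⟨T, hT⟩ := hx
    obtain ⟨T2, hT2⟩ := hy
    refine ⟨T ∪ T2, fun T' h => mul_mem (hT T' ?_) (hT2 T' ?_)⟩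
    · exact Finset.subset_union_left.trans h
    · exact Finset.subset_union_right.trans h

theorem letters_finset {Y : Type} (W : Finset (FreeGroup Y)) : ∃ T : Finset Y, ∀ w ∈ W,
    w ∈ (FreeGroup.map (Subtype.val : {y // y ∈ T} → Y)).range := by
  classical
  choose T hT using (letters_aux (Y := Y))
  exact ⟨W.biUnion T, fun w hw => hT w _ (Finset.subset_biUnion_of_mem T hw)⟩

theorem norm_rho_eventually {Y Z S S' : Type} (f : ℕ → Y → S) (f' : ℕ → Z → S') (𝓕 𝓕' : Filter ℕ)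
    (hf : ∀ T : Finset Y, ∀ᶠ k in 𝓕, Set.InjOn (f k) T) (hf' : ∀ T : Finset Z, ∀ᶠ k in 𝓕', Set.InjOn (f' k) T)
    (z : (FreeGroup Y × FreeGroup Z) →₀ ℂ) :
    ∀ᶠ i in 𝓕 ×ˢ 𝓕', ‖rho (Finsupp.mapDomain
      ((FreeGroup.map (f i.1)).prodMap (FreeGroup.map (f' i.2))) z)‖ = ‖rho z‖ := by
  classical
  obtain ⟨T1, hT1⟩ := letters_finset (z.support.image Prod.fst)
  obtain ⟨T2, hT2⟩ := letters_finset (z.support.image Prod.snd)
  let iota : FreeGroup {y // y ∈ T1} × FreeGroup {y // y ∈ T2} →* FreeGroup Y × FreeGroup Z :=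
    (FreeGroup.map (Subtype.val : {y // y ∈ T1} → Y)).prodMap
      (FreeGroup.map (Subtype.val : {y // y ∈ T2} → Z))
  have hiota : Function.Injective iota := by
    intro p q hpq
    have h1 := congrArg Prod.fst hpq
    have h2 := congrArg Prod.snd hpq
    exact Prod.ext (FreeGroup.map_injective Subtype.val_injective h1)
      (FreeGroup.map_injective Subtype.val_injective h2)
  have hpre : ∀ g : FreeGroup Y × FreeGroup Z, ∃ p, g ∈ z.support → iota p = g := by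
    intro g
    by_cases hg : g ∈ z.support
    · obtain ⟨p1, hp1⟩ := hT1 g.1 (Finset.mem_image_of_mem _ hg)
      obtain ⟨p2, hp2⟩ := hT2 g.2 (Finset.mem_image_of_mem _ hg)
      exact ⟨(p1, p2), fun _ => Prod.ext hp1 hp2⟩
    · exact ⟨1, fun h => absurd h hg⟩
  choose pre hpre using hpre
  let z0 := Finsupp.mapDomain pre z
  have hz0 : Finsupp.mapDomain iota z0 = z := by
    show Finsupp.mapDomain iota (Finsupp.mapDomain pre z) = z
    rw [← Finsupp.mapDomain_comp]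
    have h1 : Finsupp.mapDomain (iota ∘ pre) z = Finsupp.mapDomain id z := by
      apply Finsupp.mapDomain_congr
      intro g hg
      exact hpre g hg
    rw [h1, Finsupp.mapDomain_id]
  have hev : ∀ᶠ i in 𝓕 ×ˢ 𝓕', Set.InjOn (f i.1) T1 ∧ Set.InjOn (f' i.2) T2 :=
    ((hf T1).prod_inl _).and ((hf' T2).prod_inr _)
  filter_upwards [hev] with i hi
  obtain ⟨hi1, hi2⟩ := hi
  let Phi : FreeGroup Y × FreeGroup Z →* FreeGroup S × FreeGroup S' :=
    (FreeGroup.map (f i.1)).prodMap (FreeGroup.map (f' i.2))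
  have hcomp1 : Function.Injective (fun y : {y // y ∈ T1} => f i.1 y.1) := by
    intro a b hab
    exact Subtype.ext (hi1 a.2 b.2 hab)
  have hcomp2 : Function.Injective (fun y : {y // y ∈ T2} => f' i.2 y.1) := by
    intro a b hab
    exact Subtype.ext (hi2 a.2 b.2 hab)
  have hpsi : Function.Injective (Phi.comp iota) := by
    intro p q hpq
    have h1 : FreeGroup.map (f i.1) (FreeGroup.map (Subtype.val : {y // y ∈ T1} → Y) p.1) =
        FreeGroup.map (f i.1) (FreeGroup.map (Subtype.val : {y // y ∈ T1} → Y) q.1) := congrArg Prod.fst hpq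
    have h2 : FreeGroup.map (f' i.2) (FreeGroup.map (Subtype.val : {y // y ∈ T2} → Z) p.2) =
        FreeGroup.map (f' i.2) (FreeGroup.map (Subtype.val : {y // y ∈ T2} → Z) q.2) := congrArg Prod.snd hpq
    rw [FreeGroup.map.comp, FreeGroup.map.comp] at h1 h2
    exact Prod.ext (FreeGroup.map_injective hcomp1 h1) (FreeGroup.map_injective hcomp2 h2)
  have e1 := norm_rho_map (Phi.comp iota) hpsi z0
  have e2 := norm_rho_map iota hiota z0
  rw [hz0] at e2
  have e3 : Finsupp.mapDomain (Phi.comp iota) z0 = Finsupp.mapDomain Phi z := by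
    have e4 : Finsupp.mapDomain (Phi ∘ iota) z0 = Finsupp.mapDomain Phi (Finsupp.mapDomain iota z0) :=
      Finsupp.mapDomain_comp
    rw [hz0] at e4
    exact e4
  rw [e3] at e1
  show ‖rho (Finsupp.mapDomain Phi z)‖ = ‖rho z‖
  rw [e1, e2]

open Classical in
theorem c28_coord {ι : Type} (F : L2 ι) (i : ι) : F i = inner ℂ (dl i) F := by
  unfold dl
  rw [lp.inner_single_left]
  simp

open Classical in
theorem c28_J {ι κ : Type} (j : ι → κ) (hj : Function.Injective j) (s : ι) :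
    (res j : L2 κ →L[ℂ] L2 ι) (dl (j s)) = dl s := by
  ext i
  rw [res_apply hj, dl_apply, dl_apply]
  by_cases h : i = s
  · rw [if_pos h, if_pos (by rw [h])]
  · rw [if_neg h, if_neg (fun h' => h (hj h'))]

open Classical in
theorem c28_J0 {ι κ : Type} (j : ι → κ) (hj : Function.Injective j) (a : κ)
    (ha : a ∉ Set.range j) :
    (res j : L2 κ →L[ℂ] L2 ι) (dl a) = 0 := by
  ext i
  rw [res_apply hj, dl_apply, if_neg (fun h => ha ⟨i, h⟩)]
  rfl

theorem c28_adj {ι κ : Type} (j : ι → κ) (G : L2 ι) (a : κ) :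
    (ContinuousLinearMap.adjoint (res j : L2 κ →L[ℂ] L2 ι) G) a =
      inner ℂ ((res j : L2 κ →L[ℂ] L2 ι) (dl a)) G := by
  rw [c28_coord, ContinuousLinearMap.adjoint_inner_right]

theorem c28_adj_dl {ι κ : Type} (j : ι → κ) (hj : Function.Injective j) (t : ι) :
    ContinuousLinearMap.adjoint (res j : L2 κ →L[ℂ] L2 ι) (dl t) = dl (j t) := by
  classical
  ext a
  rw [c28_adj]
  by_cases ha : a ∈ Set.range j
  · obtain ⟨s, rfl⟩ := ha
    rw [c28_J j hj, ← c28_coord, dl_apply, dl_apply]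
    by_cases h : s = t
    · rw [if_pos h, if_pos (by rw [h])]
    · rw [if_neg h, if_neg (fun h' => h (hj h'))]
  · rw [c28_J0 j hj a ha, inner_zero_left, dl_apply, if_neg]
    rintro rfl
    exact ha ⟨t, rfl⟩

theorem norm_corner {ι κ : Type} (j : ι → κ) (hj : Function.Injective j) (X : Op ι) (Y : Op κ)
    (h1 : ∀ s t, ent Y (j s) (j t) = ent X s t)
    (h2 : ∀ a b, ent Y a b ≠ 0 → a ∈ Set.range j ∧ b ∈ Set.range j) : ‖Y‖ = ‖X‖ := by
  have hJ : ‖(res j : L2 κ →L[ℂ] L2 ι)‖ ≤ 1 := norm_res_le j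
  have hJ' : ‖ContinuousLinearMap.adjoint (res j : L2 κ →L[ℂ] L2 ι)‖ ≤ 1 := by
    rw [LinearIsometryEquiv.norm_map]; exact hJ
  apply le_antisymm
  · have e : Y = (ContinuousLinearMap.adjoint (res j : L2 κ →L[ℂ] L2 ι)).comp
        (X.comp (res j : L2 κ →L[ℂ] L2 ι)) := by
      apply ent_ext
      intro a b
      show (Y (dl b)) a = (ContinuousLinearMap.adjoint (res j : L2 κ →L[ℂ] L2 ι)
        (X ((res j : L2 κ →L[ℂ] L2 ι) (dl b)))) a
      rw [c28_adj]
      by_cases ha : a ∈ Set.range j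
      · by_cases hb : b ∈ Set.range j
        · obtain ⟨s, rfl⟩ := ha
          obtain ⟨t, rfl⟩ := hb
          rw [c28_J j hj, c28_J j hj, ← c28_coord]
          exact h1 s t
        · rw [c28_J0 j hj b hb, map_zero, inner_zero_right]
          by_contra h
          exact hb (h2 a b h).2
      · rw [c28_J0 j hj a ha, inner_zero_left]
        by_contra h
        exact ha (h2 a b h).1
    have b1 := ContinuousLinearMap.opNorm_comp_le
      (ContinuousLinearMap.adjoint (res j : L2 κ →L[ℂ] L2 ι))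
      (X.comp (res j : L2 κ →L[ℂ] L2 ι))
    rw [← e] at b1
    have b2 := ContinuousLinearMap.opNorm_comp_le X (res j : L2 κ →L[ℂ] L2 ι)
    have b3 : ‖X‖ * ‖(res j : L2 κ →L[ℂ] L2 ι)‖ ≤ ‖X‖ * 1 :=
      mul_le_mul_of_nonneg_left hJ (norm_nonneg _)
    have b4 := mul_le_mul hJ' (b2.trans b3) (norm_nonneg _) zero_le_one
    have b5 := b1.trans b4
    linarith
  · have e : X = (res j : L2 κ →L[ℂ] L2 ι).comp
        (Y.comp (ContinuousLinearMap.adjoint (res j : L2 κ →L[ℂ] L2 ι))) := by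
      apply ent_ext
      intro s t
      show (X (dl t)) s = ((res j : L2 κ →L[ℂ] L2 ι)
        (Y (ContinuousLinearMap.adjoint (res j : L2 κ →L[ℂ] L2 ι) (dl t)))) s
      rw [res_apply hj, c28_adj_dl j hj]
      exact (h1 s t).symm
    have b1 := ContinuousLinearMap.opNorm_comp_le (res j : L2 κ →L[ℂ] L2 ι)
      (Y.comp (ContinuousLinearMap.adjoint (res j : L2 κ →L[ℂ] L2 ι)))
    rw [← e] at b1
    have b2 := ContinuousLinearMap.opNorm_comp_le Y
      (ContinuousLinearMap.adjoint (res j : L2 κ →L[ℂ] L2 ι))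
    have b3 : ‖Y‖ * ‖ContinuousLinearMap.adjoint (res j : L2 κ →L[ℂ] L2 ι)‖ ≤ ‖Y‖ * 1 :=
      mul_le_mul_of_nonneg_left hJ' (norm_nonneg _)
    have b4 := mul_le_mul hJ (b2.trans b3) (norm_nonneg _) zero_le_one
    have b5 := b1.trans b4
    linarith

-- SYMBOLS

theorem rho_shift_aux {Γ : Type} [Group Γ] (g : Γ) (Z : Γ →₀ ℂ) :
    rho (Z.mapDomain (fun h => g * h)) = Rg g * rho Z := by
  induction Z using Finsupp.induction_linear with
  | zero => simp
  | add a b ha hb => rw [Finsupp.mapDomain_add, map_add, map_add, ha, hb, mul_add]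
  | single h c => rw [Finsupp.mapDomain_single, rho_single, rho_single, Rg_mul, mul_smul_comm]

theorem UL_shift_aux {Γ : Type} [Group Γ] {ι : Type} (U : Γ → Op ι)
    (hUm : ∀ g h, U (g * h) = U g * U h) (g : Γ) (Z : Γ →₀ ℂ) :
    Finsupp.linearCombination ℂ U (Z.mapDomain (fun h => g * h)) =
      U g * Finsupp.linearCombination ℂ U Z := by
  induction Z using Finsupp.induction_linear with
  | zero => simp
  | add a b ha hb => rw [Finsupp.mapDomain_add, map_add, map_add, ha, hb, mul_add]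
  | single h c =>
    rw [Finsupp.mapDomain_single, Finsupp.linearCombination_single,
      Finsupp.linearCombination_single, hUm, mul_smul_comm]

/-- the symbol relation -/
def Sy {Γ : Type} [Group Γ] {ι I : Type} (P : I → Op ι) (U : Γ → Op ι) (𝓕 : Filter I)
    (z : Op ι) (y : Op Γ) : Prop :=
  ∀ ε : ℝ, 0 < ε → ∃ Z : Γ →₀ ℂ, ‖y - rho Z‖ < ε ∧
    ∀ᶠ i in 𝓕, ‖P i * (z - Finsupp.linearCombination ℂ U Z)‖ < ε

theorem Sy_exists {Γ : Type} [Group Γ] {ι I : Type} (P : I → Op ι)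
    (U : Γ → Op ι) (𝓕 : Filter I) [𝓕.NeBot]
    (H1 : ∀ Z : Γ →₀ ℂ, ∀ᶠ i in 𝓕, ‖P i * Finsupp.linearCombination ℂ U Z‖ = ‖rho Z‖)
    (z : Op ι)
    (H2 : ∀ ε : ℝ, ε > 0 → ∃ Z : Γ →₀ ℂ, ∀ᶠ i in 𝓕,
      ‖P i * (z - Finsupp.linearCombination ℂ U Z)‖ < ε) : ∃ y : Op Γ, Sy P U 𝓕 z y := by
  have hpos : ∀ n : ℕ, (0 : ℝ) < (1 / 2) ^ n := fun n => by positivity
  choose Z hZ using fun n : ℕ => H2 ((1 / 2) ^ n) (hpos n)
  have key : ∀ m n : ℕ, ‖rho (Z m) - rho (Z n)‖ < (1 / 2) ^ m + (1 / 2) ^ n := by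
    intro m n
    obtain ⟨i, hi1, hi2, hi3⟩ := ((H1 (Z m - Z n)).and ((hZ m).and (hZ n))).exists
    rw [← map_sub, ← hi1, map_sub]
    have : P i * (Finsupp.linearCombination ℂ U (Z m) - Finsupp.linearCombination ℂ U (Z n)) =
        P i * (z - Finsupp.linearCombination ℂ U (Z n)) -
          P i * (z - Finsupp.linearCombination ℂ U (Z m)) := by
      rw [← mul_sub]
      congr 1
      abel
    rw [this]
    calc ‖P i * (z - Finsupp.linearCombination ℂ U (Z n)) -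
          P i * (z - Finsupp.linearCombination ℂ U (Z m))‖ ≤
          ‖P i * (z - Finsupp.linearCombination ℂ U (Z n))‖ +
          ‖P i * (z - Finsupp.linearCombination ℂ U (Z m))‖ := norm_sub_le _ _
      _ < (1 / 2) ^ m + (1 / 2) ^ n := by linarith
  have hcau : CauchySeq (fun n => rho (Z n)) := by
    apply cauchySeq_of_le_geometric (1 / 2 : ℝ) 2 (by norm_num)
    intro n
    rw [dist_eq_norm]
    have h1 := key n (n + 1)
    have h2 : (1 / 2 : ℝ) ^ (n + 1) ≤ (1 / 2) ^ n := by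
      rw [pow_succ]
      have := hpos n
      linarith
    linarith
  obtain ⟨y, hy⟩ := cauchySeq_tendsto_of_complete hcau
  refine ⟨y, fun ε hε => ?_⟩
  have e1 : ∀ᶠ n in atTop, ‖y - rho (Z n)‖ < ε := by
    have := (Metric.tendsto_nhds.1 hy) ε hε
    filter_upwards [this] with n hn
    rw [dist_comm, dist_eq_norm] at hn
    exact hn
  have e2 : ∀ᶠ n : ℕ in atTop, ((1 : ℝ) / 2) ^ n < ε := by
    have := tendsto_pow_atTop_nhds_zero_of_lt_one (r := (1 / 2 : ℝ)) (by norm_num) (by norm_num)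
    exact this.eventually (gt_mem_nhds hε)
  obtain ⟨n, hn1, hn2⟩ := (e1.and e2).exists
  exact ⟨Z n, hn1, (hZ n).mono fun i hi => hi.trans hn2⟩

theorem Sy_zero {Γ : Type} [Group Γ] {ι I : Type} (P : I → Op ι) (U : Γ → Op ι) (𝓕 : Filter I) :
    Sy P U 𝓕 (0 : Op ι) (0 : Op Γ) := by
  intro ε hε
  refine ⟨0, by simpa using hε, Eventually.of_forall fun i => by simpa using hε⟩

theorem Sy_add {Γ : Type} [Group Γ] {ι I : Type} {P : I → Op ι} {U : Γ → Op ι} {𝓕 : Filter I}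
    {z z' : Op ι} {y y' : Op Γ} (h : Sy P U 𝓕 z y) (h' : Sy P U 𝓕 z' y') :
    Sy P U 𝓕 (z + z') (y + y') := by
  intro ε hε
  obtain ⟨Z, h1, h2⟩ := h (ε / 2) (by linarith)
  obtain ⟨Z', h1', h2'⟩ := h' (ε / 2) (by linarith)
  refine ⟨Z + Z', ?_, ?_⟩
  · rw [map_add]
    have : y + y' - (rho Z + rho Z') = (y - rho Z) + (y' - rho Z') := by abel
    rw [this]
    exact (norm_add_le _ _).trans_lt (by linarith)
  · filter_upwards [h2, h2'] with i hi hi'
    rw [map_add]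
    have : P i * (z + z' - (Finsupp.linearCombination ℂ U Z + Finsupp.linearCombination ℂ U Z')) =
        P i * (z - Finsupp.linearCombination ℂ U Z) +
        P i * (z' - Finsupp.linearCombination ℂ U Z') := by
      rw [← mul_add]
      congr 1
      abel
    rw [this]
    exact (norm_add_le _ _).trans_lt (by linarith)

theorem Sy_smul {Γ : Type} [Group Γ] {ι I : Type} {P : I → Op ι} {U : Γ → Op ι} {𝓕 : Filter I}
    {z : Op ι} {y : Op Γ} (c : ℂ) (h : Sy P U 𝓕 z y) : Sy P U 𝓕 (c • z) (c • y) := by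
  intro ε hε
  have hc : 0 < ‖c‖ + 1 := by positivity
  obtain ⟨Z, h1, h2⟩ := h (ε / (‖c‖ + 1)) (by positivity)
  have hb : ∀ a : ℝ, 0 ≤ a → a < ε / (‖c‖ + 1) → ‖c‖ * a < ε := by
    intro a ha0 ha
    rw [lt_div_iff₀ hc] at ha
    nlinarith [norm_nonneg c]
  refine ⟨c • Z, ?_, ?_⟩
  · rw [map_smul, ← smul_sub, norm_smul]
    exact hb _ (norm_nonneg _) h1
  · filter_upwards [h2] with i hi
    rw [map_smul, ← smul_sub, mul_smul_comm, norm_smul]
    exact hb _ (norm_nonneg _) hi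

theorem Sy_shift {Γ : Type} [Group Γ] {ι I : Type} {P : I → Op ι} {U : Γ → Op ι} {𝓕 : Filter I}
    (hU1 : ∀ g, ‖U g‖ ≤ 1)
    (hUm : ∀ g h, U (g * h) = U g * U h) (hPU : ∀ i g, P i * U g = U g * P i)
    {z : Op ι} {y : Op Γ} (g : Γ) (h : Sy P U 𝓕 z y) : Sy P U 𝓕 (U g * z) (Rg g * y) := by
  intro ε hε
  obtain ⟨Z, h1, h2⟩ := h ε hε
  refine ⟨Z.mapDomain (fun h => g * h), ?_, ?_⟩
  · rw [rho_shift_aux, ← mul_sub]
    calc ‖Rg g * (y - rho Z)‖ ≤ ‖Rg g‖ * ‖y - rho Z‖ := norm_mul_le _ _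
      _ ≤ 1 * ‖y - rho Z‖ := mul_le_mul_of_nonneg_right (norm_Rg_le g) (norm_nonneg _)
      _ < ε := by rw [one_mul]; exact h1
  · filter_upwards [h2] with i hi
    rw [UL_shift_aux U hUm, ← mul_sub, ← mul_assoc, hPU, mul_assoc]
    calc ‖U g * (P i * (z - Finsupp.linearCombination ℂ U Z))‖
        ≤ ‖U g‖ * ‖P i * (z - Finsupp.linearCombination ℂ U Z)‖ := norm_mul_le _ _
      _ ≤ 1 * ‖P i * (z - Finsupp.linearCombination ℂ U Z)‖ :=
          mul_le_mul_of_nonneg_right (hU1 g) (norm_nonneg _)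
      _ < ε := by rw [one_mul]; exact hi

theorem Sy_norm {Γ : Type} [Group Γ] {ι I : Type} {P : I → Op ι} {U : Γ → Op ι} {𝓕 : Filter I}
    (H1 : ∀ Z : Γ →₀ ℂ, ∀ᶠ i in 𝓕, ‖P i * Finsupp.linearCombination ℂ U Z‖ = ‖rho Z‖)
    {z : Op ι} {y : Op Γ} (h : Sy P U 𝓕 z y) (ε : ℝ) (hε : 0 < ε) :
    ∀ᶠ i in 𝓕, ‖P i * z‖ < ‖y‖ + ε := by
  obtain ⟨Z, h1, h2⟩ := h (ε / 3) (by linarith)
  filter_upwards [h2, H1 Z] with i hi hi'
  have e1 : P i * z = P i * (z - Finsupp.linearCombination ℂ U Z) +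
      P i * Finsupp.linearCombination ℂ U Z := by
    rw [← mul_add, sub_add_cancel]
  have e2 : ‖rho Z‖ ≤ ‖y‖ + ‖y - rho Z‖ := by
    have : rho Z = y - (y - rho Z) := by abel
    calc ‖rho Z‖ = ‖y - (y - rho Z)‖ := by rw [← this]
      _ ≤ ‖y‖ + ‖y - rho Z‖ := norm_sub_le _ _
  rw [e1]
  calc ‖P i * (z - Finsupp.linearCombination ℂ U Z) + P i * Finsupp.linearCombination ℂ U Z‖
      ≤ ‖P i * (z - Finsupp.linearCombination ℂ U Z)‖ +
        ‖P i * Finsupp.linearCombination ℂ U Z‖ := norm_add_le _ _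
    _ < ‖y‖ + ε := by rw [hi']; linarith

theorem Sy_mem {Γ : Type} [Group Γ] {ι I : Type} {P : I → Op ι} {U : Γ → Op ι} {𝓕 : Filter I}
    {z : Op ι} {y : Op Γ} (h : Sy P U 𝓕 z y) : y ∈ Dspan Γ := by
  have hc : IsClosed (Dspan Γ : Set (Op Γ)) := Submodule.isClosed_topologicalClosure _
  rw [← SetLike.mem_coe, ← hc.closure_eq, Metric.mem_closure_iff]
  intro ε hε
  obtain ⟨Z, h1, -⟩ := h ε hε
  exact ⟨rho Z, rho_mem Z, by rw [dist_eq_norm]; exact h1⟩

theorem sym_main {Γ : Type} [Group Γ] (hΓ : StarProp Γ) {ι I : Type} (P : I → Op ι)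
    (hP : ∀ i, ‖P i‖ ≤ 1)
    (B L : Submodule ℂ (Op ι)) (hLB : L ≤ B) (hBL : ∀ b ∈ B, ∀ z ∈ L, b * z ∈ L)
    (U : Γ → Op ι) (hUB : ∀ g, U g ∈ B) (hU1 : ∀ g, ‖U g‖ ≤ 1)
    (hUm : ∀ g h, U (g * h) = U g * U h) (hPU : ∀ i g, P i * U g = U g * P i)
    (𝓕 : Filter I) [𝓕.NeBot]
    (H1 : ∀ Z : Γ →₀ ℂ, ∀ᶠ i in 𝓕, ‖P i * Finsupp.linearCombination ℂ U Z‖ = ‖rho Z‖)
    (H2 : ∀ z ∈ B, ∀ ε > 0, ∃ Z : Γ →₀ ℂ, ∀ᶠ i in 𝓕,
      ‖P i * (z - Finsupp.linearCombination ℂ U Z)‖ < ε) :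
    ∃ Q : Set (Op ι), Q.Countable ∧ Q ⊆ L ∧ ∀ z ∈ L, ∀ ε > 0,
      ∃ y ∈ Submodule.span ℂ {x : Op ι | ∃ b ∈ B, ∃ q ∈ Q, x = b * q},
        ∀ᶠ i in 𝓕, ‖P i * (z - y)‖ < ε := by
  classical
  let S : Submodule ℂ (Op Γ) :=
    { carrier := {y | ∃ z ∈ L, Sy P U 𝓕 z y}
      add_mem' := by
        rintro a b ⟨z, hz, h⟩ ⟨z', hz', h'⟩
        exact ⟨z + z', L.add_mem hz hz', Sy_add h h'⟩
      zero_mem' := ⟨0, L.zero_mem, Sy_zero P U 𝓕⟩
      smul_mem' := by
        rintro c a ⟨z, hz, h⟩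
        exact ⟨c • z, L.smul_mem c hz, Sy_smul c h⟩ }
  have hS : ∀ y, y ∈ S ↔ ∃ z ∈ L, Sy P U 𝓕 z y := fun y => Iff.rfl
  obtain ⟨Q0, hQ0c, hQ0S, hQ0⟩ := hΓ S
    (by
      intro y hy
      obtain ⟨z, -, h⟩ := (hS y).1 hy
      exact Sy_mem h)
    (by
      intro g y hy
      obtain ⟨z, hz, h⟩ := (hS y).1 hy
      exact (hS _).2 ⟨U g * z, hBL _ (hUB g) z hz, Sy_shift hU1 hUm hPU g h⟩)
  have hch : ∀ q : Q0, ∃ z ∈ L, Sy P U 𝓕 z (q : Op Γ) := fun q => (hS _).1 (hQ0S q.2)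
  choose zq hzqL hzq using hch
  have : Countable Q0 := hQ0c.to_subtype
  refine ⟨Set.range zq, Set.countable_range zq, ?_, ?_⟩
  · rintro _ ⟨q, rfl⟩
    exact hzqL q
  intro z hz ε hε
  obtain ⟨y, hy⟩ := Sy_exists P U 𝓕 H1 z (fun e he => H2 z (hLB hz) e he)
  have hyS : y ∈ S := (hS y).2 ⟨z, hz, hy⟩
  have hcl := hQ0 y hyS
  rw [Metric.mem_closure_iff] at hcl
  obtain ⟨w, hw, hyw⟩ := hcl (ε / 3) (by linarith)
  have hspan : ∀ w ∈ gspan Q0, ∃ v ∈ Submodule.span ℂ {x : Op ι | ∃ b ∈ B, ∃ q ∈ Set.range zq,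
      x = b * q}, Sy P U 𝓕 v w := by
    intro w hw
    unfold gspan at hw
    induction hw using Submodule.span_induction with
    | mem x hx =>
      obtain ⟨g, q, hq, rfl⟩ := hx
      exact ⟨U g * zq ⟨q, hq⟩, Submodule.subset_span ⟨U g, hUB g, zq ⟨q, hq⟩, ⟨_, rfl⟩, rfl⟩,
        Sy_shift hU1 hUm hPU g (hzq ⟨q, hq⟩)⟩
    | zero => exact ⟨0, Submodule.zero_mem _, Sy_zero P U 𝓕⟩
    | add a b _ _ ha hb =>
      obtain ⟨v, hv, h⟩ := ha
      obtain ⟨v', hv', h'⟩ := hb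
      exact ⟨v + v', Submodule.add_mem _ hv hv', Sy_add h h'⟩
    | smul c a _ ha =>
      obtain ⟨v, hv, h⟩ := ha
      exact ⟨c • v, Submodule.smul_mem _ c hv, Sy_smul c h⟩
  obtain ⟨v, hv, hvw⟩ := hspan w hw
  refine ⟨v, hv, ?_⟩
  have hsub : Sy P U 𝓕 (z - v) (y - w) := by
    have := Sy_add hy (Sy_smul (-1 : ℂ) hvw)
    simpa [sub_eq_add_neg] using this
  have hn := Sy_norm H1 hsub (ε / 3) (by linarith)
  rw [dist_eq_norm] at hyw
  filter_upwards [hn] with i hi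
  linarith

end

end Pool.Agent.Helper741.Her
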