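import Pool.Agent.Helper741.Her.Symbol
import Pool.Agent.Helper741.Her.Projective

open Filter Topology

namespace Pool.Agent.Helper741.Her

noncomputable section

-- TENSOR SQUARE

open Classical in
theorem hasSum_ent833 {ι κ : Type} (T : L2 ι →L[ℂ] L2 κ) (F : L2 ι) (s : κ) :
    HasSum (fun t => F t * ent T s t) ((T F) s) := by
  have h1 : HasSum (fun t => lp.single 2 t (F t)) F :=
    lp.hasSum_single (by norm_num) F
  have h2 : ∀ t, lp.single (E := fun _ : ι => ℂ) 2 t (F t) = (F t) • dl t := by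
    intro t
    have : F t = F t • (1 : ℂ) := by simp
    unfold dl
    conv_lhs => rw [this]
    rw [lp.single_smul]
  have h3 : HasSum (fun t => T ((F t) • dl t)) (T F) := by
    have := h1.mapL T
    simpa only [h2] using this
  let ev : L2 κ →L[ℂ] ℂ := LinearMap.mkContinuous
    { toFun := fun G => G s
      map_add' := fun G H => by simp
      map_smul' := fun c G => by simp } 1 (fun G => by
        rw [one_mul]; exact norm_coord_le G s)
  have h4 := h3.mapL ev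
  have h5 : ∀ t, ev (T ((F t) • dl t)) = F t * ent T s t := by
    intro t
    rw [map_smul, map_smul]
    rfl
  have h6 : HasSum (fun t => F t * ent T s t) (ev (T F)) := by
    simpa only [h5] using h4
  exact h6

theorem tensor_exists {ι : Type} (a b : Op ι) : ∃ T : Op (ι × ι), IsTensor a b T ∧ ‖T‖ ≤ ‖a‖ * ‖b‖ := by
  obtain ⟨A1, hA1, hA⟩ := exists_ampl a ι
  obtain ⟨B1, hB1, hB⟩ := exists_ampl b ι
  have hsw : Function.Injective (Prod.swap : ι × ι → ι × ι) := Prod.swap_injective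
  have hS := fun F i => res_apply hsw F i
  have hSn : ‖(res (Prod.swap : ι × ι → ι × ι) : L2 (ι × ι) →L[ℂ] L2 (ι × ι))‖ ≤ 1 := norm_res_le _
  refine ⟨(res (Prod.swap : ι × ι → ι × ι)).comp (B1.comp
    ((res (Prod.swap : ι × ι → ι × ι)).comp A1)), ?_, ?_⟩
  · intro f g F hF i k
    have h1 : ∀ i k, (A1 F) (i, k) = (a f) i * g k := by
      intro i k
      have := hA F (g k • f) k (fun i => by
        rw [hF]
        show g k * f i = _
        ring) i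
      rw [this, map_smul]
      show g k * (a f) i = _
      ring
    show (res (Prod.swap : ι × ι → ι × ι) (B1 (res (Prod.swap : ι × ι → ι × ι) (A1 F)))) (i, k) = _
    rw [hS]
    show (B1 (res (Prod.swap : ι × ι → ι × ι) (A1 F))) (k, i) = _
    rw [hB (res (Prod.swap : ι × ι → ι × ι) (A1 F)) ((a f) i • g) i (fun k' => by
      rw [hS]
      show (a f) i * g k' = (A1 F) (i, k')
      rw [h1]) k, map_smul]
    rfl
  · refine (ContinuousLinearMap.opNorm_comp_le _ _).trans ?_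
    have h1 := ContinuousLinearMap.opNorm_comp_le B1
      ((res (Prod.swap : ι × ι → ι × ι)).comp A1)
    have h2 := ContinuousLinearMap.opNorm_comp_le (res (Prod.swap : ι × ι → ι × ι)) A1
    have h3 : ‖(res (Prod.swap : ι × ι → ι × ι)).comp A1‖ ≤ ‖a‖ := by
      refine h2.trans ?_
      calc _ ≤ 1 * ‖a‖ := mul_le_mul hSn hA1 (norm_nonneg _) zero_le_one
        _ = ‖a‖ := one_mul _
    have h4 : ‖B1.comp ((res (Prod.swap : ι × ι → ι × ι)).comp A1)‖ ≤ ‖b‖ * ‖a‖ :=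
      h1.trans (mul_le_mul hB1 h3 (norm_nonneg _) (norm_nonneg _))
    calc _ ≤ 1 * (‖b‖ * ‖a‖) := mul_le_mul hSn h4 (norm_nonneg _) zero_le_one
      _ = ‖a‖ * ‖b‖ := by ring

theorem tensor_ent833 {ι : Type} (a b : Op ι) (T : Op (ι × ι)) :
    IsTensor a b T ↔ ∀ i k i' k', ent T (i, k) (i', k') = ent a i i' * ent b k k' := by
  constructor
  · intro h i k i' k'
    unfold ent
    refine h (dl i') (dl k') (dl (i', k')) (fun i k => ?_) i k
    rw [dl_apply, dl_apply, dl_apply]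
    by_cases h1 : i = i' <;> by_cases h2 : k = k' <;> simp [h1, h2]
  · intro h f g F hF i k
    have h1 := hasSum_ent833 a f i
    have h2 := hasSum_ent833 b g k
    have h3 := hasSum_ent833 T F (i, k)
    rw [← h3.tsum_eq, ← h1.tsum_eq, ← h2.tsum_eq,
      tsum_mul_tsum_of_summable_norm h1.summable.norm h2.summable.norm]
    refine tsum_congr (fun p => ?_)
    obtain ⟨i', k'⟩ := p
    rw [hF, h]
    ring

theorem IsTensor.unique {ι : Type} {a b : Op ι} {T T' : Op (ι × ι)} (h : IsTensor a b T)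
    (h' : IsTensor a b T') : T = T' := by
  rw [tensor_ent833] at h h'
  refine ent_ext (fun s t => ?_)
  obtain ⟨i, k⟩ := s
  obtain ⟨i', k'⟩ := t
  rw [h, h']

theorem IsTensor_iff_ent {ι : Type} (a b : Op ι) (T : Op (ι × ι)) :
    IsTensor a b T ↔ ∀ i k i' k', ent T (i, k) (i', k') = ent a i i' * ent b k k' :=
  tensor_ent833 a b T

-- WORDS

variable {G : Type} [Group G]

/-- `(F)(n, s) ↦ c n * F (n, s * γ n)` -/
def wd (c : ℕ → ℂ) (γ : ℕ → G) : Op (ℕ × G) :=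
  dg (fun p => c p.1) * res (fun p => (p.1, p.2 * γ p.1))

def wd2 (c c' : ℕ → ℂ) (γ γ' : ℕ → G) : Op ((ℕ × G) × (ℕ × G)) :=
  dg (fun p => c p.1.1 * c' p.2.1) *
    res (fun p => ((p.1.1, p.1.2 * γ p.1.1), (p.2.1, p.2.2 * γ' p.2.1)))

theorem wd_coef (c : ℕ → ℂ) (hc : ∀ n, c n = 0 ∨ c n = 1) (n : ℕ) : ‖c n‖ ≤ 1 := by
  rcases hc n with h | h <;> rw [h] <;> simp

theorem wd_inj (γ : ℕ → G) : Function.Injective (fun p : ℕ × G => (p.1, p.2 * γ p.1)) := by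
  rintro ⟨n, s⟩ ⟨m, t⟩ h
  simp only [Prod.mk.injEq] at h
  obtain ⟨h1, h2⟩ := h
  subst h1
  rw [mul_right_cancel h2]

theorem wd2_inj (γ γ' : ℕ → G) : Function.Injective
    (fun p : (ℕ × G) × (ℕ × G) => ((p.1.1, p.1.2 * γ p.1.1), (p.2.1, p.2.2 * γ' p.2.1))) := by
  rintro ⟨⟨n, s⟩, ⟨m, t⟩⟩ ⟨⟨n', s'⟩, ⟨m', t'⟩⟩ h
  simp only [Prod.mk.injEq] at h
  obtain ⟨⟨h1, h2⟩, h3, h4⟩ := h
  subst h1
  subst h3
  rw [mul_right_cancel h2, mul_right_cancel h4]

theorem wd2_coef (c c' : ℕ → ℂ) (hc : ∀ n, c n = 0 ∨ c n = 1) (hc' : ∀ n, c' n = 0 ∨ c' n = 1)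
    (p : (ℕ × G) × (ℕ × G)) : ‖c p.1.1 * c' p.2.1‖ ≤ 1 := by
  rw [norm_mul]
  exact mul_le_one₀ (wd_coef c hc _) (norm_nonneg _) (wd_coef c' hc' _)

theorem wd_apply (c : ℕ → ℂ) (hc : ∀ n, c n = 0 ∨ c n = 1) (γ : ℕ → G) (F : L2 (ℕ × G)) (n : ℕ)
    (s : G) : (wd c γ F) (n, s) = c n * F (n, s * γ n) := by
  have h1 : ∀ p : ℕ × G, ‖(fun p : ℕ × G => c p.1) p‖ ≤ 1 := fun p => wd_coef c hc p.1
  change (dg (fun p : ℕ × G => c p.1) (res (fun p : ℕ × G => (p.1, p.2 * γ p.1)) F)) (n, s) = _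
  rw [dg_apply h1, res_apply (wd_inj γ)]

theorem wd2_apply (c c' : ℕ → ℂ) (hc : ∀ n, c n = 0 ∨ c n = 1) (hc' : ∀ n, c' n = 0 ∨ c' n = 1)
    (γ γ' : ℕ → G) (F : L2 ((ℕ × G) × (ℕ × G))) (n m : ℕ) (s t : G) :
    (wd2 c c' γ γ' F) ((n, s), (m, t)) = c n * c' m * F ((n, s * γ n), (m, t * γ' m)) := by
  have h1 : ∀ p : (ℕ × G) × (ℕ × G), ‖(fun p : (ℕ × G) × (ℕ × G) => c p.1.1 * c' p.2.1) p‖ ≤ 1 :=
    fun p => wd2_coef c c' hc hc' p
  change (dg (fun p : (ℕ × G) × (ℕ × G) => c p.1.1 * c' p.2.1)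
    (res (fun p : (ℕ × G) × (ℕ × G) => ((p.1.1, p.1.2 * γ p.1.1), (p.2.1, p.2.2 * γ' p.2.1))) F))
      ((n, s), (m, t)) = _
  rw [dg_apply h1, res_apply (wd2_inj γ γ')]

theorem norm_wd2_le (c c' : ℕ → ℂ) (hc : ∀ n, c n = 0 ∨ c n = 1) (hc' : ∀ n, c' n = 0 ∨ c' n = 1)
    (γ γ' : ℕ → G) : ‖wd2 c c' γ γ'‖ ≤ 1 := by
  have h1 : ∀ p : (ℕ × G) × (ℕ × G), ‖(fun p : (ℕ × G) × (ℕ × G) => c p.1.1 * c' p.2.1) p‖ ≤ 1 :=
    fun p => wd2_coef c c' hc hc' p
  calc ‖wd2 c c' γ γ'‖ ≤ ‖dg (fun p : (ℕ × G) × (ℕ × G) => c p.1.1 * c' p.2.1)‖ *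
      ‖(res (fun p : (ℕ × G) × (ℕ × G) => ((p.1.1, p.1.2 * γ p.1.1), (p.2.1, p.2.2 * γ' p.2.1))) :
        L2 ((ℕ × G) × (ℕ × G)) →L[ℂ] L2 ((ℕ × G) × (ℕ × G)))‖ := norm_mul_le _ _
    _ ≤ 1 * 1 := mul_le_mul (norm_dg_le zero_le_one h1) (norm_res_le _) (norm_nonneg _) zero_le_one
    _ = 1 := one_mul 1

theorem wd_tensor (c c' : ℕ → ℂ) (hc : ∀ n, c n = 0 ∨ c n = 1) (hc' : ∀ n, c' n = 0 ∨ c' n = 1)
    (γ γ' : ℕ → G) : IsTensor (wd c γ) (wd c' γ') (wd2 c c' γ γ') := by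
  intro f g F hF i k
  obtain ⟨n, s⟩ := i
  obtain ⟨m, t⟩ := k
  rw [wd2_apply c c' hc hc', wd_apply c hc, wd_apply c' hc', hF]
  ring

/-- admissible set of words: coefficients are 0 or 1, and the operators are closed under products
and adjoints -/
structure WordSet (W : Set ((ℕ → ℂ) × (ℕ → G))) : Prop where
  coef : ∀ p ∈ W, ∀ n, p.1 n = 0 ∨ p.1 n = 1
  mul : ∀ p ∈ W, ∀ q ∈ W, wd p.1 p.2 * wd q.1 q.2 = 0 ∨
    ∃ r ∈ W, wd p.1 p.2 * wd q.1 q.2 = wd r.1 r.2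
  inv : ∀ p ∈ W, ∃ r ∈ W, star (wd p.1 p.2) = wd r.1 r.2

/-- the algebra generated by a set of words -/
def AW (W : Set ((ℕ → ℂ) × (ℕ → G))) : NonUnitalStarSubalgebra ℂ (Op (ℕ × G)) :=
  (NonUnitalStarAlgebra.adjoin ℂ {T : Op (ℕ × G) | ∃ p ∈ W, T = wd p.1 p.2}).topologicalClosure

def span2 (W : Set ((ℕ → ℂ) × (ℕ → G))) : Submodule ℂ (Op ((ℕ × G) × (ℕ × G))) :=
  Submodule.span ℂ {T | ∃ p ∈ W, ∃ q ∈ W, T = wd2 p.1 q.1 p.2 q.2}

theorem AW_le (W : Set ((ℕ → ℂ) × (ℕ → G))) (hW : WordSet W) (a : Op (ℕ × G)) (ha : a ∈ AW W) :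
    a ∈ closure (Submodule.span ℂ {T : Op (ℕ × G) | ∃ p ∈ W, T = wd p.1 p.2} : Set (Op (ℕ × G))) := by
  classical
  let Sp : Submodule ℂ (Op (ℕ × G)) := Submodule.span ℂ {T : Op (ℕ × G) | ∃ p ∈ W, T = wd p.1 p.2}
  have hmul : ∀ x ∈ Sp, ∀ y ∈ Sp, x * y ∈ Sp := by
    intro x hx y hy
    refine Submodule.span_induction (p := fun x _ => x * y ∈ Sp) ?_ ?_ ?_ ?_ hx
    · rintro _ ⟨p, hp, rfl⟩
      refine Submodule.span_induction (p := fun y _ => wd p.1 p.2 * y ∈ Sp) ?_ ?_ ?_ ?_ hy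
      · rintro _ ⟨q, hq, rfl⟩
        rcases hW.mul p hp q hq with h | ⟨r, hr, h⟩
        · rw [h]; exact Sp.zero_mem
        · rw [h]; exact Submodule.subset_span ⟨r, hr, rfl⟩
      · rw [mul_zero]; exact Sp.zero_mem
      · intro u v _ _ hu hv
        rw [mul_add]; exact Sp.add_mem hu hv
      · intro c u _ hu
        rw [mul_smul_comm]; exact Sp.smul_mem c hu
    · rw [zero_mul]; exact Sp.zero_mem
    · intro u v _ _ hu hv
      rw [add_mul]; exact Sp.add_mem hu hv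
    · intro c u _ hu
      rw [smul_mul_assoc]; exact Sp.smul_mem c hu
  have hstar : ∀ x ∈ Sp, star x ∈ Sp := by
    intro x hx
    refine Submodule.span_induction (p := fun x _ => star x ∈ Sp) ?_ ?_ ?_ ?_ hx
    · rintro _ ⟨p, hp, rfl⟩
      obtain ⟨r, hr, h⟩ := hW.inv p hp
      rw [h]; exact Submodule.subset_span ⟨r, hr, rfl⟩
    · rw [star_zero]; exact Sp.zero_mem
    · intro u v _ _ hu hv
      rw [star_add]; exact Sp.add_mem hu hv
    · intro c u _ hu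
      rw [star_smul]; exact Sp.smul_mem _ hu
  let S : NonUnitalStarSubalgebra ℂ (Op (ℕ × G)) :=
    { carrier := Sp
      add_mem' := fun {x y} hx hy => Sp.add_mem hx hy
      zero_mem' := Sp.zero_mem
      mul_mem' := fun {x y} hx hy => hmul x hx y hy
      smul_mem' := fun c {x} hx => Sp.smul_mem c hx
      star_mem' := fun {x} hx => hstar x hx }
  have hle : NonUnitalStarAlgebra.adjoin ℂ {T : Op (ℕ × G) | ∃ p ∈ W, T = wd p.1 p.2} ≤ S := by
    apply NonUnitalStarAlgebra.adjoin_le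
    intro T hT
    exact Submodule.subset_span hT
  have ha' : a ∈ closure ((NonUnitalStarAlgebra.adjoin ℂ
      {T : Op (ℕ × G) | ∃ p ∈ W, T = wd p.1 p.2} : NonUnitalStarSubalgebra ℂ (Op (ℕ × G))) : Set (Op (ℕ × G))) := by
    have h := ha
    unfold AW at h
    exact h
  exact closure_mono (fun x hx => hle hx) ha'

theorem IsTensor_mul862 {ι : Type} {a b a' b' : Op ι} {T T' : Op (ι × ι)} (h : IsTensor a b T)
    (h' : IsTensor a' b' T') : IsTensor (a * a') (b * b') (T * T') := by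
  intro f g F hF i k
  have h1 := h' f g F hF
  exact h (a' f) (b' g) (T' F) h1 i k

theorem IsTensor_star862 {ι : Type} {a b : Op ι} {T : Op (ι × ι)} (h : IsTensor a b T) :
    IsTensor (star a) (star b) (star T) := by
  rw [IsTensor_iff_ent] at h ⊢
  intro i k i' k'
  rw [ent_star, ent_star, ent_star, h, star_mul']

theorem IsTensor_add_left862 {ι : Type} {a a' b : Op ι} {T T' : Op (ι × ι)} (h : IsTensor a b T)
    (h' : IsTensor a' b T') : IsTensor (a + a') b (T + T') := by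
  rw [IsTensor_iff_ent] at h h' ⊢
  intro i k i' k'
  rw [ent_add, ent_add, h, h', add_mul]

theorem IsTensor_add_right862 {ι : Type} {a b b' : Op ι} {T T' : Op (ι × ι)} (h : IsTensor a b T)
    (h' : IsTensor a b' T') : IsTensor a (b + b') (T + T') := by
  rw [IsTensor_iff_ent] at h h' ⊢
  intro i k i' k'
  rw [ent_add, ent_add, h, h', mul_add]

theorem IsTensor_smul_left862 {ι : Type} {a b : Op ι} {T : Op (ι × ι)} (c : ℂ)
    (h : IsTensor a b T) : IsTensor (c • a) b (c • T) := by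
  rw [IsTensor_iff_ent] at h ⊢
  intro i k i' k'
  rw [ent_smul, ent_smul, h, mul_assoc]

theorem IsTensor_smul_right862 {ι : Type} {a b : Op ι} {T : Op (ι × ι)} (c : ℂ)
    (h : IsTensor a b T) : IsTensor a (c • b) (c • T) := by
  rw [IsTensor_iff_ent] at h ⊢
  intro i k i' k'
  rw [ent_smul, ent_smul, h]
  ring

theorem IsTensor_zero_left862 {ι : Type} (b : Op ι) : IsTensor 0 b (0 : Op (ι × ι)) := by
  intro f g F hF i k
  simp

theorem IsTensor_zero_right862 {ι : Type} (a : Op ι) : IsTensor a 0 (0 : Op (ι × ι)) := by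
  intro f g F hF i k
  simp

/-- the tensor product of two operators -/
def tn862 {ι : Type} (a b : Op ι) : Op (ι × ι) := Classical.choose (tensor_exists a b)

theorem tn862_spec {ι : Type} (a b : Op ι) : IsTensor a b (tn862 a b) :=
  (Classical.choose_spec (tensor_exists a b)).1

theorem tn862_norm {ι : Type} (a b : Op ι) : ‖tn862 a b‖ ≤ ‖a‖ * ‖b‖ :=
  (Classical.choose_spec (tensor_exists a b)).2

/-- the tensor product as a continuous bilinear map -/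
def tnL862 {ι : Type} : Op ι →L[ℂ] Op ι →L[ℂ] Op (ι × ι) :=
  LinearMap.mkContinuous₂ (LinearMap.mk₂ ℂ (fun a b : Op ι => tn862 a b)
    (fun a a' b => (tn862_spec (a + a') b).unique
      (IsTensor_add_left862 (tn862_spec a b) (tn862_spec a' b)))
    (fun c a b => (tn862_spec (c • a) b).unique (IsTensor_smul_left862 c (tn862_spec a b)))
    (fun a b b' => (tn862_spec a (b + b')).unique
      (IsTensor_add_right862 (tn862_spec a b) (tn862_spec a b')))
    (fun c a b => (tn862_spec a (c • b)).unique (IsTensor_smul_right862 c (tn862_spec a b)))) 1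
    (fun a b => by rw [one_mul]; exact tn862_norm a b)

theorem tnL862_apply {ι : Type} (a b : Op ι) : tnL862 a b = tn862 a b := rfl

theorem span2_mul862 (W : Set ((ℕ → ℂ) × (ℕ → G))) (hW : WordSet W)
    (x y : Op ((ℕ × G) × (ℕ × G))) (hx : x ∈ span2 W) (hy : y ∈ span2 W) : x * y ∈ span2 W := by
  unfold span2 at hx hy ⊢
  induction hx using Submodule.span_induction with
  | mem x hx =>
    obtain ⟨p, hp, q, hq, rfl⟩ := hx
    induction hy using Submodule.span_induction with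
    | mem y hy =>
      obtain ⟨p', hp', q', hq', rfl⟩ := hy
      have h1 := wd_tensor p.1 q.1 (hW.coef p hp) (hW.coef q hq) p.2 q.2
      have h2 := wd_tensor p'.1 q'.1 (hW.coef p' hp') (hW.coef q' hq') p'.2 q'.2
      have h3 := IsTensor_mul862 h1 h2
      rcases hW.mul p hp p' hp' with h | ⟨r, hr, h⟩
      · rw [h] at h3
        rw [h3.unique (IsTensor_zero_left862 _)]
        exact Submodule.zero_mem _
      · rcases hW.mul q hq q' hq' with h' | ⟨r', hr', h'⟩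
        · rw [h'] at h3
          rw [h3.unique (IsTensor_zero_right862 _)]
          exact Submodule.zero_mem _
        · rw [h, h'] at h3
          rw [h3.unique (wd_tensor r.1 r'.1 (hW.coef r hr) (hW.coef r' hr') r.2 r'.2)]
          exact Submodule.subset_span ⟨r, hr, r', hr', rfl⟩
    | zero => rw [mul_zero]; exact Submodule.zero_mem _
    | add y z _ _ h1 h2 => rw [mul_add]; exact Submodule.add_mem _ h1 h2
    | smul c y _ h1 => rw [mul_smul_comm]; exact Submodule.smul_mem _ _ h1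
  | zero => rw [zero_mul]; exact Submodule.zero_mem _
  | add x z _ _ h1 h2 => rw [add_mul]; exact Submodule.add_mem _ h1 h2
  | smul c x _ h1 => rw [smul_mul_assoc]; exact Submodule.smul_mem _ _ h1

theorem span2_star862 (W : Set ((ℕ → ℂ) × (ℕ → G))) (hW : WordSet W)
    (x : Op ((ℕ × G) × (ℕ × G))) (hx : x ∈ span2 W) : star x ∈ span2 W := by
  unfold span2 at hx ⊢
  induction hx using Submodule.span_induction with
  | mem x hx =>
    obtain ⟨p, hp, q, hq, rfl⟩ := hx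
    have h1 := IsTensor_star862 (wd_tensor p.1 q.1 (hW.coef p hp) (hW.coef q hq) p.2 q.2)
    obtain ⟨r, hr, h⟩ := hW.inv p hp
    obtain ⟨r', hr', h'⟩ := hW.inv q hq
    rw [h, h'] at h1
    rw [h1.unique (wd_tensor r.1 r'.1 (hW.coef r hr) (hW.coef r' hr') r.2 r'.2)]
    exact Submodule.subset_span ⟨r, hr, r', hr', rfl⟩
  | zero => rw [star_zero]; exact Submodule.zero_mem _
  | add x z _ _ h1 h2 => rw [star_add]; exact Submodule.add_mem _ h1 h2
  | smul c x _ h1 => rw [star_smul]; exact Submodule.smul_mem _ _ h1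

theorem tn862_mem (W : Set ((ℕ → ℂ) × (ℕ → G))) (hW : WordSet W) (a b : Op (ℕ × G))
    (ha : a ∈ Submodule.span ℂ {T : Op (ℕ × G) | ∃ p ∈ W, T = wd p.1 p.2})
    (hb : b ∈ Submodule.span ℂ {T : Op (ℕ × G) | ∃ p ∈ W, T = wd p.1 p.2}) :
    tnL862 a b ∈ span2 W := by
  induction ha using Submodule.span_induction with
  | mem x hx =>
    obtain ⟨p, hp, rfl⟩ := hx
    induction hb using Submodule.span_induction with
    | mem y hy =>
      obtain ⟨q, hq, rfl⟩ := hy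
      rw [tnL862_apply, (tn862_spec _ _).unique
        (wd_tensor p.1 q.1 (hW.coef p hp) (hW.coef q hq) p.2 q.2)]
      exact Submodule.subset_span ⟨p, hp, q, hq, rfl⟩
    | zero => rw [map_zero]; exact Submodule.zero_mem _
    | add y z _ _ h1 h2 => rw [map_add]; exact Submodule.add_mem _ h1 h2
    | smul c y _ h1 => rw [map_smul]; exact Submodule.smul_mem _ _ h1
  | zero => rw [map_zero]; exact Submodule.zero_mem _
  | add x z _ _ h1 h2 =>
    rw [map_add, add_apply]; exact Submodule.add_mem _ h1 h2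
  | smul c x _ h1 =>
    rw [map_smul, smul_apply]; exact Submodule.smul_mem _ _ h1

theorem minSq_le (W : Set ((ℕ → ℂ) × (ℕ → G))) (hW : WordSet W) (z : Op ((ℕ × G) × (ℕ × G)))
    (hz : z ∈ minSq (AW W)) : z ∈ closure (span2 W : Set (Op ((ℕ × G) × (ℕ × G)))) := by
  let C : NonUnitalStarSubalgebra ℂ (Op ((ℕ × G) × (ℕ × G))) :=
    { carrier := closure (span2 W : Set (Op ((ℕ × G) × (ℕ × G))))
      add_mem' := fun {x y} hx hy => (span2 W).topologicalClosure.add_mem hx hy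
      zero_mem' := (span2 W).topologicalClosure.zero_mem
      smul_mem' := fun c x hx => (span2 W).topologicalClosure.smul_mem c hx
      mul_mem' := fun {x y} hx hy => map_mem_closure₂ continuous_mul hx hy
        (fun a ha b hb => span2_mul862 W hW a b ha hb)
      star_mem' := fun {x} hx => map_mem_closure continuous_star hx
        (fun a ha => span2_star862 W hW a ha) }
  have h1 : NonUnitalStarAlgebra.adjoin ℂ
      {T : Op ((ℕ × G) × (ℕ × G)) | ∃ a ∈ AW W, ∃ b ∈ AW W, IsTensor a b T} ≤ C := by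
    apply NonUnitalStarAlgebra.adjoin_le
    rintro T ⟨a, ha, b, hb, hT⟩
    have h2 := AW_le W hW a ha
    have h3 := AW_le W hW b hb
    rw [(hT.unique (tn862_spec a b) : T = tn862 a b), ← tnL862_apply]
    exact map_mem_closure₂ (f := fun a b => tnL862 (ι := ℕ × G) a b)
      (tnL862 (ι := ℕ × G)).continuous₂ h2 h3
      (fun a ha b hb => tn862_mem W hW a b ha hb)
  have h4 : z ∈ closure ((NonUnitalStarAlgebra.adjoin ℂ
      {T : Op ((ℕ × G) × (ℕ × G)) | ∃ a ∈ AW W, ∃ b ∈ AW W, IsTensor a b T} :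
        NonUnitalStarSubalgebra ℂ (Op ((ℕ × G) × (ℕ × G)))) : Set (Op ((ℕ × G) × (ℕ × G)))) := hz
  exact closure_minimal (fun x hx => h1 hx) isClosed_closure h4

theorem wd2_mem (W : Set ((ℕ → ℂ) × (ℕ → G))) (hW : WordSet W) (p q : (ℕ → ℂ) × (ℕ → G))
    (hp : p ∈ W) (hq : q ∈ W) : wd2 p.1 q.1 p.2 q.2 ∈ minSq (AW W) := by
  have hmem : ∀ r ∈ W, wd r.1 r.2 ∈ AW W := fun r hr =>
    NonUnitalStarSubalgebra.le_topologicalClosure _
      (NonUnitalStarAlgebra.subset_adjoin ℂ _ ⟨r, hr, rfl⟩)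
  exact NonUnitalStarSubalgebra.le_topologicalClosure _
    (NonUnitalStarAlgebra.subset_adjoin ℂ _ ⟨wd p.1 p.2, hmem p hp, wd q.1 q.2, hmem q hq,
      wd_tensor p.1 q.1 (hW.coef p hp) (hW.coef q hq) p.2 q.2⟩)

-- BLOCKS

open Classical in
/-- projection onto the block `(k, l)` -/
def PB (i : ℕ × ℕ) : Op ((ℕ × G) × (ℕ × G)) :=
  dg (fun p => if (p.1.1, p.2.1) = i then 1 else 0)

open Classical in
theorem PB_apply (i : ℕ × ℕ) (F : L2 ((ℕ × G) × (ℕ × G))) (p : (ℕ × G) × (ℕ × G)) :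
    (PB i F) p = (if (p.1.1, p.2.1) = i then 1 else 0) * F p := by
  unfold PB
  rw [dg_apply (C := 1)]
  intro p
  split_ifs <;> simp

theorem norm_PB_le (i : ℕ × ℕ) : ‖(PB i : Op ((ℕ × G) × (ℕ × G)))‖ ≤ 1 := by
  unfold PB
  apply norm_dg_le zero_le_one
  intro p
  split_ifs <;> simp

theorem PB_idem862 (i : ℕ × ℕ) : (PB i : Op ((ℕ × G) × (ℕ × G))) * PB i = PB i := by
  refine ContinuousLinearMap.ext fun F => lp.ext (funext fun p => ?_)
  change (PB i (PB i F)) p = (PB i F) p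
  rw [PB_apply, PB_apply]
  split_ifs <;> simp

theorem PB_wd2862 (c c' : ℕ → ℂ) (hc : ∀ n, c n = 0 ∨ c n = 1) (hc' : ∀ n, c' n = 0 ∨ c' n = 1)
    (γ γ' : ℕ → G) (i : ℕ × ℕ) : PB i * wd2 c c' γ γ' = wd2 c c' γ γ' * PB i := by
  refine ContinuousLinearMap.ext fun F => lp.ext (funext fun p => ?_)
  change (PB i (wd2 c c' γ γ' F)) p = (wd2 c c' γ γ' (PB i F)) p
  obtain ⟨⟨n, s⟩, ⟨m, t⟩⟩ := p
  rw [PB_apply, wd2_apply c c' hc hc', wd2_apply c c' hc hc', PB_apply]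
  ring

theorem PB_comm (W : Set ((ℕ → ℂ) × (ℕ → G))) (hW : WordSet W) (z : Op ((ℕ × G) × (ℕ × G)))
    (hz : z ∈ minSq (AW W)) (i : ℕ × ℕ) : PB i * z = z * PB i := by
  have h1 := minSq_le W hW z hz
  have hcl : IsClosed {z : Op ((ℕ × G) × (ℕ × G)) | PB i * z = z * PB i} :=
    isClosed_eq (continuous_const.mul continuous_id) (continuous_id.mul continuous_const)
  have h2 : (span2 W : Set (Op ((ℕ × G) × (ℕ × G)))) ⊆
      {z : Op ((ℕ × G) × (ℕ × G)) | PB i * z = z * PB i} := by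
    intro x hx
    change x ∈ span2 W at hx
    change PB i * x = x * PB i
    unfold span2 at hx
    induction hx using Submodule.span_induction with
    | mem x hx =>
      obtain ⟨p, hp, q, hq, rfl⟩ := hx
      exact PB_wd2862 _ _ (hW.coef p hp) (hW.coef q hq) _ _ i
    | zero => rw [zero_mul, mul_zero]
    | add x y _ _ h1 h2 => rw [add_mul, mul_add, h1, h2]
    | smul c x _ h1 => rw [smul_mul_assoc, mul_smul_comm, h1]
  exact closure_minimal h2 hcl h1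

/-- the equivalence separating the block index -/
def blkE862 : (ℕ × ℕ) × (G × G) ≃ (ℕ × G) × (ℕ × G) where
  toFun p := ((p.1.1, p.2.1), (p.1.2, p.2.2))
  invFun p := ((p.1.1, p.2.1), (p.1.2, p.2.2))
  left_inv := fun _ => rfl
  right_inv := fun _ => rfl

theorem norm_PB_sq862 (i : ℕ × ℕ) (F : L2 ((ℕ × G) × (ℕ × G))) :
    ‖PB i F‖ ^ 2 = ∑' q : G × G, ‖F ((i.1, q.1), (i.2, q.2))‖ ^ 2 := by
  classical
  rw [norm_sq_eq, ← (blkE862 (G := G)).tsum_eq]
  have hs : Summable fun p : (ℕ × ℕ) × (G × G) => ‖(PB i F) (blkE862 p)‖ ^ 2 :=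
    (summable_sq (PB i F)).comp_injective (blkE862 (G := G)).injective
  rw [hs.tsum_prod, tsum_eq_single i]
  · apply tsum_congr
    intro q
    rw [PB_apply]
    simp [blkE862]
  · intro j hj
    have : ∀ q : G × G, ‖(PB i F) (blkE862 (j, q))‖ ^ 2 = 0 := by
      intro q
      rw [PB_apply]
      have : ((blkE862 (j, q)).1.1, (blkE862 (j, q)).2.1) = j := rfl
      rw [this, if_neg hj]
      simp
    simp [this]

theorem norm_sq_blocks862 (F : L2 ((ℕ × G) × (ℕ × G))) :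
    (Summable fun i : ℕ × ℕ => ‖PB i F‖ ^ 2) ∧ ‖F‖ ^ 2 = ∑' i : ℕ × ℕ, ‖PB i F‖ ^ 2 := by
  have hs : Summable fun p : (ℕ × ℕ) × (G × G) => ‖F (blkE862 p)‖ ^ 2 :=
    (summable_sq F).comp_injective (blkE862 (G := G)).injective
  have h1 : ∀ i : ℕ × ℕ, ‖PB i F‖ ^ 2 = ∑' q : G × G, ‖F (blkE862 (i, q))‖ ^ 2 :=
    fun i => norm_PB_sq862 i F
  constructor
  · simp_rw [h1]
    exact hs.prod
  · simp_rw [h1]
    rw [norm_sq_eq, ← (blkE862 (G := G)).tsum_eq, hs.tsum_prod]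

theorem norm_of_blocks (w : Op ((ℕ × G) × (ℕ × G))) (hw : ∀ i, PB i * w = w * PB i) (C : ℝ)
    (h : ∀ i, ‖PB i * w‖ ≤ C) : ‖w‖ ≤ C := by
  have hC : 0 ≤ C := (norm_nonneg _).trans (h (0, 0))
  refine ContinuousLinearMap.opNorm_le_bound _ hC fun F => ?_
  have h1 := norm_sq_blocks862 (w F)
  have h2 := norm_sq_blocks862 F
  have key : ∀ i, ‖PB i (w F)‖ ^ 2 ≤ C ^ 2 * ‖PB i F‖ ^ 2 := by
    intro i
    have e1 : PB i (w F) = (PB i * w : Op ((ℕ × G) × (ℕ × G))) (PB i F) := by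
      have : PB i * w = (PB i * w) * PB i := by
        rw [mul_assoc, ← hw i, ← mul_assoc, PB_idem862]
      calc PB i (w F) = (PB i * w : Op ((ℕ × G) × (ℕ × G))) F := rfl
        _ = ((PB i * w) * PB i : Op ((ℕ × G) × (ℕ × G))) F := by rw [← this]
        _ = (PB i * w : Op ((ℕ × G) × (ℕ × G))) (PB i F) := rfl
    rw [e1, ← mul_pow]
    apply pow_le_pow_left₀ (norm_nonneg _)
    exact (ContinuousLinearMap.le_opNorm _ _).trans
      (mul_le_mul_of_nonneg_right (h i) (norm_nonneg _))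
  have h3 : ‖w F‖ ^ 2 ≤ (C * ‖F‖) ^ 2 := by
    rw [h1.2, mul_pow, h2.2, ← tsum_mul_left]
    exact h1.1.tsum_le_tsum key (h2.1.mul_left _)
  exact (pow_le_pow_iff_left₀ (norm_nonneg _) (by positivity) two_ne_zero).1 h3

/-- one-factor scheme: a free group `FreeGroup Y` mapping to the words over `FreeGroup S` -/
structure FS {S : Type} (W : Set ((ℕ → ℂ) × (ℕ → FreeGroup S))) (Y : Type) (f : ℕ → Y → S)
    (c : ℕ → ℂ) (𝓕 : Filter ℕ) : Prop where
  inj : ∀ T : Finset Y, ∀ᶠ k in 𝓕, Set.InjOn (f k) T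
  one : ∀ᶠ k in 𝓕, c k = 1
  mem : ∀ w : FreeGroup Y, (c, fun k => FreeGroup.map (f k) w) ∈ W
  res : ∀ p ∈ W, (∀ᶠ k in 𝓕, p.1 k = 0) ∨
    ∃ w : FreeGroup Y, ∀ᶠ k in 𝓕, p.1 k = 1 ∧ p.2 k = FreeGroup.map (f k) w

open Classical in
theorem h845_ent_PB {G : Type} [Group G] (i : ℕ × ℕ) (T : Op ((ℕ × G) × (ℕ × G)))
    (p q : (ℕ × G) × (ℕ × G)) :
    ent (PB i * T) p q = (if (p.1.1, p.2.1) = i then 1 else 0) * ent T p q := by
  unfold ent
  exact PB_apply i (T (dl q)) p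

open Classical in
theorem h845_ent_wd2 {G : Type} [Group G] (c c' : ℕ → ℂ) (hc : ∀ n, c n = 0 ∨ c n = 1)
    (hc' : ∀ n, c' n = 0 ∨ c' n = 1)
    (γ γ' : ℕ → G) (p q : (ℕ × G) × (ℕ × G)) :
    ent (wd2 c c' γ γ') p q = c p.1.1 * c' p.2.1 *
      (if ((p.1.1, p.1.2 * γ p.1.1), (p.2.1, p.2.2 * γ' p.2.1)) = q then 1 else 0) := by
  obtain ⟨⟨n, s⟩, ⟨m, t⟩⟩ := p
  unfold ent
  rw [wd2_apply c c' hc hc', dl_apply]
  dsimp only
  by_cases hq : ((n, s * γ n), (m, t * γ' m)) = q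
  · rw [if_pos hq, if_pos hq]
  · rw [if_neg hq, if_neg hq]

open Classical in
theorem h845_ent_UL {G Δ : Type} [Group G] (c c' : ℕ → ℂ) (hc : ∀ n, c n = 0 ∨ c n = 1)
    (hc' : ∀ n, c' n = 0 ∨ c' n = 1) (γ γ' : Δ → ℕ → G) (z : Δ →₀ ℂ) (i : ℕ × ℕ)
    (p q : (ℕ × G) × (ℕ × G)) :
    ent (PB i * Finsupp.linearCombination ℂ (fun g => wd2 c c' (γ g) (γ' g)) z) p q =
      (if (p.1.1, p.2.1) = i then 1 else 0) * ∑ g ∈ z.support, z g * (c p.1.1 * c' p.2.1 *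
      (if ((p.1.1, p.1.2 * γ g p.1.1), (p.2.1, p.2.2 * γ' g p.2.1)) = q then 1 else 0)) := by
  rw [h845_ent_PB, Finsupp.linearCombination_apply, Finsupp.sum, ent_sum]
  congr 1
  refine Finset.sum_congr rfl fun g _ => ?_
  rw [ent_smul, h845_ent_wd2 c c' hc hc']

theorem scheme_H1 {S Y Z : Type} (W : Set ((ℕ → ℂ) × (ℕ → FreeGroup S))) (hW : WordSet W)
    (f : ℕ → Y → S) (f' : ℕ → Z → S) (c c' : ℕ → ℂ) (𝓕 𝓕' : Filter ℕ)
    (h : FS W Y f c 𝓕) (h' : FS W Z f' c' 𝓕')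
    (z : (FreeGroup Y × FreeGroup Z) →₀ ℂ) :
    ∀ᶠ i in 𝓕 ×ˢ 𝓕', ‖PB i * Finsupp.linearCombination ℂ
      (fun g : FreeGroup Y × FreeGroup Z => wd2 c c' (fun k => FreeGroup.map (f k) g.1)
        (fun l => FreeGroup.map (f' l) g.2)) z‖ = ‖rho z‖ := by
  classical
  have hc : ∀ n, c n = 0 ∨ c n = 1 := hW.coef _ (h.mem 1)
  have hc' : ∀ n, c' n = 0 ∨ c' n = 1 := hW.coef _ (h'.mem 1)
  have e1 : ∀ᶠ i in 𝓕 ×ˢ 𝓕', c i.1 = 1 := h.one.prod_inl _
  have e2 : ∀ᶠ i in 𝓕 ×ˢ 𝓕', c' i.2 = 1 := h'.one.prod_inr _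
  have e3 := norm_rho_eventually f f' 𝓕 𝓕' h.inj h'.inj z
  filter_upwards [e1, e2, e3] with i h1 h2 h3
  rw [← h3]
  refine norm_corner (fun st : FreeGroup S × FreeGroup S => ((i.1, st.1), (i.2, st.2))) ?_ _ _ ?_ ?_
  · intro a b hab
    simp only [Prod.mk.injEq, true_and] at hab
    exact Prod.ext hab.1 hab.2
  · intro s t
    rw [h845_ent_UL c c' hc hc' (fun (g : FreeGroup Y × FreeGroup Z) k => FreeGroup.map (f k) g.1) (fun (g : FreeGroup Y × FreeGroup Z) l => FreeGroup.map (f' l) g.2)]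
    rw [ent_rho, Finsupp.mapDomain, Finsupp.sum_apply, Finsupp.sum]
    simp only [Prod.mk.eta, if_true, one_mul, h1, h2]
    refine Finset.sum_congr rfl fun g _ => ?_
    rw [Finsupp.single_apply]
    have hiff : (((i.1, s.1 * FreeGroup.map (f i.1) g.1), (i.2, s.2 * FreeGroup.map (f' i.2) g.2)) =
        ((i.1, t.1), (i.2, t.2))) ↔ ((FreeGroup.map (f i.1)).prodMap (FreeGroup.map (f' i.2))) g = s⁻¹ * t := by
      constructor
      · intro hh
        simp only [Prod.mk.injEq, true_and] at hh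
        apply Prod.ext
        · show FreeGroup.map (f i.1) g.1 = s.1⁻¹ * t.1
          rw [← hh.1]; group
        · show FreeGroup.map (f' i.2) g.2 = s.2⁻¹ * t.2
          rw [← hh.2]; group
      · intro hh
        have ha : FreeGroup.map (f i.1) g.1 = s.1⁻¹ * t.1 := congrArg Prod.fst hh
        have hb : FreeGroup.map (f' i.2) g.2 = s.2⁻¹ * t.2 := congrArg Prod.snd hh
        rw [ha, hb]
        simp
    by_cases hq : ((FreeGroup.map (f i.1)).prodMap (FreeGroup.map (f' i.2))) g = s⁻¹ * t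
    · rw [if_pos (hiff.2 hq), if_pos hq, mul_one]
    · rw [if_neg (fun hh => hq (hiff.1 hh)), if_neg hq, mul_zero]
  · intro p q hpq
    rw [h845_ent_UL c c' hc hc' (fun (g : FreeGroup Y × FreeGroup Z) k => FreeGroup.map (f k) g.1) (fun (g : FreeGroup Y × FreeGroup Z) l => FreeGroup.map (f' l) g.2)] at hpq
    have hi : (p.1.1, p.2.1) = i := by
      by_contra hne
      rw [if_neg hne, zero_mul] at hpq
      exact hpq rfl
    have hs := right_ne_zero_of_mul hpq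
    obtain ⟨g, _, hg⟩ := Finset.exists_ne_zero_of_sum_ne_zero hs
    have hg2 := right_ne_zero_of_mul (right_ne_zero_of_mul hg)
    have hq : ((p.1.1, p.1.2 * FreeGroup.map (f p.1.1) g.1), (p.2.1, p.2.2 * FreeGroup.map (f' p.2.1) g.2)) = q := by
      by_contra hne
      rw [if_neg hne] at hg2
      exact hg2 rfl
    subst hi
    refine ⟨⟨(p.1.2, p.2.2), rfl⟩, ?_⟩
    rw [← hq]
    exact ⟨(_, _), rfl⟩

theorem blk_zero {G : Type} [Group G] (i : ℕ × ℕ) (T : Op ((ℕ × G) × (ℕ × G)))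
    (h : ∀ F p, (p.1.1, p.2.1) = i → (T F) p = 0) : PB i * T = 0 := by
  refine ContinuousLinearMap.ext fun F => lp.ext (funext fun p => ?_)
  have h1 : ((PB i : Op ((ℕ × G) × (ℕ × G))) * T : Op ((ℕ × G) × (ℕ × G))) F = PB i (T F) := rfl
  rw [h1, PB_apply]
  by_cases hp : (p.1.1, p.2.1) = i
  · rw [h F p hp]
    simp
  · rw [if_neg hp]
    simp

theorem scheme_word {S Y Z : Type} (W : Set ((ℕ → ℂ) × (ℕ → FreeGroup S))) (hW : WordSet W)
    (f : ℕ → Y → S) (f' : ℕ → Z → S) (c c' : ℕ → ℂ) (𝓕 𝓕' : Filter ℕ)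
    (h : FS W Y f c 𝓕) (h' : FS W Z f' c' 𝓕')
    (p q : (ℕ → ℂ) × (ℕ → FreeGroup S)) (hp : p ∈ W) (hq : q ∈ W) :
    ∃ z : (FreeGroup Y × FreeGroup Z) →₀ ℂ,
    ∀ᶠ i in 𝓕 ×ˢ 𝓕', PB i * (wd2 p.1 q.1 p.2 q.2 - Finsupp.linearCombination ℂ
      (fun g : FreeGroup Y × FreeGroup Z => wd2 c c' (fun k => FreeGroup.map (f k) g.1)
        (fun l => FreeGroup.map (f' l) g.2)) z) = 0 := by
  have hcp := hW.coef p hp
  have hcq := hW.coef q hq
  have hc : ∀ n, c n = 0 ∨ c n = 1 := hW.coef _ (h.mem 1)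
  have hc' : ∀ n, c' n = 0 ∨ c' n = 1 := hW.coef _ (h'.mem 1)
  rcases h.res p hp with hz | ⟨w, hw⟩
  · refine ⟨0, ?_⟩
    filter_upwards [hz.prod_inl 𝓕'] with i hi
    apply blk_zero
    rintro F ⟨⟨n, s⟩, ⟨m, t⟩⟩ hnm
    simp only at hnm
    rw [map_zero, sub_zero, wd2_apply p.1 q.1 hcp hcq]
    have : n = i.1 := by rw [← hnm]
    rw [this, hi]
    simp
  · rcases h'.res q hq with hz' | ⟨w', hw'⟩
    · refine ⟨0, ?_⟩
      filter_upwards [hz'.prod_inr 𝓕] with i hi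
      apply blk_zero
      rintro F ⟨⟨n, s⟩, ⟨m, t⟩⟩ hnm
      simp only at hnm
      rw [map_zero, sub_zero, wd2_apply p.1 q.1 hcp hcq]
      have : m = i.2 := by rw [← hnm]
      rw [this, hi]
      simp
    · refine ⟨Finsupp.single (w, w') 1, ?_⟩
      filter_upwards [hw.prod_inl 𝓕', hw'.prod_inr 𝓕, h.one.prod_inl 𝓕', h'.one.prod_inr 𝓕]
        with i h1 h2 h3 h4
      apply blk_zero
      rintro F ⟨⟨n, s⟩, ⟨m, t⟩⟩ hnm
      simp only at hnm
      rw [Finsupp.linearCombination_single, one_smul]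
      have e : ((wd2 p.1 q.1 p.2 q.2 - wd2 c c' (fun k => FreeGroup.map (f k) (w, w').1)
        (fun l => FreeGroup.map (f' l) (w, w').2)) F) ((n, s), (m, t)) =
        (wd2 p.1 q.1 p.2 q.2 F) ((n, s), (m, t)) - (wd2 c c' (fun k => FreeGroup.map (f k) (w, w').1)
        (fun l => FreeGroup.map (f' l) (w, w').2) F) ((n, s), (m, t)) := rfl
      rw [e, wd2_apply p.1 q.1 hcp hcq, wd2_apply c c' hc hc']
      have hn : n = i.1 := by rw [← hnm]
      have hm : m = i.2 := by rw [← hnm]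
      subst hn hm
      rw [h1.1, h1.2, h2.1, h2.2, h3, h4]
      simp

theorem scheme_H2 {S Y Z : Type} (W : Set ((ℕ → ℂ) × (ℕ → FreeGroup S))) (hW : WordSet W)
    (f : ℕ → Y → S) (f' : ℕ → Z → S) (c c' : ℕ → ℂ) (𝓕 𝓕' : Filter ℕ)
    (h : FS W Y f c 𝓕) (h' : FS W Z f' c' 𝓕')
    (x : Op ((ℕ × FreeGroup S) × (ℕ × FreeGroup S))) (hx : x ∈ minSq (AW W)) (ε : ℝ) (hε : 0 < ε) :
    ∃ z : (FreeGroup Y × FreeGroup Z) →₀ ℂ,
    ∀ᶠ i in 𝓕 ×ˢ 𝓕', ‖PB i * (x - Finsupp.linearCombination ℂ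
      (fun g : FreeGroup Y × FreeGroup Z => wd2 c c' (fun k => FreeGroup.map (f k) g.1)
        (fun l => FreeGroup.map (f' l) g.2)) z)‖ < ε := by
  have hcl := minSq_le W hW x hx
  set UL := Finsupp.linearCombination ℂ
      (fun g : FreeGroup Y × FreeGroup Z => wd2 c c' (fun k => FreeGroup.map (f k) g.1)
        (fun l => FreeGroup.map (f' l) g.2)) with hUL
  have key : ∀ y ∈ span2 W, ∃ z : (FreeGroup Y × FreeGroup Z) →₀ ℂ,
      ∀ᶠ i in 𝓕 ×ˢ 𝓕', PB i * (y - UL z) = 0 := by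
    intro y hy
    unfold span2 at hy
    induction hy using Submodule.span_induction with
    | mem y hy =>
      obtain ⟨p, hp, q, hq, rfl⟩ := hy
      exact scheme_word W hW f f' c c' 𝓕 𝓕' h h' p q hp hq
    | zero =>
      refine ⟨0, Filter.Eventually.of_forall fun i => ?_⟩
      rw [map_zero, sub_zero, mul_zero]
    | add y y' _ _ ih ih' =>
      obtain ⟨z, hz⟩ := ih
      obtain ⟨z', hz'⟩ := ih'
      refine ⟨z + z', ?_⟩
      filter_upwards [hz, hz'] with i h1 h2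
      have : y + y' - UL (z + z') = (y - UL z) + (y' - UL z') := by
        rw [map_add]; abel
      rw [this, mul_add, h1, h2, add_zero]
    | smul a y _ ih =>
      obtain ⟨z, hz⟩ := ih
      refine ⟨a • z, ?_⟩
      filter_upwards [hz] with i h1
      have : a • y - UL (a • z) = a • (y - UL z) := by
        rw [map_smul, smul_sub]
      rw [this, mul_smul_comm, h1, smul_zero]
  obtain ⟨y, hy, hxy⟩ := Metric.mem_closure_iff.1 hcl ε hε
  obtain ⟨z, hz⟩ := key y hy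
  refine ⟨z, ?_⟩
  filter_upwards [hz] with i hi
  have e : x - UL z = (x - y) + (y - UL z) := by abel
  rw [e, mul_add, hi, add_zero]
  calc ‖PB i * (x - y)‖ ≤ ‖(PB i : Op ((ℕ × FreeGroup S) × (ℕ × FreeGroup S)))‖ * ‖x - y‖ := norm_mul_le _ _
    _ ≤ 1 * ‖x - y‖ := by gcongr; exact norm_PB_le i
    _ = dist x y := by rw [one_mul, dist_eq_norm]
    _ < ε := hxy

theorem scheme_main {S Y Z : Type} (W : Set ((ℕ → ℂ) × (ℕ → FreeGroup S))) (hW : WordSet W)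
    (f : ℕ → Y → S) (f' : ℕ → Z → S) (c c' : ℕ → ℂ) (𝓕 𝓕' : Filter ℕ) [𝓕.NeBot] [𝓕'.NeBot]
    (h : FS W Y f c 𝓕) (h' : FS W Z f' c' 𝓕')
    (L : Submodule ℂ (Op ((ℕ × FreeGroup S) × (ℕ × FreeGroup S))))
    (hLB : ∀ z ∈ L, z ∈ minSq (AW W)) (hBL : ∀ b ∈ minSq (AW W), ∀ z ∈ L, b * z ∈ L) :
    ∃ Q : Set (Op ((ℕ × FreeGroup S) × (ℕ × FreeGroup S))), Q.Countable ∧ Q ⊆ L ∧
      ∀ z ∈ L, ∀ ε > 0, ∃ y ∈ Submodule.span ℂ {x | ∃ b ∈ minSq (AW W), ∃ q ∈ Q, x = b * q},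
        ∀ᶠ i in 𝓕 ×ˢ 𝓕', ‖PB i * (z - y)‖ < ε := by
  classical
  have hc : ∀ n, c n = 0 ∨ c n = 1 := hW.coef _ (h.mem 1)
  have hc' : ∀ n, c' n = 0 ∨ c' n = 1 := hW.coef _ (h'.mem 1)
  let U : FreeGroup Y × FreeGroup Z → Op ((ℕ × FreeGroup S) × (ℕ × FreeGroup S)) := fun g =>
    wd2 c c' (fun k => FreeGroup.map (f k) g.1) (fun l => FreeGroup.map (f' l) g.2)
  let B : Submodule ℂ (Op ((ℕ × FreeGroup S) × (ℕ × FreeGroup S))) :=
    { carrier := {x | x ∈ minSq (AW W)}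
      add_mem' := fun {a b} ha hb => (minSq (AW W)).add_mem' ha hb
      zero_mem' := zero_mem (S := NonUnitalStarSubalgebra ℂ _) (minSq (AW W))
      smul_mem' := fun r x hx => SMulMemClass.smul_mem (s := minSq (AW W)) r hx }
  have hUB : ∀ g, U g ∈ minSq (AW W) := fun g => wd2_mem W hW _ _ (h.mem g.1) (h'.mem g.2)
  have hU1 : ∀ g, ‖U g‖ ≤ 1 := fun g => norm_wd2_le c c' hc hc' _ _
  have hUm : ∀ g k, U (g * k) = U g * U k := by
    intro g k
    refine ContinuousLinearMap.ext fun F => ?_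
    apply lp.ext
    funext p
    obtain ⟨⟨n, s⟩, ⟨m, t⟩⟩ := p
    show (wd2 c c' (fun k' => FreeGroup.map (f k') (g * k).1)
      (fun l => FreeGroup.map (f' l) (g * k).2) F) ((n, s), (m, t)) =
      (wd2 c c' (fun k' => FreeGroup.map (f k') g.1)
      (fun l => FreeGroup.map (f' l) g.2) (wd2 c c' (fun k' => FreeGroup.map (f k') k.1)
      (fun l => FreeGroup.map (f' l) k.2) F)) ((n, s), (m, t))
    rw [wd2_apply c c' hc hc', wd2_apply c c' hc hc', wd2_apply c c' hc hc', Prod.fst_mul,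
      Prod.snd_mul, map_mul, map_mul, mul_assoc s, mul_assoc t]
    rcases hc n with h1 | h1 <;> rcases hc' m with h2 | h2 <;> simp [h1, h2]
  exact sym_main (starProp_free Y Z) PB norm_PB_le B L hLB hBL U hUB hU1 hUm
    (fun i g => PB_comm W hW _ (hUB g) i) (𝓕 ×ˢ 𝓕') (scheme_H1 W hW f f' c c' 𝓕 𝓕' h h')
    (fun x hx ε hε => scheme_H2 W hW f f' c c' 𝓕 𝓕' h h' x hx ε hε)

open Classical in
theorem cover_aux {𝔸 : Type} [NormedRing 𝔸] [NormedAlgebra ℂ 𝔸] (P : ℕ × ℕ → 𝔸)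
    (S : Submodule ℂ 𝔸) (z : 𝔸) (ε : ℝ) (M V : Set (ℕ × ℕ)) (μ : 𝔸)
    (hμ : ∀ i, P i * μ = if i ∈ M then P i else 0) (hS : ∀ y ∈ S, μ * y ∈ S)
    (hM : ∃ y ∈ S, ∀ i ∈ M, ‖P i * (z - y)‖ < ε) (hV : ∃ y ∈ S, ∀ i ∈ V, ‖P i * (z - y)‖ < ε) :
    ∃ y ∈ S, ∀ i ∈ M ∪ V, ‖P i * (z - y)‖ < ε := by
  obtain ⟨y, hy, hy1⟩ := hM
  obtain ⟨y', hy', hy1'⟩ := hV
  refine ⟨μ * y + y' - μ * y', S.sub_mem (S.add_mem (hS y hy) hy') (hS y' hy'), ?_⟩
  intro i hi
  have h1 : P i * (z - (μ * y + y' - μ * y')) =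
      P i * z - (P i * μ) * y - P i * y' + (P i * μ) * y' := by
    noncomm_ring
  rw [h1, hμ i]
  by_cases hiM : i ∈ M
  · rw [if_pos hiM]
    have h2 : P i * z - P i * y - P i * y' + P i * y' = P i * (z - y) := by noncomm_ring
    rw [h2]
    exact hy1 i hiM
  · rw [if_neg hiM]
    have h2 : P i * z - 0 * y - P i * y' + 0 * y' = P i * (z - y') := by
      rw [zero_mul, zero_mul]; noncomm_ring
    rw [h2]
    rcases hi with hi | hi
    · exact absurd hi hiM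
    · exact hy1' i hi

open Classical in
theorem cover {𝔸 : Type} [NormedRing 𝔸] [NormedAlgebra ℂ 𝔸] (P : ℕ × ℕ → 𝔸) (m₁ m₂ : ℕ → 𝔸)
    (h₁ : ∀ i n, P i * m₁ n = if i.1 = n then P i else 0)
    (h₂ : ∀ i n, P i * m₂ n = if i.2 = n then P i else 0)
    (S : Submodule ℂ 𝔸) (hS₁ : ∀ n, ∀ y ∈ S, m₁ n * y ∈ S) (hS₂ : ∀ n, ∀ y ∈ S, m₂ n * y ∈ S)
    (z : 𝔸) (ε : ℝ)
    (H : ∃ y ∈ S, ∀ᶠ i in (atTop : Filter ℕ) ×ˢ (atTop : Filter ℕ), ‖P i * (z - y)‖ < ε)
    (Hr : ∀ n, ∃ y ∈ S, ∀ᶠ i in (pure n : Filter ℕ) ×ˢ (atTop : Filter ℕ), ‖P i * (z - y)‖ < ε)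
    (Hc : ∀ n, ∃ y ∈ S, ∀ᶠ i in (atTop : Filter ℕ) ×ˢ (pure n : Filter ℕ), ‖P i * (z - y)‖ < ε)
    (Hp : ∀ n m, ∃ y ∈ S, ∀ᶠ i in (pure n : Filter ℕ) ×ˢ (pure m : Filter ℕ), ‖P i * (z - y)‖ < ε) :
    ∃ y ∈ S, ∀ i, ‖P i * (z - y)‖ < ε := by
  let Good : Set (ℕ × ℕ) → Prop := fun V => ∃ y ∈ S, ∀ i ∈ V, ‖P i * (z - y)‖ < ε
  have mono : ∀ V V' : Set (ℕ × ℕ), V' ⊆ V → Good V → Good V' := by
    rintro V V' h ⟨y, hy, h2⟩
    exact ⟨y, hy, fun i hi => h2 i (h hi)⟩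
  have hpt : ∀ n m, Good {(n, m)} := by
    intro n m
    obtain ⟨y, hy, h2⟩ := Hp n m
    rw [Filter.prod_pure_pure] at h2
    have h3 : ‖P (n, m) * (z - y)‖ < ε := h2
    refine ⟨y, hy, fun i hi => ?_⟩
    rw [Set.mem_singleton_iff] at hi
    rw [hi]
    exact h3
  have addpt : ∀ n m V, Good V → Good ({(n, m)} ∪ V) := by
    intro n m V hV
    refine cover_aux P S z ε {(n, m)} V (m₁ n * m₂ m) ?_ ?_ (hpt n m) hV
    · intro i
      rw [← mul_assoc, h₁ i n]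
      by_cases h1 : i.1 = n
      · rw [if_pos h1, h₂ i m]
        by_cases h2 : i.2 = m
        · rw [if_pos h2, if_pos]
          exact Prod.ext h1 h2
        · rw [if_neg h2, if_neg]
          intro h3
          exact h2 (by rw [Set.mem_singleton_iff] at h3; rw [h3])
      · rw [if_neg h1, zero_mul, if_neg]
        intro h3
        exact h1 (by rw [Set.mem_singleton_iff] at h3; rw [h3])
    · intro y hy
      rw [mul_assoc]
      exact hS₁ n _ (hS₂ m _ hy)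
  have hrow : ∀ n, Good {i | i.1 = n} := by
    intro n
    obtain ⟨y, hy, h2⟩ := Hr n
    rw [Filter.pure_prod, Filter.eventually_map, eventually_atTop] at h2
    obtain ⟨l0, hl0⟩ := h2
    have h3 : ∀ j, Good ({i | i.1 = n ∧ l0 ≤ i.2} ∪ {i | i.1 = n ∧ i.2 < j}) := by
      intro j
      induction j with
      | zero =>
        refine ⟨y, hy, ?_⟩
        rintro ⟨a, b⟩ (⟨ha, hb⟩ | ⟨ha, hb⟩)
        · simp only at ha hb
          subst ha
          exact hl0 b hb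
        · exact absurd hb (Nat.not_lt_zero _)
      | succ j ih =>
        refine mono _ _ ?_ (addpt n j _ ih)
        rintro ⟨a, b⟩ (⟨ha, hb⟩ | ⟨ha, hb⟩)
        · exact Or.inr (Or.inl ⟨ha, hb⟩)
        · simp only at ha hb
          rcases Nat.lt_succ_iff_lt_or_eq.1 hb with h | h
          · exact Or.inr (Or.inr ⟨ha, h⟩)
          · refine Or.inl ?_
            rw [Set.mem_singleton_iff, ha, h]
    refine mono _ _ ?_ (h3 l0)
    rintro ⟨a, b⟩ ha
    rcases lt_or_ge b l0 with h | h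
    · exact Or.inr ⟨ha, h⟩
    · exact Or.inl ⟨ha, h⟩
  have hcol : ∀ m, Good {i | i.2 = m} := by
    intro m
    obtain ⟨y, hy, h2⟩ := Hc m
    rw [Filter.prod_pure, Filter.eventually_map, eventually_atTop] at h2
    obtain ⟨l0, hl0⟩ := h2
    have h3 : ∀ j, Good ({i | i.2 = m ∧ l0 ≤ i.1} ∪ {i | i.2 = m ∧ i.1 < j}) := by
      intro j
      induction j with
      | zero =>
        refine ⟨y, hy, ?_⟩
        rintro ⟨a, b⟩ (⟨ha, hb⟩ | ⟨ha, hb⟩)
        · simp only at ha hb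
          subst ha
          exact hl0 a hb
        · exact absurd hb (Nat.not_lt_zero _)
      | succ j ih =>
        refine mono _ _ ?_ (addpt j m _ ih)
        rintro ⟨a, b⟩ (⟨ha, hb⟩ | ⟨ha, hb⟩)
        · exact Or.inr (Or.inl ⟨ha, hb⟩)
        · simp only at ha hb
          rcases Nat.lt_succ_iff_lt_or_eq.1 hb with h | h
          · exact Or.inr (Or.inr ⟨ha, h⟩)
          · refine Or.inl ?_
            rw [Set.mem_singleton_iff, ha, h]
    refine mono _ _ ?_ (h3 l0)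
    rintro ⟨a, b⟩ ha
    rcases lt_or_ge a l0 with h | h
    · exact Or.inr ⟨ha, h⟩
    · exact Or.inl ⟨ha, h⟩
  have addrow : ∀ n V, Good V → Good ({i | i.1 = n} ∪ V) := by
    intro n V hV
    exact cover_aux P S z ε {i | i.1 = n} V (m₁ n) (fun i => by rw [h₁ i n]; by_cases h : i.1 = n <;> simp [h]) (hS₁ n) (hrow n) hV
  have addcol : ∀ n V, Good V → Good ({i | i.2 = n} ∪ V) := by
    intro n V hV
    exact cover_aux P S z ε {i | i.2 = n} V (m₂ n) (fun i => by rw [h₂ i n]; by_cases h : i.2 = n <;> simp [h]) (hS₂ n) (hcol n) hV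
  obtain ⟨y, hy, h2⟩ := H
  rw [Filter.prod_atTop_atTop_eq, eventually_atTop] at h2
  obtain ⟨⟨a1, a2⟩, ha⟩ := h2
  have h3 : ∀ j, Good ({i | a1 ≤ i.1 ∧ a2 ≤ i.2} ∪ {i | i.1 < j}) := by
    intro j
    induction j with
    | zero =>
      refine ⟨y, hy, ?_⟩
      rintro ⟨a, b⟩ (⟨hx, hb⟩ | hx)
      · exact ha (a, b) ⟨hx, hb⟩
      · exact absurd hx (Nat.not_lt_zero _)
    | succ j ih =>
      refine mono _ _ ?_ (addrow j _ ih)
      rintro ⟨a, b⟩ (⟨hx, hb⟩ | hx)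
      · exact Or.inr (Or.inl ⟨hx, hb⟩)
      · rcases Nat.lt_succ_iff_lt_or_eq.1 hx with h | h
        · exact Or.inr (Or.inr h)
        · exact Or.inl h
  have h4 : ∀ j, Good (({i | a1 ≤ i.1 ∧ a2 ≤ i.2} ∪ {i | i.1 < a1}) ∪ {i | i.2 < j}) := by
    intro j
    induction j with
    | zero =>
      refine mono _ _ ?_ (h3 a1)
      rintro ⟨a, b⟩ (hx | hx)
      · exact hx
      · exact absurd hx (Nat.not_lt_zero _)
    | succ j ih =>
      refine mono _ _ ?_ (addcol j _ ih)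
      rintro ⟨a, b⟩ (hx | hx)
      · exact Or.inr (Or.inl hx)
      · rcases Nat.lt_succ_iff_lt_or_eq.1 hx with h | h
        · exact Or.inr (Or.inr h)
        · exact Or.inl h
  obtain ⟨w, hw, h5⟩ := h4 a2
  refine ⟨w, hw, fun i => h5 i ?_⟩
  rcases lt_or_ge i.1 a1 with h | h
  · exact Or.inl (Or.inr h)
  · rcases lt_or_ge i.2 a2 with h' | h'
    · exact Or.inr h'
    · exact Or.inl (Or.inl ⟨h, h'⟩)

end

end Pool.Agent.Helper741.Her
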